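import Pool.Agent.NPM.Sdp
set_option autoImplicit false

/-!
# Nmn.  Existence of near-minimisers (size 2).

Trivial decomposition `β = Unit`, `u = 1`, `P = unif A`: `hh 1 = ent (unif A) = log |A|` (`H_unif` of Ldc.E4), `hh 2 = ent (conv (unif A)
(unif A)) ≤ log |A + A| ≤ log (K |A|) = log K + log |A|` (`ent_conv`, `H_le_log_card`; a pair of positive probability has both entries in
`A`).  So `Phi ≤ log K`.
The set `R = {r | ∃ β' (fintype) u' P', Dec A u' P' ∧ r = Phi η A u' P'}` is nonempty and bounded below by `0` (`hh_le_two`,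
`hh_one_le`, `η ≥ 0`).  `exists_lt_of_csInf_lt`: some element `< sInf R + κ`; it is a near-minimiser, and its `Phi < sInf R + κ ≤
log K + κ`.
-/
namespace Pool.Agent.NPM
open Finset Pool.Agent.Ldc
open scoped Pointwise

variable {G : Type} [AddCommGroup G] [Fintype G] [DecidableEq G]

private theorem Nmn_unif_pos {α : Type} [DecidableEq α] (s : Finset α) {a : α} (h : 0 < unif s a) : a ∈ s := by
  unfold unif at h
  by_contra h2
  rw [if_neg h2] at h
  exact lt_irrefl _ h

private theorem Nmn_triv (A : Finset G) (hA : A.Nonempty) (K : ℝ)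
    (hK : ((A + A).card : ℝ) ≤ K * (A.card : ℝ)) (η : ℝ) :
    Dec A (fun _ : Unit => (1 : ℝ)) (fun _ => unif A) ∧
      Phi η A (fun _ : Unit => (1 : ℝ)) (fun _ => unif A) ≤ Real.log K := by
  have hU : IsP (unif A) := unif_isP A hA
  have hA0 : (0 : ℝ) < (A.card : ℝ) := by exact_mod_cast hA.card_pos
  refine ⟨⟨⟨fun _ => zero_le_one, by simp⟩, fun _ => hU, fun x => by simp⟩, ?_⟩
  have e1 : hh (fun _ : Unit => (1 : ℝ)) (fun _ => unif A) 1 = Real.log (A.card : ℝ) := by
    unfold hh
    rw [Av_one]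
    simp only [Finset.univ_unique, Finset.sum_const, Finset.card_singleton, one_smul, one_mul]
    rw [ent_eq_H]
    exact H_unif A hA (fun a => a) (fun _ _ _ _ h => h)
  have e2 : hh (fun _ : Unit => (1 : ℝ)) (fun _ => unif A) 2 ≤ Real.log ((A + A).card : ℝ) := by
    unfold hh
    rw [Av_two]
    simp only [Finset.univ_unique, Finset.sum_const, Finset.card_singleton, one_smul, one_mul]
    rw [ent_conv]
    refine H_le_log_card (pp_isP hU hU) _ (A + A) ?_
    rintro ⟨a, b⟩ hab
    unfold pp at hab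
    have ha0 := hU.1 a
    have hb0 := hU.1 b
    have ha : 0 < unif A a := by
      rcases ha0.lt_or_eq with h | h
      · exact h
      · simp only [← h, zero_mul, lt_irrefl] at hab
    have hb : 0 < unif A b := by
      rcases hb0.lt_or_eq with h | h
      · exact h
      · simp only [← h, mul_zero, lt_irrefl] at hab
    exact Finset.add_mem_add (Nmn_unif_pos A ha) (Nmn_unif_pos A hb)
  unfold Phi
  rw [e1]
  have hAA : (0 : ℝ) < ((A + A).card : ℝ) := by exact_mod_cast (hA.add hA).card_pos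
  have hKpos : 0 < K := by
    by_contra h
    have : K * (A.card : ℝ) ≤ 0 := mul_nonpos_of_nonpos_of_nonneg (not_lt.1 h) hA0.le
    linarith
  have h3 : Real.log ((A + A).card : ℝ) ≤ Real.log K + Real.log (A.card : ℝ) := by
    rw [← Real.log_mul hKpos.ne' hA0.ne']
    exact Real.log_le_log hAA hK
  linarith

theorem exists_nearMin (A : Finset G) (hA : A.Nonempty) (K : ℝ)
    (hK : ((A + A).card : ℝ) ≤ K * (A.card : ℝ)) (η κ : ℝ) (hη : 0 ≤ η) (hκ : 0 < κ) :
    ∃ (β : Type) (_ : Fintype β) (u : β → ℝ) (P : β → G → ℝ), NearMin η κ A u P ∧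
      Phi η A u P ≤ Real.log K + κ := by
  obtain ⟨ht1, ht2⟩ := Nmn_triv A hA K hK η
  set R : Set ℝ := {r | ∃ (β' : Type) (_ : Fintype β') (u' : β' → ℝ) (P' : β' → G → ℝ),
    Dec A u' P' ∧ r = Phi η A u' P'} with hR
  have hne : R.Nonempty := ⟨_, Unit, inferInstance, _, _, ht1, rfl⟩
  have hbdd : BddBelow R := by
    refine ⟨0, ?_⟩
    rintro r ⟨β', _, u', P', hD, rfl⟩
    unfold Phi
    have h1 := hh_le_two hD
    have h2 := hh_one_le hD hA
    have h3 : 0 ≤ η * (Real.log (A.card : ℝ) - hh u' P' 1) := mul_nonneg hη (by linarith)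
    linarith
  obtain ⟨r, ⟨β, iβ, u, P, hD, rfl⟩, hr⟩ := exists_lt_of_csInf_lt hne (show sInf R < sInf R + κ by linarith)
  refine ⟨β, iβ, u, P, ⟨hD, ?_⟩, ?_⟩
  · intro β' _ u' P' hD'
    have h4 : sInf R ≤ Phi η A u' P' := csInf_le hbdd ⟨β', inferInstance, u', P', hD', rfl⟩
    linarith
  · have h5 : sInf R ≤ Phi η A (fun _ : Unit => (1 : ℝ)) (fun _ => unif A) :=
      csInf_le hbdd ⟨Unit, inferInstance, _, _, ht1, rfl⟩
    linarith

end Pool.Agent.NPM
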