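import Pool.Agent.NPM.Inf
set_option autoImplicit false

/-!
# Sel.  Choice of `y` and `x₀` (size 2).

`Ψ y x₀ = Σ_{x heavy for y, G2 x₀ x ≤ 1/20} fl (P y) x`.  `Σ_y u y Σ_x₀ P y x₀ Ψ y x₀ ≥ 95/100 - Σ_y u y Σ_x₀ P y x₀ Σ_x P y x [G2 x₀ x > 1/20]
≥ 95/100 - 20 (1/400) = 9/10` (`fl p ≤ p`, `[G2 > 1/20] ≤ 20 G2`, `G2 ≥ 0` by `Av_nonneg`).  The weights `u y P y x₀` have sum `1`: there are `y`, `x₀`
with `u y > 0` and `Ψ y x₀ ≥ 9/10` (`Finset.exists_le_of_sum_le` style; or `exists_le_avg`, Ldc.E4, for the law `u y * P y x₀` on `β × G`).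
`A1 = {x : heavy, G2 x₀ x ≤ 1/20, fl (P y) x ≠ 0}`.  `fl (P y) x ≠ 0` gives `x ∈ A` (`Dec.supp`).  `fl (P y) x ≤ e^lam/|A|`: `9/10 ≤ |A1| e^lam/|A|`.
For `x ∈ A1`: `c ≤ cm F (fl (P y)) x = Σ_{w ∈ F} fl (P y) (x + w) ≤ #{w ∈ F : x + w ∈ A} e^lam/|A|`, and `w ↦ x + w` injects into
`A.filter (fun a => a - x ∈ F)`.
-/
namespace Pool.Agent.NPM
open Finset Pool.Agent.Ldc

variable {G : Type} [AddCommGroup G] [Fintype G] {β : Type} [Fintype β]

private theorem Sel_fl_nonneg {p : G → ℝ} (hp : ∀ x, 0 ≤ p x) (a lam : ℝ) (x : G) : 0 ≤ fl a lam p x := by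
  unfold fl
  split_ifs
  · exact hp x
  · exact le_rfl

private theorem Sel_fl_le {p : G → ℝ} (hp : ∀ x, 0 ≤ p x) (a lam : ℝ) (x : G) : fl a lam p x ≤ p x := by
  unfold fl
  split_ifs
  · exact le_rfl
  · exact hp x

private theorem Sel_fl_le' {p : G → ℝ} (a lam : ℝ) (ha : 0 < a) (x : G) :
    fl a lam p x ≤ Real.exp lam / a := by
  unfold fl
  split_ifs with h
  · rw [le_div_iff₀ ha]; linarith [mul_comm a (p x)]
  · positivity

open Classical in
theorem select {A : Finset G} {u : β → ℝ} {P : β → G → ℝ} (hD : Dec A u P) (hA : A.Nonempty)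
    (M : ℕ) (F : AddSubgroup G) (lam c : ℝ)
    (h1 : ∑ y, u y * ∑ x, P y x * ∑ x', P y x' * G2 u P M x x' ≤ 1 / 400)
    (h2 : 95 / 100 ≤ ∑ y, u y * ∑ x ∈ univ.filter (fun x => c ≤ cm F (fl (A.card : ℝ) lam (P y)) x),
        fl (A.card : ℝ) lam (P y) x) :
    ∃ (x₀ : G) (A1 : Finset G), A1 ⊆ A ∧ 9 / 10 * Real.exp (-lam) * (A.card : ℝ) ≤ (A1.card : ℝ) ∧
      (∀ x ∈ A1, G2 u P M x₀ x ≤ 1 / 20) ∧
      ∀ x ∈ A1, c * (A.card : ℝ) * Real.exp (-lam) ≤ ((A.filter (fun a => a - x ∈ F)).card : ℝ) := by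
  have hu := hD.hu
  have hP := hD.hP
  have hcard : (0 : ℝ) < (A.card : ℝ) := by exact_mod_cast hA.card_pos
  have hG2 : ∀ x x', 0 ≤ G2 u P M x x' := fun x x' => Av_nonneg hu hP M _ (fun μ _ => sq_nonneg _)
  -- the function Ψ
  set f : β → G → ℝ := fun y => fl (A.card : ℝ) lam (P y) with hf
  have f0 : ∀ y x, 0 ≤ f y x := fun y x => Sel_fl_nonneg (hP y).1 _ _ x
  have fP : ∀ y x, f y x ≤ P y x := fun y x => Sel_fl_le (hP y).1 _ _ x
  set Hv : β → Finset G := fun y => univ.filter (fun x => c ≤ cm F (fl (A.card : ℝ) lam (P y)) x) with hHv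
  -- pointwise bound
  have key : ∀ y x₀, ∑ x ∈ Hv y, f y x ≤
      (∑ x ∈ (Hv y).filter (fun x => G2 u P M x₀ x ≤ 1 / 20), f y x) + 20 * ∑ x, P y x * G2 u P M x₀ x := by
    intro y x₀
    rw [← Finset.sum_filter_add_sum_filter_not (Hv y) (fun x => G2 u P M x₀ x ≤ 1 / 20)]
    have : ∑ x ∈ (Hv y).filter (fun x => ¬ G2 u P M x₀ x ≤ 1 / 20), f y x ≤ 20 * ∑ x, P y x * G2 u P M x₀ x := by
      rw [Finset.mul_sum]
      calc _ ≤ ∑ x ∈ (Hv y).filter (fun x => ¬ G2 u P M x₀ x ≤ 1 / 20), 20 * (P y x * G2 u P M x₀ x) := by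
            apply Finset.sum_le_sum
            intro x hx
            have h3 := (Finset.mem_filter.1 hx).2
            push Not at h3
            nlinarith [fP y x, (hP y).1 x, mul_nonneg ((hP y).1 x) (by linarith : (0:ℝ) ≤ G2 u P M x₀ x - 1 / 20)]
        _ ≤ _ := by
            apply Finset.sum_le_sum_of_subset_of_nonneg (Finset.subset_univ _)
            intro x _ _
            have := mul_nonneg ((hP y).1 x) (hG2 x₀ x)
            positivity
    linarith
  -- average
  have hw : ∑ y, ∑ x₀, u y * P y x₀ = 1 := by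
    have : ∀ y, ∑ x₀, u y * P y x₀ = u y := by
      intro y; rw [← Finset.mul_sum, (hP y).2, mul_one]
    rw [Finset.sum_congr rfl (fun y _ => this y)]
    exact hu.2
  have hex : ∃ y x₀, 0 < u y ∧ 9 / 10 ≤ ∑ x ∈ (Hv y).filter (fun x => G2 u P M x₀ x ≤ 1 / 20), f y x := by
    by_contra hcon
    push Not at hcon
    have h3 : ∑ y, ∑ x₀, u y * P y x₀ * (∑ x ∈ (Hv y).filter (fun x => G2 u P M x₀ x ≤ 1 / 20), f y x - 9 / 10) < 0 := by
      -- find positive weight
      have hpos : ∃ y x₀, 0 < u y * P y x₀ := by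
        by_contra hn
        push Not at hn
        have : ∑ y, ∑ x₀, u y * P y x₀ ≤ 0 :=
          Finset.sum_nonpos fun y _ => Finset.sum_nonpos fun x₀ _ => hn y x₀
        linarith
      obtain ⟨y1, x1, h11⟩ := hpos
      have hle : ∀ y x₀, u y * P y x₀ * (∑ x ∈ (Hv y).filter (fun x => G2 u P M x₀ x ≤ 1 / 20), f y x - 9 / 10) ≤ 0 := by
        intro y x₀
        rcases (hu.1 y).lt_or_eq with h | h
        · have := hcon y x₀ h
          exact mul_nonpos_of_nonneg_of_nonpos (mul_nonneg (hu.1 y) ((hP y).1 x₀)) (by linarith)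
        · rw [← h]; simp
      have hu1 : 0 < u y1 := by
        rcases (hu.1 y1).lt_or_eq with h | h
        · exact h
        · rw [← h] at h11; simp at h11
      have hlt : u y1 * P y1 x1 * (∑ x ∈ (Hv y1).filter (fun x => G2 u P M x1 x ≤ 1 / 20), f y1 x - 9 / 10) < 0 :=
        mul_neg_of_pos_of_neg h11 (by linarith [hcon y1 x1 hu1])
      calc _ < ∑ y : β, ∑ x₀ : G, (0 : ℝ) := by
            apply Finset.sum_lt_sum
            · intro y _
              exact Finset.sum_le_sum fun x₀ _ => hle y x₀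
            · refine ⟨y1, Finset.mem_univ _, ?_⟩
              apply Finset.sum_lt_sum
              · intro x₀ _; exact hle y1 x₀
              · exact ⟨x1, Finset.mem_univ _, hlt⟩
        _ = 0 := by simp
    have h4 : ∑ y, ∑ x₀, u y * P y x₀ * (∑ x ∈ (Hv y).filter (fun x => G2 u P M x₀ x ≤ 1 / 20), f y x - 9 / 10)
        = ∑ y, ∑ x₀, u y * P y x₀ * (∑ x ∈ (Hv y).filter (fun x => G2 u P M x₀ x ≤ 1 / 20), f y x) - 9 / 10 := by
      have : ∀ y x₀, u y * P y x₀ * (∑ x ∈ (Hv y).filter (fun x => G2 u P M x₀ x ≤ 1 / 20), f y x - 9 / 10)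
          = u y * P y x₀ * (∑ x ∈ (Hv y).filter (fun x => G2 u P M x₀ x ≤ 1 / 20), f y x) - 9 / 10 * (u y * P y x₀) := by
        intro y x₀; ring
      simp only [this, Finset.sum_sub_distrib, ← Finset.mul_sum]
      have h5 : ∑ i, u i * ∑ i_1, P i i_1 = 1 := by
        rw [← hw]
        exact Finset.sum_congr rfl fun y _ => by rw [Finset.mul_sum]
      rw [h5, mul_one]
    have h6 : ∑ y, ∑ x₀, u y * P y x₀ * (∑ x ∈ Hv y, f y x) ≤
        ∑ y, ∑ x₀, u y * P y x₀ * (∑ x ∈ (Hv y).filter (fun x => G2 u P M x₀ x ≤ 1 / 20), f y x)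
          + 20 * ∑ y, ∑ x₀, u y * P y x₀ * ∑ x, P y x * G2 u P M x₀ x := by
      rw [Finset.mul_sum, ← Finset.sum_add_distrib]
      apply Finset.sum_le_sum
      intro y _
      rw [Finset.mul_sum, ← Finset.sum_add_distrib]
      apply Finset.sum_le_sum
      intro x₀ _
      have hw0 : 0 ≤ u y * P y x₀ := mul_nonneg (hu.1 y) ((hP y).1 x₀)
      have := mul_le_mul_of_nonneg_left (key y x₀) hw0
      linarith
    have h7 : ∑ y, ∑ x₀, u y * P y x₀ * (∑ x ∈ Hv y, f y x) = ∑ y, u y * ∑ x ∈ Hv y, f y x := by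
      apply Finset.sum_congr rfl
      intro y _
      rw [← Finset.sum_mul, ← Finset.mul_sum, (hP y).2, mul_one]
    have h8 : ∑ y, ∑ x₀, u y * P y x₀ * ∑ x, P y x * G2 u P M x₀ x =
        ∑ y, u y * ∑ x, P y x * ∑ x', P y x' * G2 u P M x x' := by
      apply Finset.sum_congr rfl
      intro y _
      rw [Finset.mul_sum]
      exact Finset.sum_congr rfl fun x _ => by ring
    rw [h7, h8] at h6
    rw [h4] at h3
    have h9 : 95 / 100 ≤ ∑ y, u y * ∑ x ∈ Hv y, f y x := h2
    linarith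
  obtain ⟨y, x₀, huy, hΨ⟩ := hex
  set S := (Hv y).filter (fun x => G2 u P M x₀ x ≤ 1 / 20) with hS
  refine ⟨x₀, S.filter (fun x => f y x ≠ 0), ?_, ?_, ?_, ?_⟩
  · intro x hx
    have h3 := (Finset.mem_filter.1 hx).2
    by_contra hxA
    have h4 : P y x = 0 := by
      have h5 := hD.mix x
      unfold unif at h5
      rw [if_neg hxA] at h5
      have h6 := (Finset.sum_eq_zero_iff_of_nonneg (fun i _ => mul_nonneg (hu.1 i) ((hP i).1 x))).1 h5 y (Finset.mem_univ _)
      rcases mul_eq_zero.1 h6 with h | h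
      · exact absurd h huy.ne'
      · exact h
    have h5 := fP y x
    have h6 := f0 y x
    exact h3 (by linarith)
  · have h3 : ∑ x ∈ S, f y x = ∑ x ∈ S.filter (fun x => f y x ≠ 0), f y x := by
      rw [Finset.sum_filter_ne_zero]
    have h4 : ∑ x ∈ S.filter (fun x => f y x ≠ 0), f y x ≤ ((S.filter (fun x => f y x ≠ 0)).card : ℝ) * (Real.exp lam / (A.card : ℝ)) := by
      have := Finset.sum_le_card_nsmul (S.filter (fun x => f y x ≠ 0)) (f y) (Real.exp lam / (A.card : ℝ))
        (fun x _ => Sel_fl_le' _ _ hcard x)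
      simpa [nsmul_eq_mul] using this
    have h5 : 9 / 10 ≤ ((S.filter (fun x => f y x ≠ 0)).card : ℝ) * (Real.exp lam / (A.card : ℝ)) := by
      rw [← h3] at h4; linarith
    have h6 : 0 < Real.exp lam := Real.exp_pos _
    rw [Real.exp_neg]
    calc 9 / 10 * (Real.exp lam)⁻¹ * (A.card : ℝ)
        ≤ (((S.filter (fun x => f y x ≠ 0)).card : ℝ) * (Real.exp lam / (A.card : ℝ))) * (Real.exp lam)⁻¹ * (A.card : ℝ) := by
          gcongr
      _ = ((S.filter (fun x => f y x ≠ 0)).card : ℝ) := by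
          field_simp
  · intro x hx
    exact (Finset.mem_filter.1 (Finset.mem_filter.1 hx).1).2
  · intro x hx
    have h3 : c ≤ cm F (f y) x := by
      have := (Finset.mem_filter.1 (Finset.mem_filter.1 hx).1).1
      exact (Finset.mem_filter.1 this).2
    have hsupp : ∀ z, f y z ≠ 0 → z ∈ A := by
      intro z h3
      by_contra hxA
      have h4 : P y z = 0 := by
        have h5 := hD.mix z
        unfold unif at h5
        rw [if_neg hxA] at h5
        have h6 := (Finset.sum_eq_zero_iff_of_nonneg (fun i _ => mul_nonneg (hu.1 i) ((hP i).1 z))).1 h5 y (Finset.mem_univ _)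
        rcases mul_eq_zero.1 h6 with h | h
        · exact absurd h huy.ne'
        · exact h
      have h5 := fP y z
      have h6 := f0 y z
      exact h3 (by linarith)
    have h4 : cm F (f y) x ≤ ((A.filter (fun a => a - x ∈ F)).card : ℝ) * (Real.exp lam / (A.card : ℝ)) := by
      unfold cm
      have h5 : ∑ w ∈ univ.filter (fun w => w ∈ F), f y (x + w) =
          ∑ a ∈ univ.filter (fun a => a - x ∈ F), f y a := by
        apply Finset.sum_nbij' (fun w => x + w) (fun a => a - x)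
        · intro w hw
          simp only [Finset.mem_filter, Finset.mem_univ, true_and] at hw ⊢
          simpa using hw
        · intro a ha
          simp only [Finset.mem_filter, Finset.mem_univ, true_and] at ha ⊢
          exact ha
        · intro w _; simp
        · intro a _; simp
        · intro w _; rfl
      rw [h5]
      have h6 : ∑ a ∈ univ.filter (fun a => a - x ∈ F), f y a = ∑ a ∈ A.filter (fun a => a - x ∈ F), f y a := by
        symm
        apply Finset.sum_subset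
        · intro a ha
          simp only [Finset.mem_filter, Finset.mem_univ, true_and] at ha ⊢
          exact ha.2
        · intro a ha hna
          simp only [Finset.mem_filter, Finset.mem_univ, true_and] at ha hna
          by_contra h
          exact hna ⟨hsupp a h, ha⟩
      rw [h6]
      have := Finset.sum_le_card_nsmul (A.filter (fun a => a - x ∈ F)) (f y) (Real.exp lam / (A.card : ℝ))
        (fun x _ => Sel_fl_le' _ _ hcard x)
      simpa [nsmul_eq_mul] using this
    have h6 : 0 < Real.exp lam := Real.exp_pos _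
    rw [Real.exp_neg]
    calc c * (A.card : ℝ) * (Real.exp lam)⁻¹
        ≤ (((A.filter (fun a => a - x ∈ F)).card : ℝ) * (Real.exp lam / (A.card : ℝ))) * (A.card : ℝ) * (Real.exp lam)⁻¹ := by
          gcongr
          exact h3.trans h4
      _ = ((A.filter (fun a => a - x ∈ F)).card : ℝ) := by
          field_simp

end Pool.Agent.NPM
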