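import Mathlib
set_option autoImplicit false

/-!
# Seq.  A sequence lemma (size 2).

`δ m = h (m+1) - h m` is nonincreasing by `h1`.  `D s = δ (2^(s+1) - 1)`.
`h2` for `n = 2^(s+1) - 1`: `δ (2n) + δ (2n+1) ≤ (1+η) δ n + κ` and `2 δ (2n+1) ≤ δ(2n) + δ(2n+1)`, `2n + 1 = 2^(s+2) - 1`: so
`D (s+1) ≤ (1+η)/2 * D s + κ/2`.  By induction `D s ≤ ((1+η)/2)^s k + 2 κ` (`(1+η)/2 ≤ 3/4`, `(3/4) 2κ + κ/2 = 2κ`).
`h (2^(s+2) - 1) - h (2^(s+1) - 1) ≤ 2^(s+1) D s` (`2^(s+1)` increments, each `≤ D s`).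
Second claim by induction: `2 k (1+η)^s/η + 2 κ 2^(s+1) + 2^(s+1) (((1+η)/2)^s k + 2κ) ≤ 2 k (1+η)^(s+1)/η + 2 κ 2^(s+2)`, since
`2^(s+1) ((1+η)/2)^s = 2 (1+η)^s` and `(1+η)^s/η + (1+η)^s = (1+η)^(s+1)/η`.
-/
namespace Pool.Agent.NPM

private theorem Seq_anti (h : ℕ → ℝ) (h1 : ∀ m, h (m + 2) + h m ≤ 2 * h (m + 1)) (a : ℕ) :
    ∀ j, h (a + j + 1) - h (a + j) ≤ h (a + 1) - h a := by
  intro j
  induction j with
  | zero => simp
  | succ j ih =>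
    have := h1 (a + j)
    have e : a + (j + 1) = a + j + 1 := by ring
    rw [e]
    have e2 : a + j + 1 + 1 = a + j + 2 := by ring
    rw [e2]
    linarith

private theorem Seq_sum (h : ℕ → ℝ) (h1 : ∀ m, h (m + 2) + h m ≤ 2 * h (m + 1)) (a : ℕ) :
    ∀ j : ℕ, h (a + j) ≤ h a + j * (h (a + 1) - h a) := by
  intro j
  induction j with
  | zero => simp
  | succ j ih =>
    have := Seq_anti h h1 a j
    have e : a + (j + 1) = a + j + 1 := by ring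
    rw [e]
    push_cast
    linarith

theorem seq_growth (h : ℕ → ℝ) (k η κ : ℝ) (hη : 0 < η) (hη2 : η ≤ 1 / 2) (hκ : 0 ≤ κ) (hk : 0 ≤ k)
    (h1 : ∀ m, h (m + 2) + h m ≤ 2 * h (m + 1))
    (h2 : ∀ n, h (2 * n + 2) - h (2 * n) ≤ (1 + η) * (h (n + 1) - h n) + κ)
    (h3 : h 2 - h 1 ≤ k) (s : ℕ) :
    h (2 ^ (s + 1)) - h (2 ^ (s + 1) - 1) ≤ ((1 + η) / 2) ^ s * k + 2 * κ ∧
    h (2 ^ (s + 1) - 1) ≤ h 1 + 2 * k * (1 + η) ^ s / η + 2 * κ * 2 ^ (s + 1) := by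
  induction s with
  | zero =>
    constructor
    · norm_num; linarith
    · have : 0 ≤ 2 * k / η := by positivity
      norm_num; linarith
  | succ s ih =>
    obtain ⟨n, hn⟩ : ∃ n : ℕ, 2 ^ (s + 1) = n + 1 := ⟨2 ^ (s + 1) - 1, by have := Nat.one_le_two_pow (n := s + 1); omega⟩
    have hn' : 2 ^ (s + 1) - 1 = n := by omega
    have hn2 : 2 ^ (s + 1 + 1) = 2 * n + 2 := by rw [pow_succ, hn]; ring
    have hn2' : 2 ^ (s + 1 + 1) - 1 = 2 * n + 1 := by omega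
    rw [hn', hn] at ih
    rw [hn2', hn2]
    obtain ⟨ih1, ih2⟩ := ih
    have a1 := h2 n
    have a2 := h1 (2 * n)
    constructor
    · have e : ((1 + η) / 2) ^ (s + 1) * k = (1 + η) / 2 * (((1 + η) / 2) ^ s * k) := by
        rw [pow_succ]; ring
      rw [e]
      have b1 : (1 + η) * (h (n + 1) - h n) ≤ (1 + η) * (((1 + η) / 2) ^ s * k + 2 * κ) :=
        mul_le_mul_of_nonneg_left ih1 (by linarith)
      have b2 : η * κ ≤ 1 / 2 * κ := mul_le_mul_of_nonneg_right hη2 hκ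
      nlinarith
    · have c1 := Seq_sum h h1 n (n + 1)
      have e : n + (n + 1) = 2 * n + 1 := by ring
      rw [e] at c1
      have hc : ((n + 1 : ℕ) : ℝ) = 2 ^ (s + 1) := by rw [← hn]; push_cast; rfl
      rw [hc] at c1
      have d1 : (2 : ℝ) ^ (s + 1) * (h (n + 1) - h n) ≤ 2 ^ (s + 1) * (((1 + η) / 2) ^ s * k + 2 * κ) :=
        mul_le_mul_of_nonneg_left ih1 (by positivity)
      have d2 : (2 : ℝ) ^ (s + 1) * (((1 + η) / 2) ^ s * k) = 2 * k * (1 + η) ^ s := by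
        rw [div_pow, pow_succ]; field_simp
      have d3 : 2 * k * (1 + η) ^ (s + 1) / η = 2 * k * (1 + η) ^ s / η + 2 * k * (1 + η) ^ s := by
        rw [pow_succ]; field_simp
      have d4 : (2 : ℝ) ^ (s + 1 + 1) = 2 * 2 ^ (s + 1) := by rw [pow_succ]; ring
      rw [d3, d4]
      nlinarith

end Pool.Agent.NPM
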