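import Pool.Agent.NPM.Rep
set_option autoImplicit false

/-!
# AvL.  Rules for `Av` (size 2).

All from `Av_rep` (write `Av u P m F = Σ_i v_i F(Q_i)`), except `Av_add_index` (induction on `m`, `dl_conv`,
`conv_assoc`) and `Av_succ`, `Av_zero` (definition).
-/
namespace Pool.Agent.NPM
open Finset Pool.Agent.Ldc

variable {G : Type} [AddCommGroup G] [Fintype G] {β : Type} [Fintype β] {u : β → ℝ} {P : β → G → ℝ}

theorem Av_zero (u : β → ℝ) (P : β → G → ℝ) (F : (G → ℝ) → ℝ) : Av u P 0 F = F dl := rfl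

theorem Av_succ (u : β → ℝ) (P : β → G → ℝ) (m : ℕ) (F : (G → ℝ) → ℝ) :
    Av u P (m + 1) F = ∑ y, u y * Av u P m (fun μ => F (conv (P y) μ)) := rfl

theorem Av_one (u : β → ℝ) (P : β → G → ℝ) (F : (G → ℝ) → ℝ) :
    Av u P 1 F = ∑ y, u y * F (P y) := by
  rw [show (1 : ℕ) = 0 + 1 from rfl, Av_succ]
  refine Finset.sum_congr rfl fun y _ => ?_
  rw [Av_zero, conv_dl]

theorem Av_two (u : β → ℝ) (P : β → G → ℝ) (F : (G → ℝ) → ℝ) :
    Av u P 2 F = ∑ y, u y * ∑ y', u y' * F (conv (P y) (P y')) := by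
  rw [show (2 : ℕ) = 1 + 1 from rfl, Av_succ]
  refine Finset.sum_congr rfl fun y _ => ?_
  rw [Av_one]

theorem Av_mono (hu : IsP u) (hP : ∀ y, IsP (P y)) (m : ℕ) (F F' : (G → ℝ) → ℝ)
    (h : ∀ μ, IsP μ → F μ ≤ F' μ) : Av u P m F ≤ Av u P m F' := by
  obtain ⟨ι, _, v, Q, hv, hQ, hA⟩ := Av_rep hu hP m
  rw [hA, hA]
  exact Finset.sum_le_sum fun i _ => mul_le_mul_of_nonneg_left (h (Q i) (hQ i)) (hv.1 i)

theorem Av_congr (hu : IsP u) (hP : ∀ y, IsP (P y)) (m : ℕ) (F F' : (G → ℝ) → ℝ)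
    (h : ∀ μ, IsP μ → F μ = F' μ) : Av u P m F = Av u P m F' := by
  obtain ⟨ι, _, v, Q, hv, hQ, hA⟩ := Av_rep hu hP m
  rw [hA, hA]
  exact Finset.sum_congr rfl fun i _ => by rw [h (Q i) (hQ i)]

theorem Av_add (hu : IsP u) (hP : ∀ y, IsP (P y)) (m : ℕ) (F F' : (G → ℝ) → ℝ) :
    Av u P m (fun μ => F μ + F' μ) = Av u P m F + Av u P m F' := by
  obtain ⟨ι, _, v, Q, hv, hQ, hA⟩ := Av_rep hu hP m
  rw [hA, hA, hA, ← Finset.sum_add_distrib]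
  exact Finset.sum_congr rfl fun i _ => by ring

theorem Av_sub (hu : IsP u) (hP : ∀ y, IsP (P y)) (m : ℕ) (F F' : (G → ℝ) → ℝ) :
    Av u P m (fun μ => F μ - F' μ) = Av u P m F - Av u P m F' := by
  obtain ⟨ι, _, v, Q, hv, hQ, hA⟩ := Av_rep hu hP m
  rw [hA, hA, hA, ← Finset.sum_sub_distrib]
  exact Finset.sum_congr rfl fun i _ => by ring

theorem Av_mul (hu : IsP u) (hP : ∀ y, IsP (P y)) (m : ℕ) (c : ℝ) (F : (G → ℝ) → ℝ) :
    Av u P m (fun μ => c * F μ) = c * Av u P m F := by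
  obtain ⟨ι, _, v, Q, hv, hQ, hA⟩ := Av_rep hu hP m
  rw [hA, hA, Finset.mul_sum]
  exact Finset.sum_congr rfl fun i _ => by ring

theorem Av_const (hu : IsP u) (hP : ∀ y, IsP (P y)) (m : ℕ) (c : ℝ) : Av u P m (fun _ => c) = c := by
  obtain ⟨ι, _, v, Q, hv, hQ, hA⟩ := Av_rep hu hP m
  rw [hA, ← Finset.sum_mul, hv.2, one_mul]

theorem Av_sum (hu : IsP u) (hP : ∀ y, IsP (P y)) (m : ℕ) {ι : Type} (s : Finset ι)
    (F : ι → (G → ℝ) → ℝ) : Av u P m (fun μ => ∑ i ∈ s, F i μ) = ∑ i ∈ s, Av u P m (F i) := by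
  obtain ⟨ι', _, v, Q, hv, hQ, hA⟩ := Av_rep hu hP m
  rw [hA]
  simp only [hA, Finset.mul_sum]
  exact Finset.sum_comm

theorem Av_nonneg (hu : IsP u) (hP : ∀ y, IsP (P y)) (m : ℕ) (F : (G → ℝ) → ℝ)
    (h : ∀ μ, IsP μ → 0 ≤ F μ) : 0 ≤ Av u P m F := by
  obtain ⟨ι, _, v, Q, hv, hQ, hA⟩ := Av_rep hu hP m
  rw [hA]
  exact Finset.sum_nonneg fun i _ => mul_nonneg (hv.1 i) (h (Q i) (hQ i))

theorem Av_add_index (u : β → ℝ) (P : β → G → ℝ) (m n : ℕ) (F : (G → ℝ) → ℝ) :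
    Av u P (m + n) F = Av u P m (fun μ => Av u P n (fun ν => F (conv μ ν))) := by
  induction m generalizing F with
  | zero =>
    rw [Nat.zero_add, Av_zero]
    simp only [dl_conv]
  | succ m ih =>
    rw [show m + 1 + n = (m + n) + 1 by omega, Av_succ, Av_succ]
    refine Finset.sum_congr rfl fun y _ => ?_
    rw [ih]
    simp only [conv_assoc]

end Pool.Agent.NPM
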