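import Pool.Agent.NPM.Smo
import Pool.Agent.NPM.AvL
set_option autoImplicit false

/-!
# SmA.  Averaged smoothing (size 1).

`smo_two` for `p = P y` and each `μ`, `Av_mono`, `Av_sum`, `Av_mul`, `Av_sub`:
`Σ_x Σ_x' P y x P y x' G2 = Av M (fun μ => Σ_x P y x Σ_x' P y x' (l1 x x' μ)²) ≤ 16 Av M (fun μ => ent (conv (P y) μ) - ent μ)`;
sum over `y` with weights `u y` (`Σ u = 1`), `Av_succ`.
-/
namespace Pool.Agent.NPM
open Finset Pool.Agent.Ldc

variable {G : Type} [AddCommGroup G] [Fintype G] {β : Type} [Fintype β]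

theorem smo_avg {u : β → ℝ} {P : β → G → ℝ} (hu : IsP u) (hP : ∀ y, IsP (P y)) (M : ℕ) :
    ∑ y, u y * ∑ x, P y x * ∑ x', P y x' * G2 u P M x x' ≤ 16 * (hh u P (M + 1) - hh u P M) := by
  have h1 : ∀ y, ∑ x, P y x * ∑ x', P y x' * G2 u P M x x' ≤
      16 * (Av u P M (fun μ => ent (conv (P y) μ)) - hh u P M) := by
    intro y
    have e1 : ∑ x, P y x * ∑ x', P y x' * G2 u P M x x' =
        Av u P M (fun μ => ∑ x, P y x * ∑ x', P y x' * (l1 x x' μ) ^ 2) := by
      rw [Av_sum hu hP M univ (fun x μ => P y x * ∑ x', P y x' * (l1 x x' μ) ^ 2)]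
      refine Finset.sum_congr rfl (fun x _ => ?_)
      rw [Av_mul hu hP M (P y x) (fun μ => ∑ x', P y x' * (l1 x x' μ) ^ 2),
        Av_sum hu hP M univ (fun x' μ => P y x' * (l1 x x' μ) ^ 2)]
      congr 1
      refine Finset.sum_congr rfl (fun x' _ => ?_)
      rw [Av_mul hu hP M (P y x') (fun μ => (l1 x x' μ) ^ 2)]
      rfl
    have e2 : Av u P M (fun μ => 16 * (ent (conv (P y) μ) - ent μ)) =
        16 * (Av u P M (fun μ => ent (conv (P y) μ)) - hh u P M) := by
      rw [Av_mul hu hP M 16 (fun μ => ent (conv (P y) μ) - ent μ),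
        Av_sub hu hP M (fun μ => ent (conv (P y) μ)) ent]
      rfl
    rw [e1, ← e2]
    exact Av_mono hu hP M _ _ (fun μ hμ => smo_two (hP y) hμ)
  have h2 : 16 * (hh u P (M + 1) - hh u P M) =
      ∑ y, u y * (16 * (Av u P M (fun μ => ent (conv (P y) μ)) - hh u P M)) := by
    have e3 : hh u P (M + 1) = ∑ y, u y * Av u P M (fun μ => ent (conv (P y) μ)) := rfl
    have e4 : hh u P M = ∑ y, u y * hh u P M := by
      rw [← Finset.sum_mul, hu.2, one_mul]
    have e5 : ∑ y, u y * (16 * (Av u P M (fun μ => ent (conv (P y) μ)) - hh u P M)) =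
        16 * (∑ y, u y * Av u P M (fun μ => ent (conv (P y) μ)) - ∑ y, u y * hh u P M) := by
      rw [← Finset.sum_sub_distrib, Finset.mul_sum]
      refine Finset.sum_congr rfl (fun y _ => ?_)
      ring
    rw [e5, e3, ← e4]
  rw [h2]
  exact Finset.sum_le_sum (fun y _ => mul_le_mul_of_nonneg_left (h1 y) (hu.1 y))

end Pool.Agent.NPM
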