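import Pool.Agent.NPM.Bas
set_option autoImplicit false

/-!
# Kvm.  Kaimanovich-Vershik-Madiman for laws (size 2).

`ent_conv_ge`: `H_le_add'` (Ldc.E5) on the product space `(G × G, pp p q)` with `indep_pp` (Ldc.E3), `H_pp_snd`,
`ent_eq_H`.
`kvm`: `KVM` of Ldc.E5 on `(G × (G × G), pp p (pp r q))` with `X = x.1`, `Y = x.2.1` (law `r`), `Z = x.2.2` (law `q`):
`H(X+Y+Z) + H(Y) ≤ H(X+Y) + H(Y+Z)`.  Laws of the sums: `H_law`, `H_eq_ent`, `pr_pp_fst`, `pr_pp_snd`, `conv_eq_pr`,
or directly: for `f : α → β`, `H (pp p q) (fun x => φ (x.1, g x.2)) = H (pp p (pr q g)) φ` (`H_fun_of_indep`).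
`Indep p X (Y, Z)` is `indep_pp`; `Indep Z (X, Y)`: use `indep_pp` on `pp (pp p r) q` if this is more convenient.
-/
namespace Pool.Agent.NPM
open Finset Pool.Agent.Ldc

variable {G : Type} [AddCommGroup G] [Fintype G]

private theorem kvm_pr_inj {Ω α : Type} [Fintype Ω] (P : Ω → ℝ) (f : Ω → α)
    (hf : Function.Injective f) (ω : Ω) : pr P f (f ω) = P ω := by
  classical
  have h1 : pr P f (f ω) = ∑ x, if f x = f ω then P x else 0 := by
    unfold pr pe
    refine Finset.sum_congr rfl fun x _ => ?_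
    by_cases h : f x = f ω
    · rw [if_pos h]
    · rw [if_neg h]
  rw [h1, Finset.sum_eq_single ω]
  · rw [if_pos rfl]
  · intro x _ hx
    rw [if_neg (fun h => hx (hf h))]
  · intro h
    exact absurd (mem_univ ω) h

theorem ent_conv_ge {p q : G → ℝ} (hp : IsP p) (hq : IsP q) : ent q ≤ ent (conv p q) := by
  have h1 := H_le_add' (pp_isP hp hq) (fun x : G × G => x.1) (fun x : G × G => x.2)
    (indep_pp hp hq (fun x : G => x) (fun x : G => x))
  have h2 : H (pp p q) (fun x : G × G => x.2) = ent q := by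
    rw [ent_eq_H]
    exact H_pp_snd hp (fun x : G => x)
  rw [h2] at h1
  rw [ent_conv]
  exact h1

theorem kvm {p q r : G → ℝ} (hp : IsP p) (hq : IsP q) (hr : IsP r) :
    ent (conv p (conv q r)) + ent r ≤ ent (conv p r) + ent (conv q r) := by
  have hrq : IsP (pp r q) := pp_isP hr hq
  have hP : IsP (pp p (pp r q)) := pp_isP hp hrq
  have prX : pr (pp p (pp r q)) (fun x : G × (G × G) => x.1) = p := by
    rw [show (fun x : G × (G × G) => x.1) = (fun x => (fun y : G => y) x.1) from rfl,
      pr_pp_fst hrq (fun y : G => y), pr_id]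
  have prY : pr (pp p (pp r q)) (fun x : G × (G × G) => x.2.1) = r := by
    rw [show (fun x : G × (G × G) => x.2.1) = (fun x => (fun y : G × G => y.1) x.2) from rfl,
      pr_pp_snd hp (fun y : G × G => y.1),
      show (fun y : G × G => y.1) = (fun y => (fun z : G => z) y.1) from rfl,
      pr_pp_fst hq (fun z : G => z), pr_id]
  have prZ : pr (pp p (pp r q)) (fun x : G × (G × G) => x.2.2) = q := by
    rw [show (fun x : G × (G × G) => x.2.2) = (fun x => (fun y : G × G => y.2) x.2) from rfl,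
      pr_pp_snd hp (fun y : G × G => y.2),
      show (fun y : G × G => y.2) = (fun y => (fun z : G => z) y.2) from rfl,
      pr_pp_snd hr (fun z : G => z), pr_id]
  have prYZ : pr (pp p (pp r q)) (fun x : G × (G × G) => x.2.1 + x.2.2) = conv r q := by
    rw [show (fun x : G × (G × G) => x.2.1 + x.2.2)
        = (fun x => (fun y : G × G => y.1 + y.2) x.2) from rfl,
      pr_pp_snd hp (fun y : G × G => y.1 + y.2), conv_eq_pr]
  have iXY : Indep (pp p (pp r q)) (fun x : G × (G × G) => x.1) (fun x => x.2.1) :=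
    indep_pp hp hrq (fun x : G => x) (fun y : G × G => y.1)
  have iXYZ : Indep (pp p (pp r q)) (fun x : G × (G × G) => x.1) (fun x => (x.2.1, x.2.2)) :=
    indep_pp hp hrq (fun x : G => x) (fun y : G × G => (y.1, y.2))
  have iXS : Indep (pp p (pp r q)) (fun x : G × (G × G) => x.1) (fun x => x.2.1 + x.2.2) :=
    indep_pp hp hrq (fun x : G => x) (fun y : G × G => y.1 + y.2)
  have iZ : Indep (pp p (pp r q)) (fun x : G × (G × G) => x.2.2) (fun x => (x.1, x.2.1)) := by
    intro a bc
    obtain ⟨b, c⟩ := bc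
    have h1 := kvm_pr_inj (pp p (pp r q)) (fun x : G × (G × G) => (x.2.2, (x.1, x.2.1)))
      (by
        rintro ⟨x, y, z⟩ ⟨x', y', z'⟩ h
        simp only [Prod.mk.injEq] at h
        obtain ⟨h3, h4, h5⟩ := h
        rw [h3, h4, h5]) (b, (c, a))
    have h2 := iXY b c
    rw [prX, prY] at h2
    rw [prZ, h2]
    refine h1.trans ?_
    unfold pp
    simp only
    ring
  have e := KVM hP (fun x : G × (G × G) => x.1) (fun x => x.2.1) (fun x => x.2.2) iXYZ iZ
  have e1 : H (pp p (pp r q)) (fun x : G × (G × G) => x.1 + x.2.1 + x.2.2)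
      = ent (conv p (conv q r)) := by
    have h1 := H_fun_of_indep iXS (fun y : G × G => y.1 + y.2)
    rw [prX, prYZ, ← ent_conv, conv_comm r q] at h1
    rw [← h1]
    congr 1
    funext x
    exact add_assoc _ _ _
  have e2 : H (pp p (pp r q)) (fun x : G × (G × G) => x.2.1) = ent r := by
    rw [H_eq_ent, prY]
  have e3 : H (pp p (pp r q)) (fun x : G × (G × G) => x.1 + x.2.1) = ent (conv p r) := by
    have h1 := H_fun_of_indep iXY (fun y : G × G => y.1 + y.2)
    rw [prX, prY, ← ent_conv] at h1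
    exact h1
  have e4 : H (pp p (pp r q)) (fun x : G × (G × G) => x.2.1 + x.2.2) = ent (conv q r) := by
    rw [H_eq_ent, prYZ, conv_comm r q]
  rw [e1, e2, e3, e4] at e
  exact e

end Pool.Agent.NPM
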