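import Pool.Agent.NPM.Bas
set_option autoImplicit false

/-!
# Jen.  Convexity (size 1).

`φ v = max (v log v) 0` is convex on `[0, ∞)` (`Real.convexOn_mul_log`, `ConvexOn.sup`, `convexOn_const`).  For `v ≥ 0`, `a > 0`:
`a * (v * max (log (a v)) 0) = φ (a v)`.  `a μ z = Σ_x ν x (a p (z - x))` with `μ = conv p ν` (`conv_comm`), weights `ν x` of sum `1`:
`ConvexOn.map_sum_le`: `φ (a μ z) ≤ Σ_x ν x φ (a p (z - x))`.  Sum over `z`, translate (`Σ_z φ (a p (z - x)) = Σ_z φ (a p z)`), `Σ ν = 1`.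
-/
namespace Pool.Agent.NPM
open Finset Pool.Agent.Ldc

variable {G : Type} [AddCommGroup G] [Fintype G]

private noncomputable def JenPhi (v : ℝ) : ℝ := max (v * Real.log v) 0

private lemma JenPhi_convex : ConvexOn ℝ (Set.Ici (0 : ℝ)) JenPhi :=
  Real.convexOn_mul_log.sup (convexOn_const (0 : ℝ) (convex_Ici (0 : ℝ)))

private lemma JenPhi_eq {a v : ℝ} (ha : 0 < a) (hv : 0 ≤ v) :
    a * (v * max (Real.log (a * v)) 0) = JenPhi (a * v) := by
  have hav : 0 ≤ a * v := mul_nonneg ha.le hv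
  rw [← mul_assoc, mul_max_of_nonneg _ _ hav, mul_zero]
  rfl

private lemma Jen_VV {a : ℝ} (ha : 0 < a) {μ : G → ℝ} (hμ : ∀ x, 0 ≤ μ x) :
    a * VV a μ = ∑ z, JenPhi (a * μ z) := by
  unfold VV
  rw [mul_sum]
  exact sum_congr rfl fun z _ => JenPhi_eq ha (hμ z)

private lemma Jen_point {p ν : G → ℝ} (hp : IsP p) (hν : IsP ν) (a : ℝ) (ha : 0 < a) (z : G) :
    JenPhi (a * conv p ν z) ≤ ∑ x, ν x * JenPhi (a * p (z - x)) := by
  have h := JenPhi_convex.map_sum_le (t := (Finset.univ : Finset G)) (w := ν)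
    (p := fun x => a * p (z - x)) (fun x _ => hν.1 x) hν.2
    (fun x _ => mul_nonneg ha.le (hp.1 _))
  simp only [smul_eq_mul] at h
  have e : a * conv p ν z = ∑ x, ν x * (a * p (z - x)) := by
    rw [conv_comm]
    unfold conv
    rw [mul_sum]
    exact sum_congr rfl fun x _ => by ring
  rw [e]
  exact h

theorem VV_conv_le {p ν : G → ℝ} (hp : IsP p) (hν : IsP ν) (a : ℝ) (ha : 0 < a) :
    VV a (conv p ν) ≤ VV a p := by
  refine le_of_mul_le_mul_left ?_ ha
  rw [Jen_VV ha (conv_isP hp hν).1, Jen_VV ha hp.1]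
  calc ∑ z, JenPhi (a * conv p ν z)
      ≤ ∑ z, ∑ x, ν x * JenPhi (a * p (z - x)) :=
        sum_le_sum fun z _ => Jen_point hp hν a ha z
    _ = ∑ x, ν x * ∑ z, JenPhi (a * p (z - x)) := by
        rw [sum_comm]
        exact sum_congr rfl fun x _ => by rw [mul_sum]
    _ = ∑ x, ν x * ∑ z, JenPhi (a * p z) := by
        refine sum_congr rfl fun x _ => ?_
        congr 1
        exact Equiv.sum_comp (Equiv.subRight x) (fun z => JenPhi (a * p z))
    _ = ∑ z, JenPhi (a * p z) := by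
        rw [← sum_mul, hν.2, one_mul]

end Pool.Agent.NPM
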