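import Pool.Agent.NPM.Sdp
import Pool.Agent.NPM.Jen
set_option autoImplicit false

/-!
# Inf.  Information density (size 2).

`WW_eq`: for `IsP μ`, `a > 0`: `max (-L) 0 = -L + max L 0`, `L = log (a μ z) = log a + log μ z` when `μ z ≠ 0`:
`WW a μ = ent μ - log a + VV a μ`.
`VV_avg`: `a = |A|`.  For `u y > 0`: `VV a (P y) = WW a (P y) - ent (P y) + log a` (`WW_eq`), and `WW a (P y) ≤ 1`: for `x ∉ A` the term is
`0` (`Dec.supp`); for `x ∈ A` and `v = P y x > 0`: `-log (a v) = log (1/(a v)) ≤ 1/(a v)`, so `v max (-log (a v)) 0 ≤ 1/a`; `|A|` terms.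
Average with `u y` (`Av_one`: `hh 1 = Σ u ent P_y`).
`WW_avg`: `WW a μ = ent μ - log a + VV a μ ≤ ent μ - log a + VV a (P y)` for `μ = conv (P y) ν` (`VV_conv_le`); average:
`hh (n+1) - log a + (log a - hh 1 + 1)`.
`mass_nonflat`: for `IsP p`, `lam > 0`: a point with `a p x > e^lam` has `max (log (a p x)) 0 ≥ lam`, so `lam Σ (p - fl p) ≤ VV a p`.
-/
namespace Pool.Agent.NPM
open Finset Pool.Agent.Ldc

variable {G : Type} [AddCommGroup G] [Fintype G] {β : Type} [Fintype β]

theorem WW_eq {μ : G → ℝ} (hμ : IsP μ) (a : ℝ) (ha : 0 < a) : WW a μ = ent μ - Real.log a + VV a μ := by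
  have h1 : Real.log a = ∑ z, μ z * Real.log a := by
    rw [← Finset.sum_mul, hμ.2, one_mul]
  rw [h1]
  unfold WW ent VV
  rw [← Finset.sum_sub_distrib, ← Finset.sum_add_distrib]
  refine Finset.sum_congr rfl fun z _ => ?_
  rcases (hμ.1 z).eq_or_lt with h0 | h0
  · rw [← h0]; simp
  · have hL : Real.log (a * μ z) = Real.log a + Real.log (μ z) := Real.log_mul ha.ne' h0.ne'
    have hm : max (-Real.log (a * μ z)) 0 = -Real.log (a * μ z) + max (Real.log (a * μ z)) 0 := by
      rcases le_total (Real.log (a * μ z)) 0 with h | h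
      · rw [max_eq_left (by linarith), max_eq_right h]; ring
      · rw [max_eq_right (by linarith), max_eq_left h]; ring
    rw [hm, mul_add, Real.negMulLog]
    have : μ z * -Real.log (a * μ z) = -μ z * Real.log (μ z) - μ z * Real.log a := by
      rw [hL]; ring
    rw [this]

theorem Inf_WW_le {A : Finset G} {u : β → ℝ} {P : β → G → ℝ} (hD : Dec A u P) (hA : A.Nonempty)
    {y : β} (hy : 0 < u y) : WW (A.card : ℝ) (P y) ≤ 1 := by
  classical
  have ha : (0 : ℝ) < (A.card : ℝ) := by exact_mod_cast hA.card_pos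
  have key : WW (A.card : ℝ) (P y) ≤ ∑ x, if x ∈ A then 1 / (A.card : ℝ) else 0 := by
    unfold WW
    refine Finset.sum_le_sum fun x _ => ?_
    split_ifs with hx
    · rcases ((hD.hP y).1 x).eq_or_lt with h0 | h0
      · rw [← h0, zero_mul]; positivity
      · have hav : 0 < (A.card : ℝ) * P y x := mul_pos ha h0
        have h2 : -Real.log ((A.card : ℝ) * P y x) ≤ 1 / ((A.card : ℝ) * P y x) := by
          rw [← Real.log_inv, one_div]
          have := Real.log_le_sub_one_of_pos (inv_pos.mpr hav)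
          linarith
        have h3 : max (-Real.log ((A.card : ℝ) * P y x)) 0 ≤ 1 / ((A.card : ℝ) * P y x) :=
          max_le h2 (by positivity)
        calc P y x * max (-Real.log ((A.card : ℝ) * P y x)) 0
            ≤ P y x * (1 / ((A.card : ℝ) * P y x)) := mul_le_mul_of_nonneg_left h3 h0.le
          _ = 1 / (A.card : ℝ) := by field_simp
    · rw [hD.supp hy hx, zero_mul]
  refine key.trans (le_of_eq ?_)
  rw [Finset.sum_ite_mem, Finset.univ_inter, Finset.sum_const, nsmul_eq_mul]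
  field_simp

theorem VV_avg {A : Finset G} {u : β → ℝ} {P : β → G → ℝ} (hD : Dec A u P) (hA : A.Nonempty) :
    ∑ y, u y * VV (A.card : ℝ) (P y) ≤ Real.log (A.card : ℝ) - hh u P 1 + 1 := by
  have ha : (0 : ℝ) < (A.card : ℝ) := by exact_mod_cast hA.card_pos
  have h1 : hh u P 1 = ∑ y, u y * ent (P y) := Av_one u P ent
  have h2 : Real.log (A.card : ℝ) - hh u P 1 + 1
      = ∑ y, u y * (Real.log (A.card : ℝ) - ent (P y) + 1) := by
    rw [h1]
    simp only [mul_add, mul_sub, Finset.sum_add_distrib, Finset.sum_sub_distrib, ← Finset.sum_mul,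
      hD.hu.2, one_mul]
  rw [h2]
  refine Finset.sum_le_sum fun y _ => ?_
  rcases (hD.hu.1 y).eq_or_lt with h0 | h0
  · rw [← h0, zero_mul, zero_mul]
  · refine mul_le_mul_of_nonneg_left ?_ h0.le
    have h3 := WW_eq (hD.hP y) (A.card : ℝ) ha
    have h4 := Inf_WW_le hD hA h0
    linarith

theorem WW_avg {A : Finset G} {u : β → ℝ} {P : β → G → ℝ} (hD : Dec A u P) (hA : A.Nonempty) (n : ℕ) :
    ∑ y, u y * Av u P n (fun ν => WW (A.card : ℝ) (conv (P y) ν))
      ≤ hh u P (n + 1) - hh u P 1 + 1 := by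
  have ha : (0 : ℝ) < (A.card : ℝ) := by exact_mod_cast hA.card_pos
  have h1 : ∀ y, Av u P n (fun ν => WW (A.card : ℝ) (conv (P y) ν))
      ≤ Av u P n (fun ν => ent (conv (P y) ν)) + (VV (A.card : ℝ) (P y) - Real.log (A.card : ℝ)) := by
    intro y
    have h2 := Av_const hD.hu hD.hP n (VV (A.card : ℝ) (P y) - Real.log (A.card : ℝ))
    rw [← h2, ← Av_add hD.hu hD.hP]
    refine Av_mono hD.hu hD.hP n _ _ fun ν hν => ?_
    have h3 := WW_eq (conv_isP (hD.hP y) hν) (A.card : ℝ) ha
    have h4 := VV_conv_le (hD.hP y) hν (A.card : ℝ) ha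
    rw [h3]
    linarith
  have h5 : ∑ y, u y * Av u P n (fun ν => WW (A.card : ℝ) (conv (P y) ν))
      ≤ ∑ y, u y * (Av u P n (fun ν => ent (conv (P y) ν))
        + (VV (A.card : ℝ) (P y) - Real.log (A.card : ℝ))) :=
    Finset.sum_le_sum fun y _ => mul_le_mul_of_nonneg_left (h1 y) (hD.hu.1 y)
  have h6 : ∑ y, u y * (Av u P n (fun ν => ent (conv (P y) ν))
        + (VV (A.card : ℝ) (P y) - Real.log (A.card : ℝ)))
      = hh u P (n + 1) + (∑ y, u y * VV (A.card : ℝ) (P y) - Real.log (A.card : ℝ)) := by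
    have h7 : hh u P (n + 1) = ∑ y, u y * Av u P n (fun ν => ent (conv (P y) ν)) :=
      Av_succ u P n ent
    rw [h7]
    simp only [mul_add, mul_sub, Finset.sum_add_distrib, Finset.sum_sub_distrib, ← Finset.sum_mul,
      hD.hu.2, one_mul]
  have h8 := VV_avg hD hA
  linarith

theorem mass_nonflat {p : G → ℝ} (hp : IsP p) (a lam : ℝ) (ha : 0 < a) (hl : 0 ≤ lam) :
    lam * ∑ x, (p x - fl a lam p x) ≤ VV a p := by
  unfold VV
  rw [Finset.mul_sum]
  refine Finset.sum_le_sum fun x _ => ?_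
  unfold fl
  split_ifs with h
  · rw [sub_self, mul_zero]
    exact mul_nonneg (hp.1 x) (le_max_right _ _)
  · push Not at h
    rw [sub_zero]
    have h1 : lam ≤ Real.log (a * p x) := by
      have := Real.log_le_log (Real.exp_pos lam) h.le
      rwa [Real.log_exp] at this
    have h2 : lam ≤ max (Real.log (a * p x)) 0 := h1.trans (le_max_left _ _)
    rw [mul_comm]
    exact mul_le_mul_of_nonneg_left h2 (hp.1 x)

end Pool.Agent.NPM
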