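import Pool.Agent.NPM.Bas
set_option autoImplicit false

/-!
# Lmp.  Lumps, first half (size 2).

`μ = conv p ν`, `μf = conv pf ν`.  `τ := |F| e^(-q)/(4a)`.  Let `cm F μf z < τ`; so the average `cm F μf z/|F| < e^(-q)/(4a)`.
(i) `μ z < e^(-q)/a`: then `-log (a μ z) > q` (if `μ z > 0`) and `q μf z ≤ q μ z ≤ μ z max (-log (a μ z)) 0`.
(ii) `μ z ≥ e^(-q)/a` and `μf z < μ z/2`: `μf z ≤ μ z - μf z`.
(iii) `μf z ≥ μ z/2 ≥ e^(-q)/(2a)`: `d := μf z - cm/|F| ≥ μf z - e^(-q)/(4a) ≥ μf z/2 ≥ 0`, so `d² ≥ μf z ²/4 ≥ μf z e^(-q)/(8a)` and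
`μf z ≤ 8 a e^q d²`.
In all cases `μf z ≤ (1/q) μ z max(-log (a μ z)) 0 + (μ z - μf z) + 8 a e^q d²` (all three terms are `≥ 0`: `μf ≤ μ` because
`pf ≤ p`, `ν ≥ 0`).  Sum over the bad `z` (enlarge the sums of the three terms to all `z`): `Σ_z (μ z - μf z) = 1 - Σ pf` (`sum_conv`).
-/
namespace Pool.Agent.NPM
open Finset Pool.Agent.Ldc

variable {G : Type} [AddCommGroup G] [Fintype G]

open Classical in
theorem lump_one (F : AddSubgroup G) {p pf ν : G → ℝ} (hp : IsP p) (hν : IsP ν)
    (h0 : ∀ x, 0 ≤ pf x) (h1 : ∀ x, pf x ≤ p x) (a q : ℝ) (ha : 0 < a) (hq : 0 < q) :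
    ∑ z ∈ univ.filter (fun z => cm F (conv pf ν) z < (Nat.card F : ℝ) * Real.exp (-q) / (4 * a)),
        conv pf ν z
      ≤ WW a (conv p ν) / q + (1 - ∑ x, pf x) + 8 * a * Real.exp q * N2 F (conv pf ν) := by
  have hn : (0 : ℝ) < (Nat.card F : ℝ) := by
    have : 0 < Nat.card F := Nat.card_pos
    exact_mod_cast this
  have hμ0 : ∀ z, 0 ≤ conv p ν z := conv_nonneg hp.1 hν.1
  have hμf0 : ∀ z, 0 ≤ conv pf ν z := conv_nonneg h0 hν.1
  have hle : ∀ z, conv pf ν z ≤ conv p ν z := fun z =>
    Finset.sum_le_sum fun x _ => mul_le_mul_of_nonneg_right (h1 x) (hν.1 _)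
  have hsum : ∑ z, (conv p ν z - conv pf ν z) = 1 - ∑ x, pf x := by
    rw [Finset.sum_sub_distrib, sum_conv, sum_conv, hp.2, hν.2]
    ring
  have hE : Real.exp q * Real.exp (-q) = 1 := by
    rw [← Real.exp_add]; simp
  have hpt : ∀ z, cm F (conv pf ν) z < (Nat.card F : ℝ) * Real.exp (-q) / (4 * a) →
      conv pf ν z ≤ conv p ν z * max (-Real.log (a * conv p ν z)) 0 / q
        + (conv p ν z - conv pf ν z)
        + 8 * a * Real.exp q * (conv pf ν z - cm F (conv pf ν) z / (Nat.card F : ℝ)) ^ 2 := by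
    intro z hz
    have t1 : 0 ≤ conv p ν z * max (-Real.log (a * conv p ν z)) 0 / q :=
      div_nonneg (mul_nonneg (hμ0 z) (le_max_right _ _)) hq.le
    have t2 : 0 ≤ conv p ν z - conv pf ν z := sub_nonneg.2 (hle z)
    have t3 : 0 ≤ 8 * a * Real.exp q * (conv pf ν z - cm F (conv pf ν) z / (Nat.card F : ℝ)) ^ 2 := by
      positivity
    by_cases hA : conv p ν z < Real.exp (-q) / a
    · rcases (hμ0 z).eq_or_lt with h | h
      · have : conv pf ν z ≤ 0 := by rw [h]; exact hle z
        linarith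
      · have h2 : a * conv p ν z < Real.exp (-q) := by
          rw [lt_div_iff₀ ha] at hA
          linarith [mul_comm a (conv p ν z)]
        have h3 : Real.log (a * conv p ν z) < -q := by
          have := Real.log_lt_log (mul_pos ha h) h2
          rwa [Real.log_exp] at this
        have h4 : q ≤ max (-Real.log (a * conv p ν z)) 0 := le_trans (by linarith) (le_max_left _ _)
        have h5 : conv p ν z ≤ conv p ν z * max (-Real.log (a * conv p ν z)) 0 / q := by
          rw [le_div_iff₀ hq]
          exact mul_le_mul_of_nonneg_left h4 h.le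
        linarith [hle z]
    · push Not at hA
      by_cases hB : conv pf ν z < conv p ν z / 2
      · linarith
      · push Not at hB
        have e1 : Real.exp (-q) / (2 * a) ≤ conv pf ν z := by
          have : Real.exp (-q) / (2 * a) = Real.exp (-q) / a / 2 := by
            field_simp
          rw [this]; linarith
        have e2 : cm F (conv pf ν) z / (Nat.card F : ℝ) < Real.exp (-q) / (4 * a) := by
          rw [div_lt_iff₀ hn]
          calc cm F (conv pf ν) z < (Nat.card F : ℝ) * Real.exp (-q) / (4 * a) := hz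
            _ = Real.exp (-q) / (4 * a) * (Nat.card F : ℝ) := by ring
        have e3 : Real.exp (-q) / (4 * a) = Real.exp (-q) / (2 * a) / 2 := by
          field_simp
          norm_num
        have e4 : conv pf ν z / 2 ≤ conv pf ν z - cm F (conv pf ν) z / (Nat.card F : ℝ) := by
          linarith
        have e5 : (conv pf ν z / 2) ^ 2
            ≤ (conv pf ν z - cm F (conv pf ν) z / (Nat.card F : ℝ)) ^ 2 :=
          pow_le_pow_left₀ (by linarith [hμf0 z]) e4 2
        have e6 : 0 < 8 * a * Real.exp q := by positivity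
        have e7 : 8 * a * Real.exp q * (conv pf ν z / 2) ^ 2
            ≤ 8 * a * Real.exp q * (conv pf ν z - cm F (conv pf ν) z / (Nat.card F : ℝ)) ^ 2 :=
          mul_le_mul_of_nonneg_left e5 e6.le
        have e8 : 1 ≤ 2 * a * Real.exp q * conv pf ν z := by
          have h := mul_le_mul_of_nonneg_left e1 (by positivity : (0 : ℝ) ≤ 2 * a * Real.exp q)
          have h' : 2 * a * Real.exp q * (Real.exp (-q) / (2 * a)) = 1 := by
            rw [mul_div_assoc', mul_assoc (2 * a), hE, mul_one, div_self (by positivity)]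
          linarith
        have e9 : conv pf ν z ≤ 8 * a * Real.exp q * (conv pf ν z / 2) ^ 2 := by
          have h := mul_le_mul_of_nonneg_right e8 (hμf0 z)
          nlinarith
        linarith
  calc ∑ z ∈ univ.filter (fun z => cm F (conv pf ν) z < (Nat.card F : ℝ) * Real.exp (-q) / (4 * a)),
        conv pf ν z
      ≤ ∑ z ∈ univ.filter (fun z => cm F (conv pf ν) z < (Nat.card F : ℝ) * Real.exp (-q) / (4 * a)),
        (conv p ν z * max (-Real.log (a * conv p ν z)) 0 / q
        + (conv p ν z - conv pf ν z)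
        + 8 * a * Real.exp q * (conv pf ν z - cm F (conv pf ν) z / (Nat.card F : ℝ)) ^ 2) := by
        apply Finset.sum_le_sum
        intro z hz
        exact hpt z (Finset.mem_filter.1 hz).2
    _ ≤ ∑ z, (conv p ν z * max (-Real.log (a * conv p ν z)) 0 / q
        + (conv p ν z - conv pf ν z)
        + 8 * a * Real.exp q * (conv pf ν z - cm F (conv pf ν) z / (Nat.card F : ℝ)) ^ 2) := by
        apply Finset.sum_le_sum_of_subset_of_nonneg (Finset.filter_subset _ _)
        intro z _ _
        have t1 : 0 ≤ conv p ν z * max (-Real.log (a * conv p ν z)) 0 / q :=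
          div_nonneg (mul_nonneg (hμ0 z) (le_max_right _ _)) hq.le
        have t2 : 0 ≤ conv p ν z - conv pf ν z := sub_nonneg.2 (hle z)
        have t3 : 0 ≤ 8 * a * Real.exp q *
            (conv pf ν z - cm F (conv pf ν) z / (Nat.card F : ℝ)) ^ 2 := by
          positivity
        linarith
    _ = WW a (conv p ν) / q + (1 - ∑ x, pf x) + 8 * a * Real.exp q * N2 F (conv pf ν) := by
        rw [Finset.sum_add_distrib, Finset.sum_add_distrib, hsum, WW, N2, Finset.sum_div,
          Finset.mul_sum]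

end Pool.Agent.NPM
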