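import Pool.Agent.NPM.Bas
set_option autoImplicit false

/-!
# Trf.  Transfer of a heavy coset to the first summand (size 2).

`cm_inv`: `cm F f` is `F`-invariant (`w ∈ F ↦ w + w₀ ∈ F`).
`cm_conv`: `cm F (conv f ν) z = Σ_v ν v * cm F f (z - v)` (`conv_comm`, exchange sums).
`sum_inv`: if `s : G → ℝ` is `F`-invariant (`s (z + w) = s z` for `w ∈ F`) then `|F| Σ_z s z f z = Σ_z s z cm F f z`
(`Σ_z s z Σ_{w ∈ F} f (z + w) = Σ_w Σ_z s (z + w) f (z + w) = |F| Σ_z s z f z`); `card_filter_mem`-style: the filter has `Nat.card F`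
elements.
`transfer`: `g = conv pf ν`, `τ > 0`, `s = 1` on `{cm F g ≥ τ}`, `l = pf` on `{cm F pf < τ/100}`, `0` elsewhere (`light part`), `pf - l` = heavy part.
`Σ s g = Σ_z s (conv (pf - l) ν) + Σ_z s (conv l ν) ≤ Σ (pf - l) + Σ s (conv l ν)` (first: `s ≤ 1`, `sum_conv`, `Σ ν = 1`).
`|F| Σ s (conv l ν) = Σ s cm F (conv l ν) ≤ Σ_z s z τ/100`, since `cm F (conv l ν) z = Σ_v ν v cm F l (z - v) ≤ τ/100`: `cm F l x = cm F pf x < τ/100` if
`x` is light (all of `x + F` is light, by `cm_inv`) and `0` otherwise.  `τ Σ_z s z ≤ Σ_z s z cm F g z = |F| Σ s g ≤ |F|`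
(`Σ g = Σ pf Σ ν ≤ 1`).  So `Σ s (conv l ν) ≤ 1/100`.
-/
namespace Pool.Agent.NPM
open Finset Pool.Agent.Ldc

variable {G : Type} [AddCommGroup G] [Fintype G]

theorem cm_inv (F : AddSubgroup G) (f : G → ℝ) (z w : G) (hw : w ∈ F) : cm F f (z + w) = cm F f z := by
  classical
  unfold cm
  refine Finset.sum_bij' (fun v _ => w + v) (fun v _ => v - w) ?_ ?_ ?_ ?_ ?_
  · intro v hv
    simp only [mem_filter, mem_univ, true_and] at hv ⊢
    exact F.add_mem hw hv
  · intro v hv
    simp only [mem_filter, mem_univ, true_and] at hv ⊢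
    exact F.sub_mem hv hw
  · intro v _
    simp
  · intro v _
    simp
  · intro v _
    rw [add_assoc]

theorem cm_conv (F : AddSubgroup G) (f ν : G → ℝ) (z : G) :
    cm F (conv f ν) z = ∑ v, ν v * cm F f (z - v) := by
  classical
  rw [conv_comm]
  unfold cm conv
  rw [Finset.sum_comm]
  refine Finset.sum_congr rfl (fun v _ => ?_)
  rw [Finset.mul_sum]
  refine Finset.sum_congr rfl (fun w _ => ?_)
  rw [sub_add_eq_add_sub]

theorem sum_inv (F : AddSubgroup G) (s f : G → ℝ) (hs : ∀ z, ∀ w ∈ F, s (z + w) = s z) :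
    (Nat.card F : ℝ) * ∑ z, s z * f z = ∑ z, s z * cm F f z := by
  classical
  unfold cm
  have h1 : ∑ z, s z * ∑ w ∈ univ.filter (fun w => w ∈ F), f (z + w)
      = ∑ w ∈ univ.filter (fun w => w ∈ F), ∑ z, s z * f (z + w) := by
    rw [Finset.sum_comm]
    refine Finset.sum_congr rfl (fun z _ => ?_)
    rw [Finset.mul_sum]
  have h2 : ∀ w ∈ univ.filter (fun w => w ∈ F), ∑ z, s z * f (z + w) = ∑ z, s z * f z := by
    intro w hw
    rw [← Equiv.sum_comp (Equiv.addRight w) (fun z => s z * f z)]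
    refine Finset.sum_congr rfl (fun z _ => ?_)
    simp only [Equiv.coe_addRight]
    rw [hs z w (by simpa using hw)]
  have h3 : (Nat.card F : ℝ) = ((univ.filter (fun w => w ∈ F)).card : ℝ) := by
    rw [Nat.card_eq_fintype_card, Fintype.card_subtype]
  rw [h1, Finset.sum_congr rfl h2, Finset.sum_const, nsmul_eq_mul, h3]

open Classical in
theorem transfer (F : AddSubgroup G) {pf ν : G → ℝ} (hν : IsP ν) (h0 : ∀ x, 0 ≤ pf x)
    (h1 : ∑ x, pf x ≤ 1) (τ : ℝ) (hτ : 0 < τ) :
    ∑ z ∈ univ.filter (fun z => τ ≤ cm F (conv pf ν) z), conv pf ν z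
      ≤ ∑ x ∈ univ.filter (fun x => τ / 100 ≤ cm F pf x), pf x + 1 / 100 := by
  obtain ⟨hν0, hν1⟩ := hν
  set g := conv pf ν with hg
  have hg0 : ∀ z, 0 ≤ g z := fun z => conv_nonneg h0 hν0 z
  set s : G → ℝ := fun z => if τ ≤ cm F g z then 1 else 0 with hs
  set l : G → ℝ := fun x => if τ / 100 ≤ cm F pf x then 0 else pf x with hl
  set k : G → ℝ := fun x => if τ / 100 ≤ cm F pf x then pf x else 0 with hk
  have hs0 : ∀ z, 0 ≤ s z := by
    intro z
    simp only [hs]
    split_ifs <;> norm_num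
  have hs1 : ∀ z, s z ≤ 1 := by
    intro z
    simp only [hs]
    split_ifs <;> norm_num
  have hl0 : ∀ z, 0 ≤ l z := by
    intro z
    simp only [hl]
    split_ifs
    · exact le_rfl
    · exact h0 z
  have hk0 : ∀ z, 0 ≤ k z := by
    intro z
    simp only [hk]
    split_ifs
    · exact h0 z
    · exact le_rfl
  have hsum : (fun x => k x + l x) = pf := by
    funext x
    simp only [hk, hl]
    split_ifs <;> simp
  have hsplit : ∀ z, g z = conv k ν z + conv l ν z := by
    intro z
    have := conv_add_left k l ν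
    rw [hsum] at this
    rw [hg, this]
  have hinv : ∀ z, ∀ w ∈ F, s (z + w) = s z := by
    intro z w hw
    simp only [hs]
    rw [cm_inv F g z w hw]
  -- the left side is `Σ s g`
  have hL : ∑ z ∈ univ.filter (fun z => τ ≤ cm F g z), g z = ∑ z, s z * g z := by
    rw [Finset.sum_filter]
    refine Finset.sum_congr rfl (fun z _ => ?_)
    simp only [hs]
    split_ifs <;> simp
  have hR : ∑ x ∈ univ.filter (fun x => τ / 100 ≤ cm F pf x), pf x = ∑ x, k x := by
    rw [Finset.sum_filter]
  rw [hL, hR]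
  have hA : ∑ z, s z * conv k ν z ≤ ∑ x, k x := by
    calc ∑ z, s z * conv k ν z ≤ ∑ z, conv k ν z := by
          refine Finset.sum_le_sum (fun z _ => ?_)
          have := conv_nonneg hk0 hν0 z
          nlinarith [hs1 z]
      _ = ∑ x, k x := by rw [sum_conv, hν1, mul_one]
  -- light cosets
  have hcl : ∀ x, cm F l x ≤ τ / 100 := by
    intro x
    by_cases hx : τ / 100 ≤ cm F pf x
    · have : cm F l x = 0 := by
        unfold cm
        refine Finset.sum_eq_zero (fun w hw => ?_)
        have hw' : w ∈ F := by simpa using hw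
        simp only [hl]
        rw [if_pos]
        rw [cm_inv F pf x w hw']
        exact hx
      rw [this]
      positivity
    · have : cm F l x ≤ cm F pf x := by
        unfold cm
        refine Finset.sum_le_sum (fun w _ => ?_)
        simp only [hl]
        split_ifs
        · exact h0 _
        · exact le_rfl
      exact this.trans (not_le.mp hx).le
  have hcc : ∀ z, cm F (conv l ν) z ≤ τ / 100 := by
    intro z
    rw [cm_conv]
    calc ∑ v, ν v * cm F l (z - v) ≤ ∑ v, ν v * (τ / 100) :=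
          Finset.sum_le_sum (fun v _ => mul_le_mul_of_nonneg_left (hcl _) (hν0 v))
      _ = τ / 100 := by rw [← Finset.sum_mul, hν1, one_mul]
  have hF : (0 : ℝ) < (Nat.card F : ℝ) := by
    have : 0 < Nat.card F := Nat.card_pos
    exact_mod_cast this
  have hB1 : (Nat.card F : ℝ) * ∑ z, s z * conv l ν z ≤ (∑ z, s z) * (τ / 100) := by
    rw [sum_inv F s (conv l ν) hinv, Finset.sum_mul]
    exact Finset.sum_le_sum (fun z _ => mul_le_mul_of_nonneg_left (hcc z) (hs0 z))
  have hB2 : (∑ z, s z) * τ ≤ (Nat.card F : ℝ) := by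
    calc (∑ z, s z) * τ ≤ ∑ z, s z * cm F g z := by
          rw [Finset.sum_mul]
          refine Finset.sum_le_sum (fun z _ => ?_)
          simp only [hs]
          split_ifs with h
          · simpa using h
          · simp
      _ = (Nat.card F : ℝ) * ∑ z, s z * g z := (sum_inv F s g hinv).symm
      _ ≤ (Nat.card F : ℝ) * 1 := by
          refine mul_le_mul_of_nonneg_left ?_ hF.le
          calc ∑ z, s z * g z ≤ ∑ z, g z := by
                refine Finset.sum_le_sum (fun z _ => ?_)
                nlinarith [hs1 z, hg0 z]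
            _ = ∑ x, pf x := by rw [hg, sum_conv, hν1, mul_one]
            _ ≤ 1 := h1
      _ = (Nat.card F : ℝ) := mul_one _
  have hB : ∑ z, s z * conv l ν z ≤ 1 / 100 := by
    have h3 : (Nat.card F : ℝ) * ∑ z, s z * conv l ν z ≤ (Nat.card F : ℝ) * (1 / 100) := by
      nlinarith
    exact le_of_mul_le_mul_left h3 hF
  calc ∑ z, s z * g z = ∑ z, s z * conv k ν z + ∑ z, s z * conv l ν z := by
        rw [← Finset.sum_add_distrib]
        refine Finset.sum_congr rfl (fun z _ => ?_)
        rw [hsplit z]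
        ring
    _ ≤ ∑ x, k x + 1 / 100 := add_le_add hA hB

end Pool.Agent.NPM
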