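import Pool.Agent.NPM.N2b
import Pool.Agent.NPM.Inf
import Pool.Agent.NPM.Lmp
import Pool.Agent.NPM.Trf
set_option autoImplicit false

/-!
# Hvy.  Most of the mass is in heavy cosets (size 3).

`a = |A|`, `F = AnnS u P t`, `pf = fl a lam (P y)`, `τ = |F| e^(-q)/(4a)` (`> 0`).  For each `y` and each law `ν`: `transfer` (`τ/100 = |F| e^(-q)/(400a)`)
and `lump_one` (the two filters are complementary, `Σ_z conv pf ν z = Σ pf` by `sum_conv`):
`Σ_{heavy} pf ≥ Σ pf - 1/100 - [WW a (conv p ν)/q + (1 - Σ pf) + 8 a e^q N2 F (conv pf ν)]`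
`= 1 - 2 (1 - Σ pf) - 1/100 - WW/q - 8 a e^q N2`.
Apply `Av u P n` in `ν` (`Av_mono`, `Av_const`, `Av_add`, `Av_mul`), sum with `u y`:
`Σ_y u y (1 - Σ pf) ≤ 1/100` (`mass_nonflat`, `VV_avg`, `hlam`; `Σ P y = 1`); `Σ_y u y Av WW/q ≤ (g + 1)/q ≤ 1/100` (`WW_avg`);
`8 a e^q Σ_y u y Av N2 ≤ 8 e^(q + lam) (1 - t)^n ≤ 8 e^(q + lam - t n) ≤ 8 e^(-7) ≤ 1/100` (`N2_avg`, `Real.one_sub_le_exp_neg`; `e > 2.7182`, `Real.exp_one_gt_d9`).
-/
namespace Pool.Agent.NPM
open Finset Pool.Agent.Ldc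

variable {G : Type} [AddCommGroup G] [Fintype G] {β : Type} [Fintype β]

private theorem hvy_fl_nonneg {a lam : ℝ} {p : G → ℝ} (hp : ∀ x, 0 ≤ p x) (x : G) :
    0 ≤ fl a lam p x := by
  unfold fl
  split_ifs
  · exact hp x
  · exact le_rfl

private theorem hvy_fl_le {a lam : ℝ} {p : G → ℝ} (hp : ∀ x, 0 ≤ p x) (x : G) :
    fl a lam p x ≤ p x := by
  unfold fl
  split_ifs
  · exact le_rfl
  · exact hp x

private theorem hvy_exp7 : 8 * Real.exp (-7) ≤ 1 / 100 := by
  have h1 : (2.7182818283 : ℝ) < Real.exp 1 := Real.exp_one_gt_d9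
  have h2 : Real.exp 7 = Real.exp 1 ^ 7 := by
    rw [← Real.exp_nat_mul]
    norm_num
  have h3 : (800 : ℝ) ≤ Real.exp 7 := by
    rw [h2]
    have h4 : (2.7 : ℝ) ^ 7 ≤ Real.exp 1 ^ 7 := by
      apply pow_le_pow_left₀ (by norm_num)
      linarith
    have h5 : (800 : ℝ) ≤ (2.7 : ℝ) ^ 7 := by norm_num
    linarith
  rw [Real.exp_neg]
  have h6 : (Real.exp 7)⁻¹ ≤ 1 / 800 := by
    rw [inv_eq_one_div]
    exact one_div_le_one_div_of_le (by norm_num) h3
  linarith

open Classical in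
private theorem hvy_one (F : AddSubgroup G) {p pf ν : G → ℝ} (hp : IsP p) (hν : IsP ν)
    (h0 : ∀ x, 0 ≤ pf x) (h1 : ∀ x, pf x ≤ p x) (a q : ℝ) (ha : 0 < a) (hq : 0 < q) :
    2 * (∑ x, pf x) - 101 / 100 ≤
      (∑ x ∈ univ.filter (fun x =>
        (Nat.card F : ℝ) * Real.exp (-q) / (4 * a) / 100 ≤ cm F pf x), pf x)
      + ((1 / q) * WW a (conv p ν) + 8 * a * Real.exp q * N2 F (conv pf ν)) := by
  have hS : ∑ x, pf x ≤ 1 := by
    rw [← hp.2]
    exact Finset.sum_le_sum (fun x _ => h1 x)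
  have hF : (0 : ℝ) < (Nat.card F : ℝ) := by
    exact_mod_cast Nat.card_pos
  have hτ : 0 < (Nat.card F : ℝ) * Real.exp (-q) / (4 * a) := by
    have := Real.exp_pos (-q)
    positivity
  have hl := lump_one F hp hν h0 h1 a q ha hq
  have ht := transfer F hν h0 hS _ hτ
  have hs : ∑ z, conv pf ν z = ∑ x, pf x := by
    rw [sum_conv, hν.2, mul_one]
  have hsplit : ∑ z ∈ univ.filter (fun z => (Nat.card F : ℝ) * Real.exp (-q) / (4 * a) ≤ cm F (conv pf ν) z),
        conv pf ν z
      + ∑ z ∈ univ.filter (fun z => cm F (conv pf ν) z < (Nat.card F : ℝ) * Real.exp (-q) / (4 * a)),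
        conv pf ν z = ∑ z, conv pf ν z := by
    rw [← Finset.sum_filter_add_sum_filter_not univ
      (fun z => (Nat.card F : ℝ) * Real.exp (-q) / (4 * a) ≤ cm F (conv pf ν) z)]
    congr 1
    apply Finset.sum_congr
    · ext z
      simp only [Finset.mem_filter, Finset.mem_univ, true_and, not_le]
    · intros; rfl
  have hw : WW a (conv p ν) / q = (1 / q) * WW a (conv p ν) := by ring
  rw [hw] at hl
  linarith

open Classical in
theorem heavy_mass {A : Finset G} {u : β → ℝ} {P : β → G → ℝ} (hD : Dec A u P) (hA : A.Nonempty)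
    (t q lam g : ℝ) (n : ℕ) (ht0 : 0 < t) (ht : t ≤ 1)
    (hlam : 100 * (Real.log (A.card : ℝ) - hh u P 1 + 1) ≤ lam)
    (hg0 : 0 ≤ g) (hg : hh u P (n + 1) ≤ hh u P 1 + g) (hq : 100 * (g + 1) ≤ q)
    (hn : q + lam + 7 ≤ t * n) :
    95 / 100 ≤ ∑ y, u y * ∑ x ∈ univ.filter (fun x =>
        (Nat.card (AnnS u P t) : ℝ) * Real.exp (-q) / (4 * (A.card : ℝ)) / 100
          ≤ cm (AnnS u P t) (fl (A.card : ℝ) lam (P y)) x), fl (A.card : ℝ) lam (P y) x := by
  have ha : (0 : ℝ) < (A.card : ℝ) := by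
    exact_mod_cast hA.card_pos
  have hq0 : 0 < q := by linarith
  have hlog := hh_one_le hD hA
  have hlam0 : 0 < lam := by linarith
  set F := AnnS u P t with hFdef
  set a : ℝ := (A.card : ℝ) with hadef
  have hu := hD.hu
  have hP := hD.hP
  have hfl0 : ∀ y x, 0 ≤ fl a lam (P y) x := fun y x => hvy_fl_nonneg (hP y).1 x
  have hfl1 : ∀ y x, fl a lam (P y) x ≤ P y x := fun y x => hvy_fl_le (hP y).1 x
  -- mass of the non-flat part
  have hnf : ∑ y, u y * (1 - ∑ x, fl a lam (P y) x) ≤ 1 / 100 := by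
    have h1 : ∀ y, lam * (1 - ∑ x, fl a lam (P y) x) ≤ VV a (P y) := by
      intro y
      have := mass_nonflat (hP y) a lam ha hlam0.le
      rw [Finset.sum_sub_distrib, (hP y).2] at this
      exact this
    have h2 : lam * ∑ y, u y * (1 - ∑ x, fl a lam (P y) x) ≤ ∑ y, u y * VV a (P y) := by
      rw [Finset.mul_sum]
      apply Finset.sum_le_sum
      intro y _
      have := mul_le_mul_of_nonneg_left (h1 y) (hu.1 y)
      linarith [this, mul_left_comm lam (u y) (1 - ∑ x, fl a lam (P y) x)]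
    have h3 := VV_avg hD hA
    have h4 : lam * ∑ y, u y * (1 - ∑ x, fl a lam (P y) x) ≤ lam * (1 / 100) := by
      have : lam * (1 / 100) = lam / 100 := by ring
      linarith
    exact le_of_mul_le_mul_left h4 hlam0
  -- the key inequality for every y
  have key : ∀ y, 2 * (∑ x, fl a lam (P y) x) - 101 / 100 ≤
      (∑ x ∈ univ.filter (fun x =>
        (Nat.card F : ℝ) * Real.exp (-q) / (4 * a) / 100 ≤ cm F (fl a lam (P y)) x), fl a lam (P y) x)
      + ((1 / q) * Av u P n (fun ν => WW a (conv (P y) ν))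
        + 8 * a * Real.exp q * Av u P n (fun ν => N2 F (conv (fl a lam (P y)) ν))) := by
    intro y
    have h1 := Av_mono hu hP n
      (fun _ => 2 * (∑ x, fl a lam (P y) x) - 101 / 100)
      (fun ν => (∑ x ∈ univ.filter (fun x =>
        (Nat.card F : ℝ) * Real.exp (-q) / (4 * a) / 100 ≤ cm F (fl a lam (P y)) x), fl a lam (P y) x)
        + ((1 / q) * WW a (conv (P y) ν) + 8 * a * Real.exp q * N2 F (conv (fl a lam (P y)) ν)))
      (fun ν hν => hvy_one F (hP y) hν (hfl0 y) (hfl1 y) a q ha hq0)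
    rw [Av_const hu hP, Av_add hu hP, Av_const hu hP, Av_add hu hP, Av_mul hu hP, Av_mul hu hP] at h1
    exact h1
  -- sum over y
  have hsum := Finset.sum_le_sum (s := (univ : Finset β))
    (fun y _ => mul_le_mul_of_nonneg_left (key y) (hu.1 y))
  have hL : ∑ y, u y * (2 * (∑ x, fl a lam (P y) x) - 101 / 100)
      = 2 - 101 / 100 - 2 * ∑ y, u y * (1 - ∑ x, fl a lam (P y) x) := by
    have e1 : ∀ y, u y * (2 * (∑ x, fl a lam (P y) x) - 101 / 100)
        = (2 - 101 / 100) * u y - 2 * (u y * (1 - ∑ x, fl a lam (P y) x)) := by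
      intro y; ring
    rw [Finset.sum_congr rfl (fun y _ => e1 y), Finset.sum_sub_distrib, ← Finset.mul_sum,
      ← Finset.mul_sum, hu.2]
    ring
  have hR : ∑ y, u y * ((∑ x ∈ univ.filter (fun x =>
        (Nat.card F : ℝ) * Real.exp (-q) / (4 * a) / 100 ≤ cm F (fl a lam (P y)) x), fl a lam (P y) x)
      + ((1 / q) * Av u P n (fun ν => WW a (conv (P y) ν))
        + 8 * a * Real.exp q * Av u P n (fun ν => N2 F (conv (fl a lam (P y)) ν))))
      = (∑ y, u y * ∑ x ∈ univ.filter (fun x =>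
        (Nat.card F : ℝ) * Real.exp (-q) / (4 * a) / 100 ≤ cm F (fl a lam (P y)) x), fl a lam (P y) x)
      + ((1 / q) * (∑ y, u y * Av u P n (fun ν => WW a (conv (P y) ν)))
        + 8 * a * Real.exp q *
          (∑ y, u y * Av u P n (fun ν => N2 F (conv (fl a lam (P y)) ν)))) := by
    rw [Finset.mul_sum, Finset.mul_sum, ← Finset.sum_add_distrib, ← Finset.sum_add_distrib]
    apply Finset.sum_congr rfl
    intro y _
    ring
  have hW := WW_avg hD hA n
  have hW2 : (1 / q) * (∑ y, u y * Av u P n (fun ν => WW a (conv (P y) ν))) ≤ 1 / 100 := by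
    have h1 : ∑ y, u y * Av u P n (fun ν => WW a (conv (P y) ν)) ≤ q / 100 := by linarith
    calc (1 / q) * (∑ y, u y * Av u P n (fun ν => WW a (conv (P y) ν)))
        ≤ (1 / q) * (q / 100) := by
          apply mul_le_mul_of_nonneg_left h1
          positivity
      _ = 1 / 100 := by
          field_simp
  have hN := N2_avg hu hP t a lam ht ha n
  have hN2 : 8 * a * Real.exp q *
      (∑ y, u y * Av u P n (fun ν => N2 F (conv (fl a lam (P y)) ν))) ≤ 1 / 100 := by
    have hep := Real.exp_pos q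
    have hel := Real.exp_pos lam
    have h1 : (1 - t) ^ n ≤ Real.exp (-(t * n)) := by
      have h2 : 1 - t ≤ Real.exp (-t) := Real.one_sub_le_exp_neg t
      calc (1 - t) ^ n ≤ Real.exp (-t) ^ n := pow_le_pow_left₀ (by linarith) h2 n
        _ = Real.exp (-(t * n)) := by
          rw [← Real.exp_nat_mul]
          congr 1
          ring
    calc 8 * a * Real.exp q *
          (∑ y, u y * Av u P n (fun ν => N2 F (conv (fl a lam (P y)) ν)))
        ≤ 8 * a * Real.exp q * ((1 - t) ^ n * (Real.exp lam / a)) := by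
          apply mul_le_mul_of_nonneg_left hN
          positivity
      _ = 8 * (Real.exp q * Real.exp lam * (1 - t) ^ n) := by
          field_simp
      _ ≤ 8 * (Real.exp q * Real.exp lam * Real.exp (-(t * n))) := by
          apply mul_le_mul_of_nonneg_left _ (by norm_num)
          apply mul_le_mul_of_nonneg_left h1
          positivity
      _ = 8 * Real.exp (q + lam - t * n) := by
          rw [← Real.exp_add, ← Real.exp_add]
          congr 2
      _ ≤ 8 * Real.exp (-7) := by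
          apply mul_le_mul_of_nonneg_left _ (by norm_num)
          apply Real.exp_le_exp.2
          linarith
      _ ≤ 1 / 100 := hvy_exp7
  rw [hL, hR] at hsum
  linarith

end Pool.Agent.NPM
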