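import Pool.Agent.NPM.Nmn
import Pool.Agent.NPM.Seq
import Pool.Agent.NPM.SmA
import Pool.Agent.NPM.Hvy
import Pool.Agent.NPM.Sel
set_option autoImplicit false

/-!
# Ana.  The analytic part (size 2).

`κ = 1/(102400 * 2 ^ s2)`, near-minimiser from `exists_nearMin`; `k = 1 + log K ≥ 1`.  `Phi ≤ log K + κ ≤ k`, so `hh 2 - hh 1 ≤ k` and
`I = log|A| - hh 1 ≤ k/η` (`hh_le_two`, `hh_one_le`).  `seq_growth` for `h = hh u P` (`ccv`, `sdp`).
`M = 2^(s1+1) - 1`: `hh (M+1) - hh M ≤ 1/12800 + 2κ ≤ 1/6400` (`s = s1`), `smo_avg` `≤ 16/6400 = 1/400`.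
`n + 1 = 2^(s2+1) - 1`: `hh (n+1) ≤ hh 1 + 2k(1+η)^s2/η + 1 =: hh 1 + g` (`2κ 2^(s2+1) ≤ 1`).  `q = 100 (g + 1)`, `lam = 100 (k/η + 1)`, `t = 1/(8M)`.
`heavy_mass`, `select` with `F = AnnS u P t`, `c = |F| e^(-q)/(4|A|)/100`; `c |A| e^(-lam) = |F| e^(-q-lam)/400`; `S = {ξ | aa ≤ t}`,
`spec_close` with `x = x₀`, `x' = x`.
-/
namespace Pool.Agent.NPM
open Finset Pool.Agent.Ldc
open scoped Pointwise

variable {G : Type} [AddCommGroup G] [Fintype G]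

open Classical in
theorem analytic (A : Finset G) (hA : A.Nonempty) (K : ℝ) (hK1 : 1 ≤ K)
    (hK : ((A + A).card : ℝ) ≤ K * (A.card : ℝ)) (η : ℝ) (hη : 0 < η) (hη2 : η ≤ 1 / 2) (s1 s2 : ℕ)
    (hs1 : ((1 + η) / 2) ^ s1 * (1 + Real.log K) ≤ 1 / 12800) (q lam : ℝ)
    (hq : q = 100 * (2 * (1 + Real.log K) * (1 + η) ^ s2 / η + 2))
    (hlam : lam = 100 * ((1 + Real.log K) / η + 1))
    (hs2 : q + lam + 7 ≤ (2 ^ (s2 + 1) - 2 : ℝ) / (8 * (2 ^ (s1 + 1) - 1))) :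
    ∃ (S : Set (AddChar G ℂ)) (x₀ : G) (A1 : Finset G), A1 ⊆ A ∧
      9 / 10 * Real.exp (-lam) * (A.card : ℝ) ≤ (A1.card : ℝ) ∧
      (∀ x ∈ A1, ∀ ξ ∈ S, ‖ξ (x - x₀) - 1‖ ^ 2 ≤ 2 / 35) ∧
      ∀ x ∈ A1, (Nat.card (Ann S) : ℝ) ≤
        400 * Real.exp (q + lam) * ((A.filter (fun a => a - x ∈ Ann S)).card : ℝ) := by
  have hL : 0 ≤ Real.log K := Real.log_nonneg hK1
  set k : ℝ := 1 + Real.log K with hk
  have hk1 : 1 ≤ k := by linarith
  have h2s : (1 : ℝ) ≤ 2 ^ s2 := one_le_pow₀ (by norm_num)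
  set κ : ℝ := 1 / (102400 * 2 ^ s2) with hκdef
  have hκ : 0 < κ := by positivity
  have hκ1 : κ ≤ 1 / 102400 := by
    rw [hκdef]
    apply one_div_le_one_div_of_le (by norm_num)
    nlinarith
  have hκ2 : 2 * κ * 2 ^ (s2 + 1) ≤ 1 := by
    have : 2 * κ * 2 ^ (s2 + 1) = 4 / 102400 := by
      rw [hκdef, pow_succ]
      field_simp
      norm_num
    rw [this]; norm_num
  obtain ⟨β, _, u, P, hN, hPhi⟩ := exists_nearMin A hA K hK η κ hη.le hκ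
  have hD : Dec A u P := hN.1
  have h12 := hh_le_two hD
  have hI0 := hh_one_le hD hA
  have hA0 : (0 : ℝ) < (A.card : ℝ) := by exact_mod_cast hA.card_pos
  unfold Phi at hPhi
  have hηI : 0 ≤ η * (Real.log (A.card : ℝ) - hh u P 1) := mul_nonneg hη.le (by linarith)
  have h21 : hh u P 2 - hh u P 1 ≤ k := by linarith
  have hI : Real.log (A.card : ℝ) - hh u P 1 ≤ k / η := by
    rw [le_div_iff₀ hη]
    linarith
  have hgr := fun s => seq_growth (hh u P) k η κ hη hη2 hκ.le (by linarith) (ccv hD) (sdp hN) h21 s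
  -- smoothing
  set M : ℕ := 2 ^ (s1 + 1) - 1 with hMdef
  have hp1 : 1 ≤ 2 ^ (s1 + 1) := Nat.one_le_two_pow
  have hp2 : 2 ≤ 2 ^ (s1 + 1) := by
    rw [pow_succ]; have : 1 ≤ 2 ^ s1 := Nat.one_le_two_pow; omega
  have hM1 : 1 ≤ M := by omega
  have hMs : M + 1 = 2 ^ (s1 + 1) := by omega
  have hMcast : (M : ℝ) = 2 ^ (s1 + 1) - 1 := by
    have : ((M + 1 : ℕ) : ℝ) = ((2 ^ (s1 + 1) : ℕ) : ℝ) := by rw [hMs]
    push_cast at this
    linarith
  have hM0 : (1 : ℝ) ≤ (M : ℝ) := by exact_mod_cast hM1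
  have hsm : ∑ y, u y * ∑ x, P y x * ∑ x', P y x' * G2 u P M x x' ≤ 1 / 400 := by
    refine (smo_avg hD.hu hD.hP M).trans ?_
    have h3 := (hgr s1).1
    rw [hMs]
    linarith
  -- heavy cosets
  have hq2 : 2 ≤ 2 ^ (s2 + 1) := by
    rw [pow_succ]; have : 1 ≤ 2 ^ s2 := Nat.one_le_two_pow; omega
  set n : ℕ := 2 ^ (s2 + 1) - 2 with hndef
  have hn1 : n + 1 = 2 ^ (s2 + 1) - 1 := by omega
  have hncast : (n : ℝ) = 2 ^ (s2 + 1) - 2 := by
    have : ((n + 2 : ℕ) : ℝ) = ((2 ^ (s2 + 1) : ℕ) : ℝ) := by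
      congr 1; omega
    push_cast at this
    linarith
  set t : ℝ := 1 / (8 * (M : ℝ)) with htdef
  have ht0 : 0 < t := by positivity
  have ht1 : t ≤ 1 := by
    rw [htdef, div_le_one (by positivity)]
    linarith
  set g : ℝ := 2 * k * (1 + η) ^ s2 / η + 1 with hgdef
  have hg0 : 0 ≤ g := by
    have : 0 ≤ 2 * k * (1 + η) ^ s2 / η := by positivity
    linarith
  have hhv := heavy_mass hD hA t q lam g n ht0 ht1 (by rw [hlam]; linarith) hg0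
    (by rw [hn1]; have := (hgr s2).2; linarith) (by rw [hq]; linarith)
    (by
      refine hs2.trans (le_of_eq ?_)
      rw [htdef, hMcast, hncast]
      ring)
  obtain ⟨x₀, A1, hA1, hc1, hG, hfib⟩ := select hD hA M (AnnS u P t) lam
    ((Nat.card (AnnS u P t) : ℝ) * Real.exp (-q) / (4 * (A.card : ℝ)) / 100) hsm hhv
  refine ⟨{ξ | aa u P ξ ≤ t}, x₀, A1, hA1, hc1, ?_, ?_⟩
  · intro x hx ξ hξ
    exact spec_close hD.hu hD.hP M (by omega) ξ hξ x₀ x (hG x hx)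
  · intro x hx
    have h4 := hfib x hx
    change (Nat.card (AnnS u P t) : ℝ) ≤
      400 * Real.exp (q + lam) * ((A.filter (fun a => a - x ∈ AnnS u P t)).card : ℝ)
    have h5 : (Nat.card (AnnS u P t) : ℝ) = 400 * Real.exp (q + lam) *
        ((Nat.card (AnnS u P t) : ℝ) * Real.exp (-q) / (4 * (A.card : ℝ)) / 100 * (A.card : ℝ) *
          Real.exp (-lam)) := by
      rw [Real.exp_add, Real.exp_neg, Real.exp_neg]
      have e1 := (Real.exp_pos q).ne'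
      have e2 := (Real.exp_pos lam).ne'
      field_simp
      norm_num
    calc (Nat.card (AnnS u P t) : ℝ) = _ := h5
      _ ≤ _ := by gcongr

end Pool.Agent.NPM
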