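import Pool.Agent.NPM.Fou
import Pool.Agent.NPM.AvL
set_option autoImplicit false

/-!
# AvF.  Characters of the random law; the large spectrum (size 2).

`Av_hat`: induction on `m`: `Av (m+1) = Σ_y u y Av m (fun μ => ‖hat (P y) ξ‖² ‖hat μ ξ‖²)` (`hat_conv`), `Av_mul`; `Av 0`: `hat_dl`.
`aa_nonneg`, `aa_le_one` from `norm_hat_le`.
`spec_close`: `‖ξ x - ξ x'‖ ‖hat μ ξ‖ = ‖Σ_g (μ (g - x) - μ (g - x')) ξ g‖ ≤ l1 x x' μ` (`hat_shift`), squares, `Av_mono`, `Av_mul`: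
`‖ξ x - ξ x'‖² (1 - a)^M ≤ G2 ≤ 1/20`; Bernoulli `one_add_mul_le_pow` (for `-a ≥ -2`): `(1 - a)^M ≥ 1 - M a ≥ 7/8`;
`‖ξ (x' - x) - 1‖ = ‖ξ x' - ξ x‖` (`‖ξ x‖ = 1`, `AddChar.map_sub_eq_div`).
-/
namespace Pool.Agent.NPM
open Finset Pool.Agent.Ldc

variable {G : Type} [AddCommGroup G] [Fintype G] {β : Type} [Fintype β]

theorem Av_hat {u : β → ℝ} {P : β → G → ℝ} (hu : IsP u) (hP : ∀ y, IsP (P y)) (m : ℕ)
    (ξ : AddChar G ℂ) : Av u P m (fun μ => ‖hat μ ξ‖ ^ 2) = (1 - aa u P ξ) ^ m := by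
  induction m with
  | zero =>
    rw [Av_zero, hat_dl]
    simp
  | succ m ih =>
    rw [Av_succ]
    have h1 : ∀ y, Av u P m (fun μ => ‖hat (conv (P y) μ) ξ‖ ^ 2) =
        ‖hat (P y) ξ‖ ^ 2 * (1 - aa u P ξ) ^ m := by
      intro y
      rw [← ih, ← Av_mul hu hP]
      apply Av_congr hu hP
      intro μ _
      rw [hat_conv, norm_mul, mul_pow]
    have h2 : ∑ y, u y * Av u P m (fun μ => ‖hat (conv (P y) μ) ξ‖ ^ 2) =
        (∑ y, u y * ‖hat (P y) ξ‖ ^ 2) * (1 - aa u P ξ) ^ m := by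
      rw [Finset.sum_mul]
      apply Finset.sum_congr rfl
      intro y _
      rw [h1 y]
      ring
    rw [h2, pow_succ]
    have h3 : (∑ y, u y * ‖hat (P y) ξ‖ ^ 2) = 1 - aa u P ξ := by
      unfold aa
      ring
    rw [h3]
    ring


theorem aa_nonneg {u : β → ℝ} {P : β → G → ℝ} (hu : IsP u) (hP : ∀ y, IsP (P y)) (ξ : AddChar G ℂ) :
    0 ≤ aa u P ξ := by
  unfold aa
  have h1 : ∑ y, u y * ‖hat (P y) ξ‖ ^ 2 ≤ ∑ y, u y := by
    apply Finset.sum_le_sum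
    intro y _
    have h2 : ‖hat (P y) ξ‖ ^ 2 ≤ 1 := pow_le_one₀ (norm_nonneg _) (norm_hat_le (hP y) ξ)
    have := mul_le_mul_of_nonneg_left h2 (hu.1 y)
    linarith
  rw [hu.2] at h1
  linarith


theorem aa_le_one {u : β → ℝ} {P : β → G → ℝ} (hu : IsP u) (ξ : AddChar G ℂ) :
    aa u P ξ ≤ 1 := by
  unfold aa
  have h1 : 0 ≤ ∑ y, u y * ‖hat (P y) ξ‖ ^ 2 :=
    Finset.sum_nonneg (fun y _ => mul_nonneg (hu.1 y) (by positivity))
  linarith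


theorem spec_close {u : β → ℝ} {P : β → G → ℝ} (hu : IsP u) (hP : ∀ y, IsP (P y)) (M : ℕ) (hM : 0 < M)
    (ξ : AddChar G ℂ) (hξ : aa u P ξ ≤ 1 / (8 * (M : ℝ))) (x x' : G) (hx : G2 u P M x x' ≤ 1 / 20) :
    ‖ξ (x' - x) - 1‖ ^ 2 ≤ 2 / 35 := by
  have hl : ∀ μ : G → ℝ, ‖ξ x - ξ x'‖ * ‖hat μ ξ‖ ≤ l1 x x' μ := by
    intro μ
    rw [← norm_mul]
    have e : (ξ x - ξ x') * hat μ ξ = ∑ g, ((μ (g - x) - μ (g - x') : ℝ) : ℂ) * ξ g := by
      rw [sub_mul, ← hat_shift, ← hat_shift, ← Finset.sum_sub_distrib]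
      apply Finset.sum_congr rfl
      intro g _
      push_cast
      ring
    rw [e]
    refine (norm_sum_le _ _).trans (le_of_eq ?_)
    unfold l1
    apply Finset.sum_congr rfl
    intro g _
    rw [norm_mul, AddChar.norm_apply, mul_one, Complex.norm_real, Real.norm_eq_abs]
  have h1 : ‖ξ x - ξ x'‖ ^ 2 * (1 - aa u P ξ) ^ M ≤ 1 / 20 := by
    refine le_trans ?_ hx
    rw [← Av_hat hu hP M ξ, ← Av_mul hu hP]
    unfold G2
    apply Av_mono hu hP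
    intro μ _
    rw [← mul_pow]
    exact pow_le_pow_left₀ (by positivity) (hl μ) 2
  have hM' : (0 : ℝ) < M := by exact_mod_cast hM
  have h2 : 7 / 8 ≤ (1 - aa u P ξ) ^ M := by
    have h3 := one_add_mul_le_pow (a := - aa u P ξ) (by linarith [aa_le_one (P := P) hu ξ]) M
    have h4 : (M : ℝ) * aa u P ξ ≤ 1 / 8 := by
      calc (M : ℝ) * aa u P ξ ≤ M * (1 / (8 * (M : ℝ))) := mul_le_mul_of_nonneg_left hξ hM'.le
        _ = 1 / 8 := by field_simp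
    have h5 : (1 + - aa u P ξ) = 1 - aa u P ξ := by ring
    rw [h5] at h3
    linarith
  have h3 : ‖ξ (x' - x) - 1‖ = ‖ξ x - ξ x'‖ := by
    have hn : ‖ξ x‖ = 1 := AddChar.norm_apply ξ x
    have hx0 : ξ x ≠ 0 := by
      intro h0
      rw [h0, norm_zero] at hn
      exact zero_ne_one hn
    have e : ξ x * (ξ (x' - x) - 1) = ξ x' - ξ x := by
      rw [mul_sub, mul_one, ← AddChar.map_add_eq_mul, add_sub_cancel]
    have e2 := congrArg norm e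
    rw [norm_mul, hn, one_mul] at e2
    rw [e2, norm_sub_rev]
  rw [h3]
  nlinarith [sq_nonneg ‖ξ x - ξ x'‖]


end Pool.Agent.NPM
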