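import Pool.Agent.NPM.Defs
set_option autoImplicit false

/-!
# Bas.  Convolution (size 2).

`conv_eq_pr`: `pr (pp p q) (fun x => x.1 + x.2) g = Σ_{x, y} p x q y [x + y = g] = Σ_x p x q (g - x)`.
`ent_conv` from `H_eq_ent` (Ldc.E1).  `sum_conv`, `conv_comm`, `conv_assoc`, `conv_dl`, `dl_conv`: finite sums
(substitute `x ↦ g - x`; `Equiv.subLeft`, `Equiv.subRight`, `Equiv.addRight`).
`conv_add_left`: linear in the first argument.
-/
namespace Pool.Agent.NPM
open Finset Pool.Agent.Ldc

variable {G : Type} [AddCommGroup G] [Fintype G]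

theorem conv_eq_pr (p q : G → ℝ) : conv p q = pr (pp p q) (fun x => x.1 + x.2) := by
  classical
  funext g
  unfold conv pr pe pp
  rw [Fintype.sum_prod_type]
  refine Finset.sum_congr rfl fun x _ => ?_
  rw [Finset.sum_eq_single (g - x)]
  · simp
  · intro b _ hb
    rw [if_neg]
    intro h
    apply hb
    rw [← h]
    simp
  · intro h
    exact absurd (Finset.mem_univ _) h

theorem ent_conv (p q : G → ℝ) : ent (conv p q) = H (pp p q) (fun x => x.1 + x.2) := by
  rw [H_eq_ent, conv_eq_pr]

theorem sum_conv (p q : G → ℝ) : ∑ g, conv p q g = (∑ g, p g) * ∑ g, q g := by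
  unfold conv
  rw [Finset.sum_comm, Finset.sum_mul]
  refine Finset.sum_congr rfl fun x _ => ?_
  rw [← Finset.mul_sum]
  congr 1
  exact Equiv.sum_comp (Equiv.subRight x) q

theorem conv_nonneg {p q : G → ℝ} (hp : ∀ x, 0 ≤ p x) (hq : ∀ x, 0 ≤ q x) (g : G) : 0 ≤ conv p q g :=
  Finset.sum_nonneg fun x _ => mul_nonneg (hp x) (hq _)

theorem conv_isP {p q : G → ℝ} (hp : IsP p) (hq : IsP q) : IsP (conv p q) := by
  refine ⟨fun g => conv_nonneg hp.1 hq.1 g, ?_⟩
  rw [sum_conv, hp.2, hq.2, one_mul]

theorem dl_isP : IsP (dl : G → ℝ) := by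
  classical
  refine ⟨fun g => ?_, ?_⟩
  · unfold dl
    split_ifs
    · exact zero_le_one
    · exact le_rfl
  · unfold dl
    rw [Finset.sum_ite_eq' Finset.univ (0 : G) (fun _ => (1 : ℝ))]
    simp

theorem conv_comm (p q : G → ℝ) : conv p q = conv q p := by
  funext g
  unfold conv
  rw [← Equiv.sum_comp (Equiv.subLeft g)]
  refine Finset.sum_congr rfl fun x _ => ?_
  simp only [Equiv.subLeft_apply, sub_sub_cancel]
  ring

theorem conv_assoc (p q r : G → ℝ) : conv (conv p q) r = conv p (conv q r) := by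
  funext g
  unfold conv
  simp only [Finset.sum_mul, Finset.mul_sum]
  rw [Finset.sum_comm]
  refine Finset.sum_congr rfl fun x _ => ?_
  rw [← Equiv.sum_comp (Equiv.addRight x)]
  refine Finset.sum_congr rfl fun y _ => ?_
  simp only [Equiv.coe_addRight, add_sub_cancel_right]
  have h : g - (y + x) = g - x - y := by abel
  rw [h]
  ring

theorem conv_dl (p : G → ℝ) : conv p dl = p := by
  classical
  funext g
  unfold conv dl
  rw [Finset.sum_eq_single g]
  · simp
  · intro b _ hb
    rw [if_neg (sub_ne_zero.2 (Ne.symm hb)), mul_zero]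
  · intro h
    exact absurd (Finset.mem_univ _) h

theorem dl_conv (p : G → ℝ) : conv dl p = p := by
  rw [conv_comm, conv_dl]

theorem conv_add_left (p p' q : G → ℝ) : conv (fun x => p x + p' x) q = fun g => conv p q g + conv p' q g := by
  funext g
  unfold conv
  rw [← Finset.sum_add_distrib]
  refine Finset.sum_congr rfl fun x _ => ?_
  ring

end Pool.Agent.NPM
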