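import Pool.Agent.NPM.Lft
set_option autoImplicit false

/-!
# Cht.  Integer coordinates (size 3).

`V = S → ℝ` (S coerced to a type), `α x : V`, `α x ξ = arg (ξ (x - x₀))`; for `x ∈ A1`: `|α x ξ| < π/4` (`arg_small`; `‖ξ g‖ = 1` is `AddChar.norm_apply`).
`Γ = AddSubgroup.closure (α '' A1) ≤ V` (or `Submodule.span ℤ`), finitely generated (`A1` finite) and torsion-free, hence free:
`Module.finBasisOfFiniteTorsionFree...` / `Module.Free` + `Module.Finite` give a basis `b : Basis (Fin d) ℤ Γ`.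
For every `v ∈ Γ` there is `g : G` with `∀ ξ ∈ S, ξ g = exp (i v ξ)`: closure induction (`g = x - x₀` for `v = α x`, `0`, sums, negatives).
Choose such `g_j` for `b j` and `θ = b.constr ℤ g : Γ →ₗ[ℤ] G`; then `ξ (θ v) = exp (i v ξ)` for all `v ∈ Γ`, `ξ ∈ S` (both sides are
homomorphisms `Γ → ℂˣ`-valued; check on the basis: `b.induction_on`/`b.sum_repr`, or `AddMonoidHom` ext on the basis).
So for `x ∈ A1` and `v = α x`: `ξ (x - x₀ - θ (α x)) = 1` for all `ξ ∈ S`, i.e. `x - x₀ - θ (α x) ∈ Ann S`.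
`z x = b.repr (α x)` as a function `Fin d → ℤ` for `x ∈ A1` (anything, e.g. `0`, otherwise), `f x = x - x₀ - θ (α x)` for `x ∈ A1` (`0` otherwise).
Eight points: `z`-equation iff `α`-equation iff (for every `ξ ∈ S`, `prod_eight` with `w_i = ξ (x_i - x₀)`) `ξ ((x1 + x2 - x3 - x4) - (x5 + x6 - x7 - x8)) = 1`
iff the difference is in `Ann S`.
Four points: if `a + b = c + d` then by the eight point statement (with `x5 = x6 = x7 = x8`) `z a + z b = z c + z d`, so `θ`-parts agree and `f a + f b = f c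
+ f d`; conversely `a + b - c - d = θ (α a + α b - α c - α d) + (f a + f b - f c - f d) = 0`.
-/
namespace Pool.Agent.NPM

variable {G : Type} [AddCommGroup G] [Fintype G]

private theorem cht_exp (S : Set (AddChar G ℂ)) (x₀ : G) (A1 : Finset G)
    (α : G → (S → ℝ)) (hα : ∀ x, ∀ ξ : S, α x ξ = (ξ.1 (x - x₀)).arg)
    (v : S → ℝ) (hv : v ∈ Submodule.span ℤ (α '' (A1 : Set G))) :
    ∃ g : G, ∀ ξ : S, ξ.1 g = Complex.exp ((v ξ : ℂ) * Complex.I) := by
  induction hv using Submodule.span_induction with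
  | mem v hv =>
    obtain ⟨x, -, rfl⟩ := hv
    refine ⟨x - x₀, fun ξ => ?_⟩
    rw [hα]
    have h1 : ‖ξ.1 (x - x₀)‖ = 1 := AddChar.norm_apply _ _
    have h2 := Complex.norm_mul_exp_arg_mul_I (ξ.1 (x - x₀))
    rw [h1] at h2
    simpa using h2.symm
  | zero =>
    refine ⟨0, fun ξ => ?_⟩
    simp
  | add v w _ _ hv hw =>
    obtain ⟨g, hg⟩ := hv
    obtain ⟨g', hg'⟩ := hw
    refine ⟨g + g', fun ξ => ?_⟩
    rw [AddChar.map_add_eq_mul, hg, hg', ← Complex.exp_add]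
    congr 1
    simp only [Pi.add_apply, Complex.ofReal_add]
    ring
  | smul n v _ hv =>
    obtain ⟨g, hg⟩ := hv
    refine ⟨n • g, fun ξ => ?_⟩
    rw [AddChar.map_zsmul_eq_zpow, hg, ← Complex.exp_int_mul]
    congr 1
    simp only [Pi.smul_apply, zsmul_eq_mul, Complex.ofReal_mul, Complex.ofReal_intCast]
    ring

theorem chart (S : Set (AddChar G ℂ)) (x₀ : G) (A1 : Finset G)
    (h : ∀ x ∈ A1, ∀ ξ ∈ S, ‖ξ (x - x₀) - 1‖ ^ 2 ≤ 2 / 35) :
    ∃ (d : ℕ) (z : G → Fin d → ℤ) (f : G → Ann S),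
      (∀ x1 ∈ A1, ∀ x2 ∈ A1, ∀ x3 ∈ A1, ∀ x4 ∈ A1, ∀ x5 ∈ A1, ∀ x6 ∈ A1, ∀ x7 ∈ A1, ∀ x8 ∈ A1,
        z x1 + z x2 - (z x3 + z x4) = z x5 + z x6 - (z x7 + z x8) ↔
          (x1 + x2 - (x3 + x4)) - (x5 + x6 - (x7 + x8)) ∈ Ann S) ∧
      (∀ a ∈ A1, ∀ b ∈ A1, ∀ c ∈ A1, ∀ d ∈ A1,
        (a + b = c + d ↔ z a + z b = z c + z d ∧ f a + f b = f c + f d)) := by
  classical
  set α : G → (S → ℝ) := fun x ξ => (ξ.1 (x - x₀)).arg with hαdef
  have hα : ∀ x, ∀ ξ : S, α x ξ = (ξ.1 (x - x₀)).arg := fun x ξ => rfl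
  set Γ : Submodule ℤ (S → ℝ) := Submodule.span ℤ (α '' (A1 : Set G)) with hΓ
  have hfin : Module.Finite ℤ Γ := by
    rw [Module.Finite.iff_fg]
    exact Submodule.fg_span (A1.finite_toSet.image α)
  have hfree : Module.Free ℤ Γ := inferInstance
  let b := Module.finBasis ℤ Γ
  have hex := cht_exp S x₀ A1 α hα
  choose g hg using fun j => hex (b j : S → ℝ) (b j).2
  let θ : Γ →ₗ[ℤ] G := b.constr ℤ g
  have hθ : ∀ v : Γ, ∀ ξ : S, ξ.1 (θ v) = Complex.exp (((v : S → ℝ) ξ : ℂ) * Complex.I) := by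
    intro v
    have hv : v ∈ Submodule.span ℤ (Set.range b) := by rw [b.span_eq]; trivial
    induction hv using Submodule.span_induction with
    | mem v hv =>
      obtain ⟨j, rfl⟩ := hv
      intro ξ
      have : θ (b j) = g j := by
        simp only [θ]
        exact b.constr_basis ℤ g j
      rw [this]
      exact hg j ξ
    | zero => intro ξ; simp
    | add v w _ _ hv hw =>
      intro ξ
      rw [map_add, AddChar.map_add_eq_mul, hv, hw, ← Complex.exp_add]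
      congr 1
      simp only [Submodule.coe_add, Pi.add_apply, Complex.ofReal_add]
      ring
    | smul n v _ hv =>
      intro ξ
      rw [map_smul, AddChar.map_zsmul_eq_zpow, hv, ← Complex.exp_int_mul]
      congr 1
      simp only [Submodule.coe_smul, Pi.smul_apply, zsmul_eq_mul, Complex.ofReal_mul,
        Complex.ofReal_intCast]
      ring
  have hmem : ∀ x ∈ A1, α x ∈ Γ := fun x hx => Submodule.subset_span ⟨x, hx, rfl⟩
  let Am : G → Γ := fun x => if hx : x ∈ A1 then ⟨α x, hmem x hx⟩ else 0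
  have hAm : ∀ x ∈ A1, ((Am x : Γ) : S → ℝ) = α x := by
    intro x hx
    simp only [Am, dif_pos hx]
  have hann : ∀ x ∈ A1, x - x₀ - θ (Am x) ∈ Ann S := by
    intro x hx ξ hξ
    have h1 : ξ (θ (Am x)) = ξ (x - x₀) := by
      have := hθ (Am x) ⟨ξ, hξ⟩
      rw [hAm x hx, hα] at this
      rw [this]
      have h1 : ‖ξ (x - x₀)‖ = 1 := AddChar.norm_apply _ _
      have h2 := Complex.norm_mul_exp_arg_mul_I (ξ (x - x₀))
      rw [h1] at h2
      simpa using h2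
    have h3 : ξ (x - x₀) ≠ 0 := by
      have h1 : ‖ξ (x - x₀)‖ = 1 := AddChar.norm_apply _ _
      intro h0
      rw [h0] at h1
      simp at h1
    rw [sub_eq_add_neg (x - x₀), AddChar.map_add_eq_mul, AddChar.map_neg_eq_inv, h1]
    exact mul_inv_cancel₀ h3
  let f : G → Ann S := fun x => if hx : x ∈ A1 then ⟨x - x₀ - θ (Am x), hann x hx⟩ else 0
  have hf : ∀ x ∈ A1, ((f x : Ann S) : G) = x - x₀ - θ (Am x) := by
    intro x hx
    simp only [f, dif_pos hx]
  have hz : ∀ x1 x2 x3 x4 x5 x6 x7 x8 : G,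
      b.equivFun (Am x1) + b.equivFun (Am x2) - (b.equivFun (Am x3) + b.equivFun (Am x4))
        = b.equivFun (Am x5) + b.equivFun (Am x6) - (b.equivFun (Am x7) + b.equivFun (Am x8)) ↔
      Am x1 + Am x2 - (Am x3 + Am x4) = Am x5 + Am x6 - (Am x7 + Am x8) := by
    intro x1 x2 x3 x4 x5 x6 x7 x8
    rw [← map_add, ← map_add, ← map_sub, ← map_add, ← map_add, ← map_sub]
    exact b.equivFun.injective.eq_iff
  have hz2 : ∀ x1 x2 x3 x4 : G,
      b.equivFun (Am x1) + b.equivFun (Am x2) = b.equivFun (Am x3) + b.equivFun (Am x4) ↔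
      Am x1 + Am x2 = Am x3 + Am x4 := by
    intro x1 x2 x3 x4
    rw [← map_add, ← map_add]
    exact b.equivFun.injective.eq_iff
  have harg : ∀ x ∈ A1, ∀ ξ : S, |(ξ.1 (x - x₀)).arg| < Real.pi / 4 := by
    intro x hx ξ
    exact arg_small _ (AddChar.norm_apply _ _) (h x hx ξ.1 ξ.2)
  have h8 : ∀ x1 ∈ A1, ∀ x2 ∈ A1, ∀ x3 ∈ A1, ∀ x4 ∈ A1, ∀ x5 ∈ A1, ∀ x6 ∈ A1, ∀ x7 ∈ A1,
      ∀ x8 ∈ A1,
      b.equivFun (Am x1) + b.equivFun (Am x2) - (b.equivFun (Am x3) + b.equivFun (Am x4))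
        = b.equivFun (Am x5) + b.equivFun (Am x6) - (b.equivFun (Am x7) + b.equivFun (Am x8)) ↔
      (x1 + x2 - (x3 + x4)) - (x5 + x6 - (x7 + x8)) ∈ Ann S := by
    intro x1 h1 x2 h2 x3 h3 x4 h4 x5 h5 x6 h6 x7 h7 x8 h8
    rw [hz, ← Subtype.coe_inj]
    have hcoe : (((Am x1 + Am x2 - (Am x3 + Am x4) : Γ) : S → ℝ)
        = ((Am x5 + Am x6 - (Am x7 + Am x8) : Γ) : S → ℝ)) ↔
        ∀ ξ : S, (α x1 ξ + α x2 ξ - α x3 ξ - α x4 ξ
          - (α x5 ξ + α x6 ξ - α x7 ξ - α x8 ξ)) = 0 := by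
      simp only [Submodule.coe_sub, Submodule.coe_add, hAm x1 h1, hAm x2 h2, hAm x3 h3, hAm x4 h4,
        hAm x5 h5, hAm x6 h6, hAm x7 h7, hAm x8 h8]
      rw [funext_iff]
      refine forall_congr' fun ξ => ?_
      simp only [Pi.sub_apply, Pi.add_apply]
      constructor
      · intro hh; linarith
      · intro hh; linarith
    have hmemA : ((x1 + x2 - (x3 + x4)) - (x5 + x6 - (x7 + x8)) ∈ Ann S) ↔
        ∀ ξ : S, ξ.1 ((x1 + x2 - (x3 + x4)) - (x5 + x6 - (x7 + x8))) = 1 := by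
      constructor
      · intro hh ξ
        exact hh ξ.1 ξ.2
      · intro hh ξ hξ
        exact hh ⟨ξ, hξ⟩
    rw [hcoe, hmemA]
    refine forall_congr' fun ξ => ?_
    have key := prod_eight ![ξ.1 (x1 - x₀), ξ.1 (x2 - x₀), ξ.1 (x3 - x₀), ξ.1 (x4 - x₀),
      ξ.1 (x5 - x₀), ξ.1 (x6 - x₀), ξ.1 (x7 - x₀), ξ.1 (x8 - x₀)]
      (by intro i; fin_cases i <;> exact AddChar.norm_apply _ _)
      (by
        intro i
        fin_cases i
        · exact harg x1 h1 ξ
        · exact harg x2 h2 ξ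
        · exact harg x3 h3 ξ
        · exact harg x4 h4 ξ
        · exact harg x5 h5 ξ
        · exact harg x6 h6 ξ
        · exact harg x7 h7 ξ
        · exact harg x8 h8 ξ)
    have e1 : ξ.1 ((x1 + x2 - (x3 + x4)) - (x5 + x6 - (x7 + x8)))
        = ξ.1 (x1 - x₀) * ξ.1 (x2 - x₀) / (ξ.1 (x3 - x₀) * ξ.1 (x4 - x₀))
          / (ξ.1 (x5 - x₀) * ξ.1 (x6 - x₀) / (ξ.1 (x7 - x₀) * ξ.1 (x8 - x₀))) := by
      rw [← AddChar.map_add_eq_mul, ← AddChar.map_add_eq_mul, ← AddChar.map_add_eq_mul,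
        ← AddChar.map_add_eq_mul, ← AddChar.map_sub_eq_div, ← AddChar.map_sub_eq_div,
        ← AddChar.map_sub_eq_div]
      congr 1
      abel
    rw [e1]
    exact key.symm
  refine ⟨Module.finrank ℤ Γ, fun x => b.equivFun (Am x), f, h8, ?_⟩
  intro p hp q hq r hr s hs
  have hfour : p + q = r + s → Am p + Am q = Am r + Am s := by
    intro he
    have := (h8 p hp q hq r hr s hs p hp p hp p hp p hp).2 (by
      rw [he, sub_self, sub_self, sub_self]
      exact (Ann S).zero_mem)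
    rw [hz, sub_self] at this
    exact sub_eq_zero.1 this
  constructor
  · intro he
    have hA := hfour he
    refine ⟨(hz2 p q r s).2 hA, ?_⟩
    apply Subtype.ext
    rw [AddSubgroup.coe_add, AddSubgroup.coe_add, hf p hp, hf q hq, hf r hr, hf s hs]
    have e2 : θ (Am p) + θ (Am q) = θ (Am r) + θ (Am s) := by
      rw [← map_add, ← map_add, hA]
    have e3 : p - x₀ - θ (Am p) + (q - x₀ - θ (Am q))
        = (p + q) - x₀ - x₀ - (θ (Am p) + θ (Am q)) := by abel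
    have e4 : r - x₀ - θ (Am r) + (s - x₀ - θ (Am s))
        = (r + s) - x₀ - x₀ - (θ (Am r) + θ (Am s)) := by abel
    rw [e3, e4, e2, he]
  · rintro ⟨h1, h2⟩
    have hA := (hz2 p q r s).1 h1
    have e2 : θ (Am p) + θ (Am q) = θ (Am r) + θ (Am s) := by
      rw [← map_add, ← map_add, hA]
    have h3 := congrArg (fun u : Ann S => (u : G)) h2
    simp only [AddSubgroup.coe_add, hf p hp, hf q hq, hf r hr, hf s hs] at h3
    have e3 : p - x₀ - θ (Am p) + (q - x₀ - θ (Am q))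
        = (p + q) - (x₀ + x₀ + (θ (Am p) + θ (Am q))) := by abel
    have e4 : r - x₀ - θ (Am r) + (s - x₀ - θ (Am s))
        = (r + s) - (x₀ + x₀ + (θ (Am r) + θ (Am s))) := by abel
    rw [e3, e4, e2] at h3
    exact sub_left_injective h3

end Pool.Agent.NPM
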