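import Pool.Agent.NPM.Defs
set_option autoImplicit false

/-!
# Cnt.  Counting cosets (size 2).

`D = (B + B) - (B + B)`, `B = A1.image z`.  For `γ ∈ D` choose `x1..x4 ∈ A1` with `z x1 + z x2 - (z x3 + z x4) = γ`, and let `T γ` be the image of
`A.filter (a - x1 ∈ F)` under `a ↦ a + x2 - (x3 + x4)`; it is a subset of `(A + A) - (A + A)`, has at least `|F|/Q` elements, and lies in the coset of
`x1 + x2 - (x3 + x4)` modulo `F`.  By `hz` different `γ` have different cosets, so the `T γ` are disjoint: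
`|D| |F|/Q ≤ |(A + A) - (A + A)| ≤ K^4 |A|` (`Finset.pluennecke_ruzsa_inequality_nsmul_sub_nsmul_add hA A 2 2`, `2 • A = A + A`; see
`dbl_of_doubling` in `Pool/Agent/WPF/FinModel.lean` for the casts).
-/
namespace Pool.Agent.NPM
open scoped Pointwise

variable {G : Type} [AddCommGroup G] [Fintype G]

open Classical in
private theorem Cnt_pr (A : Finset G) (hA : A.Nonempty) (K : ℝ)
    (hK : ((A + A).card : ℝ) ≤ K * (A.card : ℝ)) :
    (((A + A) - (A + A)).card : ℝ) ≤ K ^ 4 * (A.card : ℝ) := by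
  have h := Finset.pluennecke_ruzsa_inequality_nsmul_sub_nsmul_add hA A 2 2
  rw [two_nsmul] at h
  have h' : (((A + A) - (A + A)).card : ℝ) ≤ (((A + A).card : ℝ) / (A.card : ℝ)) ^ (2 + 2) * (A.card : ℝ) := by
    have h2 := (NNRat.cast_le (K := ℝ)).2 h
    push_cast at h2
    exact h2
  have hpos : (0 : ℝ) < (A.card : ℝ) := by exact_mod_cast hA.card_pos
  have hq : ((A + A).card : ℝ) / (A.card : ℝ) ≤ K := by
    rw [div_le_iff₀ hpos]; exact hK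
  refine h'.trans ?_
  have h0 : (0 : ℝ) ≤ ((A + A).card : ℝ) / (A.card : ℝ) := by positivity
  gcongr

open Classical in
theorem count (A : Finset G) (hA : A.Nonempty) (K : ℝ) (hK1 : 1 ≤ K)
    (hK : ((A + A).card : ℝ) ≤ K * (A.card : ℝ)) (F : AddSubgroup G) (Q : ℝ) (hQ : 0 < Q)
    (A1 : Finset G) (hA1 : A1 ⊆ A)
    (hF : ∀ x ∈ A1, (Nat.card F : ℝ) ≤ Q * ((A.filter (fun a => a - x ∈ F)).card : ℝ))
    (d : ℕ) (z : G → Fin d → ℤ)
    (hz : ∀ x1 ∈ A1, ∀ x2 ∈ A1, ∀ x3 ∈ A1, ∀ x4 ∈ A1, ∀ x5 ∈ A1, ∀ x6 ∈ A1, ∀ x7 ∈ A1, ∀ x8 ∈ A1,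
        z x1 + z x2 - (z x3 + z x4) = z x5 + z x6 - (z x7 + z x8) ↔
          (x1 + x2 - (x3 + x4)) - (x5 + x6 - (x7 + x8)) ∈ F) :
    ((((A1.image z) + (A1.image z)) - ((A1.image z) + (A1.image z))).card : ℝ) * (Nat.card F : ℝ)
      ≤ Q * (K ^ 4 * (A.card : ℝ)) := by
  set D := ((A1.image z) + (A1.image z)) - ((A1.image z) + (A1.image z)) with hD
  have hch : ∀ γ ∈ D, ∃ x1 ∈ A1, ∃ x2 ∈ A1, ∃ x3 ∈ A1, ∃ x4 ∈ A1,
      z x1 + z x2 - (z x3 + z x4) = γ := by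
    intro γ hγ
    rw [hD, Finset.mem_sub] at hγ
    obtain ⟨a, ha, b, hb, rfl⟩ := hγ
    rw [Finset.mem_add] at ha hb
    obtain ⟨a1, ha1, a2, ha2, rfl⟩ := ha
    obtain ⟨b1, hb1, b2, hb2, rfl⟩ := hb
    rw [Finset.mem_image] at ha1 ha2 hb1 hb2
    obtain ⟨x1, h1, rfl⟩ := ha1
    obtain ⟨x2, h2, rfl⟩ := ha2
    obtain ⟨x3, h3, rfl⟩ := hb1
    obtain ⟨x4, h4, rfl⟩ := hb2
    exact ⟨x1, h1, x2, h2, x3, h3, x4, h4, rfl⟩
  choose! x1 h1 x2 h2 x3 h3 x4 h4 hx using hch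
  let T : (Fin d → ℤ) → Finset G := fun γ =>
    (A.filter (fun a => a - x1 γ ∈ F)).image (fun a => a + x2 γ - (x3 γ + x4 γ))
  have hTcard : ∀ γ, (T γ).card = (A.filter (fun a => a - x1 γ ∈ F)).card := by
    intro γ
    apply Finset.card_image_of_injective
    intro a b hab
    simpa using hab
  have hTdis : ∀ γ ∈ D, ∀ δ ∈ D, γ ≠ δ → Disjoint (T γ) (T δ) := by
    intro γ hγ δ hδ hne
    rw [Finset.disjoint_left]
    intro w hw hw'
    simp only [T, Finset.mem_image, Finset.mem_filter] at hw hw'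
    obtain ⟨a, ⟨haA, haF⟩, ha⟩ := hw
    obtain ⟨b, ⟨hbA, hbF⟩, hb⟩ := hw'
    apply hne
    rw [← hx γ hγ, ← hx δ hδ]
    rw [hz _ (h1 γ hγ) _ (h2 γ hγ) _ (h3 γ hγ) _ (h4 γ hγ) _ (h1 δ hδ) _ (h2 δ hδ) _ (h3 δ hδ) _ (h4 δ hδ)]
    have : (x1 γ + x2 γ - (x3 γ + x4 γ)) - (x1 δ + x2 δ - (x3 δ + x4 δ)) = (b - x1 δ) - (a - x1 γ) := by
      have e : a + x2 γ - (x3 γ + x4 γ) = b + x2 δ - (x3 δ + x4 δ) := ha.trans hb.symm
      have e2 : (x1 γ + x2 γ - (x3 γ + x4 γ)) - (x1 δ + x2 δ - (x3 δ + x4 δ)) =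
        (a + x2 γ - (x3 γ + x4 γ)) - (b + x2 δ - (x3 δ + x4 δ)) + ((b - x1 δ) - (a - x1 γ)) := by abel
      rw [e2, e, sub_self, zero_add]
    rw [this]
    exact F.sub_mem hbF haF
  have hTsub : D.biUnion T ⊆ (A + A) - (A + A) := by
    intro w hw
    rw [Finset.mem_biUnion] at hw
    obtain ⟨γ, hγ, hw⟩ := hw
    simp only [T, Finset.mem_image, Finset.mem_filter] at hw
    obtain ⟨a, ⟨haA, haF⟩, rfl⟩ := hw
    exact Finset.sub_mem_sub (Finset.add_mem_add haA (hA1 (h2 γ hγ)))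
      (Finset.add_mem_add (hA1 (h3 γ hγ)) (hA1 (h4 γ hγ)))
  have hcard : (∑ γ ∈ D, ((T γ).card : ℝ)) ≤ K ^ 4 * (A.card : ℝ) := by
    rw [← Nat.cast_sum, ← Finset.card_biUnion hTdis]
    refine le_trans ?_ (Cnt_pr A hA K hK)
    exact_mod_cast Finset.card_le_card hTsub
  calc (D.card : ℝ) * (Nat.card F : ℝ) = ∑ γ ∈ D, (Nat.card F : ℝ) := by
        rw [Finset.sum_const, nsmul_eq_mul]
    _ ≤ ∑ γ ∈ D, Q * ((T γ).card : ℝ) := by
        apply Finset.sum_le_sum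
        intro γ hγ
        rw [hTcard]
        exact hF _ (h1 γ hγ)
    _ = Q * ∑ γ ∈ D, ((T γ).card : ℝ) := by rw [Finset.mul_sum]
    _ ≤ Q * (K ^ 4 * (A.card : ℝ)) := mul_le_mul_of_nonneg_left hcard hQ.le

end Pool.Agent.NPM
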