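import Mathlib
set_option autoImplicit false

/-!
# Mdl.  Weighted Ruzsa model lemma in `ℤ^d` (size 3; may be split as below).

`D = (B + B) - (B + B)`, `N = 2 |D|`, `0 ∈ D`.  Choose a prime `p > N ^ 2` larger than `|v i|` for all `v ∈ D`, `i : Fin d` (so a nonzero `v ∈ D` is
nonzero in `(Fin d → ZMod p)`).  For `c : Fin d → ZMod p` put `φ_c v = Σ c i * (v i : ZMod p)`.
`fib`: for nonzero `w : Fin d → ZMod p` and `r : ZMod p`, `#{c | Σ c i * w i = r} * p = p ^ d` (the additive map `c ↦ Σ c i w i` is onto `ZMod p`, all its fibres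
have the same size: `AddMonoidHom.card_fiber_eq_of_mem_range` or a direct bijection).
Call `r : ZMod p` bad if there is an integer `m`, `|m| < p`, `N ∣ m`, `(m : ZMod p) = r`: at most `2 ((p-1)/N) + 1` bad residues (integers `m = N j`, `|j| ≤ (p-1)/N`).
Number of `c` with `φ_c v` bad for some nonzero `v ∈ D`: `≤ (|D| - 1) (2(p-1)/N + 1) p^(d-1) < p^d`, since
`(N/2 - 1)(2(p-1)/N + 1) ≤ (p - 1) + N/2 - 2(p-1)/N < p` for `p > N²`.  (If `d = 0` or `D = {0}` there is nothing to exclude.)  Fix a good `c`.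
`val b = (φ_c b).val ∈ [0, p)`.  Split `B` by `2 val b < p` or not; `B1` = the part with the larger total weight.
`ψ b = (val b : ZMod N)`.  For `b1..b4 ∈ B1`, `m = val b1 + val b2 - val b3 - val b4` has `|m| < p` (all in the same half) and
`(m : ZMod p) = φ_c (b1 + b2 - b3 - b4)`.  If `b1 + b2 = b3 + b4`: `p ∣ m`, so `m = 0` and the `ψ` equation holds.  Conversely the `ψ` equation
says `N ∣ m`; so `φ_c v` is bad for `v = b1 + b2 - b3 - b4 ∈ D`, so `v = 0`.
-/
namespace Pool.Agent.NPM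
open scoped Pointwise

theorem model_fib (p : ℕ) [Fact p.Prime] (d : ℕ) (w : Fin d → ZMod p) (hw : w ≠ 0) (r : ZMod p) :
    (Finset.univ.filter (fun c : Fin d → ZMod p => ∑ i, c i * w i = r)).card * p = p ^ d := by
  classical
  let f : (Fin d → ZMod p) →+ ZMod p :=
    { toFun := fun c => ∑ i, c i * w i
      map_zero' := by simp
      map_add' := by
        intro x y
        simp only [Pi.add_apply, add_mul, Finset.sum_add_distrib] }
  have hf : ∀ c, f c = ∑ i, c i * w i := fun _ => rfl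
  have hsurj : ∀ s : ZMod p, s ∈ Set.range f := by
    intro s
    obtain ⟨i, hi⟩ := Function.ne_iff.1 hw
    have hi' : w i ≠ 0 := hi
    refine ⟨Pi.single i (s * (w i)⁻¹), ?_⟩
    rw [hf, Finset.sum_eq_single i]
    · rw [Pi.single_eq_same, mul_assoc, inv_mul_cancel₀ hi', mul_one]
    · intro j _ hj
      rw [Pi.single_eq_of_ne hj, zero_mul]
    · intro h
      exact absurd (Finset.mem_univ i) h
  have hcard : (Finset.univ : Finset (Fin d → ZMod p)).card = p ^ d := by
    rw [Finset.card_univ, Fintype.card_fun, ZMod.card, Fintype.card_fin]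
  have hsum : (Finset.univ : Finset (Fin d → ZMod p)).card
      = ∑ s ∈ (Finset.univ : Finset (ZMod p)),
        (Finset.univ.filter (fun c : Fin d → ZMod p => f c = s)).card :=
    Finset.card_eq_sum_card_fiberwise (fun _ _ => Finset.mem_coe.2 (Finset.mem_univ _))
  have hconst : ∀ s ∈ (Finset.univ : Finset (ZMod p)),
      (Finset.univ.filter (fun c : Fin d → ZMod p => f c = s)).card
        = (Finset.univ.filter (fun c : Fin d → ZMod p => f c = r)).card := by
    intro s _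
    exact AddMonoidHom.card_fiber_eq_of_mem_range f (hsurj s) (hsurj r)
  rw [hcard, Finset.sum_congr rfl hconst, Finset.sum_const, Finset.card_univ, ZMod.card,
    smul_eq_mul] at hsum
  rw [hsum, mul_comm]
  rfl

private theorem model_num (n p K : ℕ) (hn : 1 ≤ n) (hp : (2 * n) ^ 2 < p)
    (hK : K = (p - 1) / (2 * n)) : (n - 1) * (2 * K + 1) < p := by
  have h1 : 2 * n * K ≤ p - 1 := by
    rw [hK]
    exact Nat.mul_div_le _ _
  have h2 : n ≤ K := by
    rw [hK, Nat.le_div_iff_mul_le (by omega)]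
    have h3 : n * (2 * n) ≤ (2 * n) ^ 2 := by nlinarith
    exact le_trans h3 (Nat.le_sub_one_of_lt hp)
  obtain ⟨k, rfl⟩ : ∃ k, n = k + 1 := ⟨n - 1, by omega⟩
  have hp1 : 1 ≤ p := by omega
  obtain ⟨q, rfl⟩ : ∃ q, p = q + 1 := ⟨p - 1, by omega⟩
  simp only [Nat.add_sub_cancel] at *
  nlinarith

private theorem model_good (p d : ℕ) [Fact p.Prime] (D : Finset (Fin d → ℤ))
    (h0 : (0 : Fin d → ℤ) ∈ D) (hp : (2 * D.card) ^ 2 < p)
    (hne : ∀ v ∈ D, v ≠ 0 → (fun i => ((v i : ℤ) : ZMod p)) ≠ 0) :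
    ∃ c : Fin d → ZMod p, ∀ v ∈ D, v ≠ 0 → ∀ m : ℤ, |m| < p → ((2 * D.card : ℕ) : ℤ) ∣ m →
      ((m : ℤ) : ZMod p) ≠ ∑ i, c i * ((v i : ℤ) : ZMod p) := by
  classical
  have hn : 1 ≤ D.card := Finset.card_pos.2 ⟨0, h0⟩
  set N : ℕ := 2 * D.card with hN
  set K : ℕ := (p - 1) / N with hK
  set J : Finset (ZMod p) := (Finset.Icc (-(K : ℤ)) K).image (fun j : ℤ => (((N : ℤ) * j : ℤ) : ZMod p))
    with hJ
  have hJc : J.card ≤ 2 * K + 1 := by
    refine le_trans Finset.card_image_le ?_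
    rw [Int.card_Icc]
    omega
  have hpp : 0 < p := (Fact.out : p.Prime).pos
  -- the bad vectors
  have hbad : ∀ v ∈ D.erase 0,
      (Finset.univ.filter (fun c : Fin d → ZMod p =>
        ∑ i, c i * ((v i : ℤ) : ZMod p) ∈ J)).card * p ≤ (2 * K + 1) * p ^ d := by
    intro v hv
    rw [Finset.mem_erase] at hv
    have hw := hne v hv.2 hv.1
    have h1 : (Finset.univ.filter (fun c : Fin d → ZMod p =>
        ∑ i, c i * ((v i : ℤ) : ZMod p) ∈ J)).card
        = ∑ r ∈ J, (Finset.univ.filter (fun c : Fin d → ZMod p =>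
            ∑ i, c i * ((v i : ℤ) : ZMod p) = r)).card := by
      rw [Finset.card_eq_sum_card_fiberwise (f := fun c : Fin d → ZMod p =>
        ∑ i, c i * ((v i : ℤ) : ZMod p)) (t := J)]
      · refine Finset.sum_congr rfl ?_
        intro r hr
        congr 1
        ext c
        simp only [Finset.mem_filter, Finset.mem_univ, true_and]
        constructor
        · intro h
          exact h.2
        · intro h
          exact ⟨by rw [h]; exact hr, h⟩
      · intro c hc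
        simpa using hc
    rw [h1, Finset.sum_mul]
    have h2 : ∀ r ∈ J, (Finset.univ.filter (fun c : Fin d → ZMod p =>
        ∑ i, c i * ((v i : ℤ) : ZMod p) = r)).card * p = p ^ d := by
      intro r _
      exact model_fib p d (fun i => ((v i : ℤ) : ZMod p)) hw r
    rw [Finset.sum_congr rfl h2, Finset.sum_const, smul_eq_mul]
    exact Nat.mul_le_mul_right _ hJc
  have htot : ((D.erase 0).biUnion (fun v => Finset.univ.filter (fun c : Fin d → ZMod p =>
        ∑ i, c i * ((v i : ℤ) : ZMod p) ∈ J))).card * p < p ^ d * p := by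
    have h1 : ((D.erase 0).biUnion (fun v => Finset.univ.filter (fun c : Fin d → ZMod p =>
        ∑ i, c i * ((v i : ℤ) : ZMod p) ∈ J))).card * p
        ≤ ∑ v ∈ D.erase 0, (2 * K + 1) * p ^ d := by
      refine le_trans (Nat.mul_le_mul_right _ Finset.card_biUnion_le) ?_
      rw [Finset.sum_mul]
      exact Finset.sum_le_sum hbad
    rw [Finset.sum_const, Finset.card_erase_of_mem h0, smul_eq_mul, ← mul_assoc] at h1
    refine lt_of_le_of_lt h1 ?_
    rw [mul_comm (p ^ d) p]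
    exact Nat.mul_lt_mul_of_pos_right (model_num D.card p K hn hp hK) (pow_pos hpp d)
  have hlt : ((D.erase 0).biUnion (fun v => Finset.univ.filter (fun c : Fin d → ZMod p =>
        ∑ i, c i * ((v i : ℤ) : ZMod p) ∈ J))).card
        < (Finset.univ : Finset (Fin d → ZMod p)).card := by
    rw [Finset.card_univ, Fintype.card_fun, ZMod.card, Fintype.card_fin]
    exact lt_of_mul_lt_mul_right htot (Nat.zero_le p)
  obtain ⟨c, -, hc⟩ := Finset.exists_mem_notMem_of_card_lt_card hlt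
  refine ⟨c, ?_⟩
  intro v hv hv0 m hm hd he
  apply hc
  rw [Finset.mem_biUnion]
  refine ⟨v, Finset.mem_erase.2 ⟨hv0, hv⟩, ?_⟩
  rw [Finset.mem_filter]
  refine ⟨Finset.mem_univ _, ?_⟩
  rw [← he, hJ, Finset.mem_image]
  obtain ⟨j, rfl⟩ := hd
  refine ⟨j, ?_, rfl⟩
  have hNp : 0 < (N : ℤ) := by
    have : 0 < N := by omega
    exact_mod_cast this
  have habs : (N : ℤ) * |j| ≤ (p : ℤ) - 1 := by
    have : |(N : ℤ) * j| = (N : ℤ) * |j| := by rw [abs_mul, abs_of_pos hNp]
    rw [this] at hm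
    linarith [Int.lt_iff_add_one_le.1 hm]
  have hj : |j| ≤ (K : ℤ) := by
    have h1 : N * j.natAbs ≤ p - 1 := by
      have : ((N * j.natAbs : ℕ) : ℤ) ≤ ((p - 1 : ℕ) : ℤ) := by
        push_cast [Nat.cast_sub (show 1 ≤ p by omega)]
        exact habs
      exact_mod_cast this
    have h2 : j.natAbs ≤ K := by
      rw [hK, Nat.le_div_iff_mul_le (by omega), mul_comm]
      exact h1
    rw [Int.abs_eq_natAbs]
    exact_mod_cast h2
  rw [Finset.mem_Icc]
  exact abs_le.1 hj

theorem model (d : ℕ) (B : Finset (Fin d → ℤ)) (hB : B.Nonempty) (ω : (Fin d → ℤ) → ℝ)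
    (hω : ∀ b, 0 ≤ ω b) :
    ∃ (B1 : Finset (Fin d → ℤ)) (ψ : (Fin d → ℤ) → ZMod (2 * ((B + B) - (B + B)).card)),
      B1 ⊆ B ∧ ∑ b ∈ B, ω b ≤ 2 * ∑ b ∈ B1, ω b ∧
      ∀ b1 ∈ B1, ∀ b2 ∈ B1, ∀ b3 ∈ B1, ∀ b4 ∈ B1,
        (b1 + b2 = b3 + b4 ↔ ψ b1 + ψ b2 = ψ b3 + ψ b4) := by
  classical
  set D := (B + B) - (B + B) with hD
  have h0 : (0 : Fin d → ℤ) ∈ D := by
    obtain ⟨b, hb⟩ := hB
    have := Finset.sub_mem_sub (Finset.add_mem_add hb hb) (Finset.add_mem_add hb hb)
    rwa [sub_self] at this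
  obtain ⟨p, hpge, hpp⟩ := Nat.exists_infinite_primes
    ((2 * D.card) ^ 2 + ∑ v ∈ D, ∑ i, (v i).natAbs + 1)
  have : Fact p.Prime := ⟨hpp⟩
  have hne : ∀ v ∈ D, v ≠ 0 → (fun i => ((v i : ℤ) : ZMod p)) ≠ 0 := by
    intro v hv hv0 h
    obtain ⟨i, hi⟩ := Function.ne_iff.1 hv0
    have hi' : v i ≠ 0 := hi
    have h1 : ((v i : ℤ) : ZMod p) = 0 := congrFun h i
    rw [ZMod.intCast_zmod_eq_zero_iff_dvd] at h1
    have h2 := Int.le_of_dvd (abs_pos.2 hi') ((dvd_abs _ _).2 h1)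
    have h3 : (v i).natAbs ≤ ∑ v ∈ D, ∑ i, (v i).natAbs := by
      refine le_trans (Finset.single_le_sum (f := fun i => (v i).natAbs)
        (fun _ _ => Nat.zero_le _) (Finset.mem_univ i)) ?_
      exact Finset.single_le_sum (f := fun v : Fin d → ℤ => ∑ i, (v i).natAbs)
        (fun _ _ => Nat.zero_le _) hv
    rw [Int.abs_eq_natAbs] at h2
    have h4 : p ≤ (v i).natAbs := by exact_mod_cast h2
    omega
  obtain ⟨c, hc⟩ := model_good p d D h0 (by omega) hne
  set φ : (Fin d → ℤ) → ZMod p := fun v => ∑ i, c i * ((v i : ℤ) : ZMod p) with hφ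
  have hadd : ∀ x y, φ (x + y) = φ x + φ y := by
    intro x y
    simp only [hφ, Pi.add_apply, Int.cast_add, mul_add, Finset.sum_add_distrib]
  have hsub : ∀ x y, φ (x - y) = φ x - φ y := by
    intro x y
    simp only [hφ, Pi.sub_apply, Int.cast_sub, mul_sub, Finset.sum_sub_distrib]
  have hval : ∀ x, (((φ x).val : ℤ) : ZMod p) = φ x := by
    intro x
    rw [Int.cast_natCast, ZMod.natCast_zmod_val]
  have hvlt : ∀ x, (φ x).val < p := fun x => ZMod.val_lt _
  -- the equivalence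
  have key : ∀ B1 ⊆ B, (∀ b1 ∈ B1, ∀ b2 ∈ B1, ∀ b3 ∈ B1, ∀ b4 ∈ B1,
      |((φ b1).val : ℤ) + (φ b2).val - ((φ b3).val + (φ b4).val)| < p) →
      ∀ b1 ∈ B1, ∀ b2 ∈ B1, ∀ b3 ∈ B1, ∀ b4 ∈ B1,
        (b1 + b2 = b3 + b4 ↔
          (((φ b1).val : ℕ) : ZMod (2 * D.card)) + (((φ b2).val : ℕ) : ZMod (2 * D.card))
            = (((φ b3).val : ℕ) : ZMod (2 * D.card)) + (((φ b4).val : ℕ) : ZMod (2 * D.card))) := by
    intro B1 hB1 hm b1 hb1 b2 hb2 b3 hb3 b4 hb4
    have hmm := hm b1 hb1 b2 hb2 b3 hb3 b4 hb4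
    set m : ℤ := ((φ b1).val : ℤ) + (φ b2).val - ((φ b3).val + (φ b4).val) with hmdef
    have hcast : ((m : ℤ) : ZMod p) = φ (b1 + b2 - (b3 + b4)) := by
      rw [hsub, hadd, hadd, hmdef, Int.cast_sub, Int.cast_add, Int.cast_add, hval, hval, hval,
        hval]
    constructor
    · intro h
      have h1 : ((m : ℤ) : ZMod p) = 0 := by
        rw [hcast, h, sub_self]
        simp [hφ]
      rw [ZMod.intCast_zmod_eq_zero_iff_dvd] at h1
      have h2 : m = 0 := Int.eq_zero_of_abs_lt_dvd h1 hmm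
      have h3 : (φ b1).val + (φ b2).val = (φ b3).val + (φ b4).val := by omega
      rw [← Nat.cast_add, ← Nat.cast_add, h3]
    · intro h
      by_contra hne'
      have hv0 : b1 + b2 - (b3 + b4) ≠ 0 := fun h' => hne' (sub_eq_zero.1 h')
      have hv : b1 + b2 - (b3 + b4) ∈ D :=
        Finset.sub_mem_sub (Finset.add_mem_add (hB1 hb1) (hB1 hb2))
          (Finset.add_mem_add (hB1 hb3) (hB1 hb4))
      have hdv : ((2 * D.card : ℕ) : ℤ) ∣ m := by
        have : ((m : ℤ) : ZMod (2 * D.card)) = 0 := by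
          rw [hmdef]
          push_cast
          rw [sub_eq_zero]
          exact h
        exact (ZMod.intCast_zmod_eq_zero_iff_dvd m (2 * D.card)).1 this
      exact hc _ hv hv0 m hmm hdv hcast
  set Lo := B.filter (fun b => 2 * (φ b).val < p) with hLo
  set Hi := B.filter (fun b => ¬ 2 * (φ b).val < p) with hHi
  have hsum : ∑ b ∈ B, ω b = ∑ b ∈ Lo, ω b + ∑ b ∈ Hi, ω b :=
    (Finset.sum_filter_add_sum_filter_not B _ _).symm
  have kLo := key Lo (Finset.filter_subset _ _) (by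
    intro b1 h1 b2 h2 b3 h3 b4 h4
    rw [hLo, Finset.mem_filter] at h1 h2 h3 h4
    have := h1.2; have := h2.2; have := h3.2; have := h4.2
    rw [abs_lt]
    omega)
  have kHi := key Hi (Finset.filter_subset _ _) (by
    intro b1 h1 b2 h2 b3 h3 b4 h4
    rw [hHi, Finset.mem_filter] at h1 h2 h3 h4
    have := h1.2; have := h2.2; have := h3.2; have := h4.2
    have := hvlt b1; have := hvlt b2; have := hvlt b3; have := hvlt b4
    rw [abs_lt]
    omega)
  by_cases hcmp : ∑ b ∈ Hi, ω b ≤ ∑ b ∈ Lo, ω b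
  · refine ⟨Lo, fun b => (((φ b).val : ℕ) : ZMod (2 * D.card)), Finset.filter_subset _ _, ?_, kLo⟩
    rw [hsum]
    linarith
  · push Not at hcmp
    refine ⟨Hi, fun b => (((φ b).val : ℕ) : ZMod (2 * D.card)), Finset.filter_subset _ _, ?_, kHi⟩
    rw [hsum]
    linarith

end Pool.Agent.NPM
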