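import Pool.Agent.NPM.Cht
import Pool.Agent.NPM.Mdl
import Pool.Agent.NPM.Cnt
set_option autoImplicit false

/-!
# Cmb.  The combinatorial part (size 2).

`chart`: `d, z, f`.  `B = A1.image z`, `ω b = #{x ∈ A1 : z x = b}`, `model`: `B1, ψ`.  `A2 = {x ∈ A1 : z x ∈ B1}`:
`|A1| = Σ_{b ∈ B} ω b ≤ 2 Σ_{b ∈ B1} ω b = 2 |A2|` (`Finset.card_eq_sum_card_fiberwise`).
`H = ZMod N × Ann S`, `N = 2 |(B+B) - (B+B)| > 0`, map `x ↦ (ψ (z x), f x)`, `|H| = N |Ann S| ≤ 2 Q K^4 |A|` (`count`; `Fintype` by `Fintype.ofFinite`,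
`Nat.card_prod`, `Nat.card_zmod`).
-/
namespace Pool.Agent.NPM
open scoped Pointwise

variable {G : Type} [AddCommGroup G] [Fintype G]

open Classical in
theorem combi (A : Finset G) (hA : A.Nonempty) (K : ℝ) (hK1 : 1 ≤ K)
    (hK : ((A + A).card : ℝ) ≤ K * (A.card : ℝ)) (S : Set (AddChar G ℂ)) (x₀ : G) (Q : ℝ) (hQ : 0 < Q)
    (A1 : Finset G) (hA1 : A1 ⊆ A) (hne : A1.Nonempty)
    (h : ∀ x ∈ A1, ∀ ξ ∈ S, ‖ξ (x - x₀) - 1‖ ^ 2 ≤ 2 / 35)
    (hF : ∀ x ∈ A1, (Nat.card (Ann S) : ℝ) ≤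
      Q * ((A.filter (fun a => a - x ∈ Ann S)).card : ℝ)) :
    ∃ A2 : Finset G, A2 ⊆ A1 ∧ (A1.card : ℝ) ≤ 2 * (A2.card : ℝ) ∧
      ∃ (H : Type) (_ : AddCommGroup H) (_ : Fintype H) (f : G → H),
        (Fintype.card H : ℝ) ≤ 2 * Q * K ^ 4 * (A.card : ℝ) ∧
        ∀ a ∈ A2, ∀ b ∈ A2, ∀ c ∈ A2, ∀ d ∈ A2, (a + b = c + d ↔ f a + f b = f c + f d) := by
  obtain ⟨d, z, f, hz, hf⟩ := chart S x₀ A1 h
  set B : Finset (Fin d → ℤ) := A1.image z with hB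
  have hBne : B.Nonempty := hne.image z
  set ω : (Fin d → ℤ) → ℝ := fun b => ((A1.filter (fun x => z x = b)).card : ℝ) with hω
  obtain ⟨N, hN⟩ : ∃ N : ℕ, N = 2 * ((B + B) - (B + B)).card := ⟨_, rfl⟩
  have hmodel := model d B hBne ω (fun b => Nat.cast_nonneg _)
  rw [← hN] at hmodel
  obtain ⟨B1, ψ, hB1, hsum, hψ⟩ := hmodel
  set A2 : Finset G := A1.filter (fun x => z x ∈ B1) with hA2
  have e1 : (A1.card : ℝ) = ∑ b ∈ B, ω b := by
    have h1 : A1.card = ∑ b ∈ B, (A1.filter (fun x => z x = b)).card :=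
      Finset.card_eq_sum_card_fiberwise (fun a ha => Finset.mem_coe.2
        (Finset.mem_image_of_mem z (Finset.mem_coe.1 ha)))
    rw [h1]
    push_cast
    rfl
  have e2 : (A2.card : ℝ) = ∑ b ∈ B1, ω b := by
    have h1 : A2.card = ∑ b ∈ B1, (A2.filter (fun x => z x = b)).card :=
      Finset.card_eq_sum_card_fiberwise (fun a ha => Finset.mem_coe.2
        (Finset.mem_filter.1 (Finset.mem_coe.1 ha)).2)
    rw [h1]
    push_cast
    refine Finset.sum_congr rfl (fun b hb => ?_)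
    rw [hω]
    congr 2
    ext x
    simp only [hA2, Finset.mem_filter]
    constructor
    · rintro ⟨⟨h1, _⟩, h3⟩
      exact ⟨h1, h3⟩
    · rintro ⟨h1, h3⟩
      exact ⟨⟨h1, by rw [h3]; exact hb⟩, h3⟩
  have hcount := count A hA K hK1 hK (Ann S) Q hQ A1 hA1 hF d z hz
  rw [← hB] at hcount
  have hNpos : 0 < N := by
    have : 0 < ((B + B) - (B + B)).card := ((hBne.add hBne).sub (hBne.add hBne)).card_pos
    omega
  have hNe : NeZero N := ⟨hNpos.ne'⟩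
  refine ⟨A2, Finset.filter_subset _ _, ?_, ZMod N × Ann S, inferInstance, Fintype.ofFinite _,
    fun x => (ψ (z x), f x), ?_, ?_⟩
  · rw [e1, e2]
    exact hsum
  · have hc : @Fintype.card (ZMod N × Ann S) (Fintype.ofFinite _) = N * Nat.card (Ann S) := by
      rw [← @Nat.card_eq_fintype_card (ZMod N × Ann S) (Fintype.ofFinite _), Nat.card_prod,
        Nat.card_zmod]
    rw [hc]
    push_cast [hN]
    nlinarith
  · intro a ha b hb c hc e he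
    obtain ⟨ha1, ha2⟩ := Finset.mem_filter.1 ha
    obtain ⟨hb1, hb2⟩ := Finset.mem_filter.1 hb
    obtain ⟨hc1, hc2⟩ := Finset.mem_filter.1 hc
    obtain ⟨he1, he2⟩ := Finset.mem_filter.1 he
    rw [hf a ha1 b hb1 c hc1 e he1, hψ _ ha2 _ hb2 _ hc2 _ he2]
    rw [Prod.mk_add_mk, Prod.mk_add_mk, Prod.mk.injEq]

end Pool.Agent.NPM
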