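import Pool.Agent.NPM.Bas
set_option autoImplicit false

/-!
# Csd.  The law of `X` given `X + Z = g` (size 2).

`conv p q g = 0` implies `p x * q (g - x) = 0` for all `x` (sum of nonnegative terms), so
`conv p q g * cs p q g x = p x * q (g - x)` in all cases (`cs_mul`).  `cs_sum` = sum of this over `g`.
`cs_eq_cnd`: for `conv p q g ≠ 0`, `cs p q g = pr (cnd (pp p q) (fun x => x.1 + x.2) g) (fun x => x.1)`
(`cnd` is `p ω / pr p g b` on `{g ω = b}`; `E7a_pr_cnd`, `E7a_cnd_apply` in Ldc.E7a show the manipulation; here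
`Σ_{(x,z)} [x = x₀] [x + z = g] p x q z / R g = p x₀ q (g - x₀) / R g`).
`cs_ent`: `H_cond_sum` (Ldc.E4) for `f = fst`, `g = (x.1 + x.2)` on `pp p q`:
`H(X, X+Z) = H(X+Z) + Σ_g R(g) H(cnd ..) fst`, and `H(cnd ..) fst = ent (pr (cnd ..) fst) = ent (cs p q g)` (`H_eq_ent`);
`H(X, X+Z) = H(X, Z) = ent p + ent q` (`H_congr`, `H_indep`, `indep_pp`, `H_pp_fst`, `H_pp_snd`, `ent_eq_H`).
-/
namespace Pool.Agent.NPM
open Finset Pool.Agent.Ldc

variable {G : Type} [AddCommGroup G] [Fintype G]

theorem cs_mul {p q : G → ℝ} (hp : IsP p) (hq : IsP q) (g x : G) :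
    conv p q g * cs p q g x = p x * q (g - x) := by
  classical
  by_cases h : conv p q g = 0
  · have h1 : ∑ x, p x * q (g - x) = 0 := h
    have h2 := (Finset.sum_eq_zero_iff_of_nonneg
      (fun x _ => mul_nonneg (hp.1 x) (hq.1 (g - x)))).1 h1 x (Finset.mem_univ x)
    rw [h2, h, zero_mul]
  · simp only [cs, if_neg h]
    field_simp

theorem cs_isP {p q : G → ℝ} (hp : IsP p) (hq : IsP q) (g : G) : IsP (cs p q g) := by
  classical
  by_cases h : conv p q g = 0
  · have h1 : cs p q g = p := by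
      funext x
      simp only [cs, if_pos h]
    rw [h1]
    exact hp
  · refine ⟨fun x => ?_, ?_⟩
    · simp only [cs, if_neg h]
      exact div_nonneg (mul_nonneg (hp.1 x) (hq.1 _)) (conv_nonneg hp.1 hq.1 g)
    · simp only [cs, if_neg h]
      rw [← Finset.sum_div]
      exact div_self h

theorem cs_sum {p q : G → ℝ} (hp : IsP p) (hq : IsP q) (x : G) :
    ∑ g, conv p q g * cs p q g x = p x := by
  have h1 : ∀ g, conv p q g * cs p q g x = p x * q (g - x) := fun g => cs_mul hp hq g x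
  simp only [h1]
  rw [← Finset.mul_sum]
  have h2 : ∑ g, q (g - x) = ∑ g, q g :=
    Fintype.sum_equiv (Equiv.subRight x) _ _ (fun _ => rfl)
  rw [h2, hq.2, mul_one]

theorem cs_eq_cnd {p q : G → ℝ} (hp : IsP p) (hq : IsP q) (g : G) (hg : conv p q g ≠ 0) :
    cs p q g = pr (cnd (pp p q) (fun x => x.1 + x.2) g) (fun x => x.1) := by
  classical
  funext x0
  have h0 : pr (pp p q) (fun x => x.1 + x.2) g = conv p q g := by rw [conv_eq_pr]
  simp only [cs, if_neg hg]
  have h1 : pr (cnd (pp p q) (fun x => x.1 + x.2) g) (fun x => x.1) x0 =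
      ∑ ω : G × G, if ω.1 = x0 then
        (if ω.1 + ω.2 = g then pp p q ω / pr (pp p q) (fun x => x.1 + x.2) g else 0) else 0 := by
    unfold pr pe cnd
    refine Finset.sum_congr rfl fun ω _ => ?_
    by_cases ha : ω.1 = x0
    · by_cases hb : ω.1 + ω.2 = g
      · simp [ha, pr, pe]
      · simp [ha, pr, pe]
    · simp [ha]
  rw [h1, Finset.sum_eq_single (x0, g - x0)]
  · rw [if_pos rfl, if_pos (by simp), h0]
    rfl
  · rintro ⟨a, b⟩ _ hab
    by_cases ha : a = x0
    · by_cases hb : a + b = g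
      · exfalso
        apply hab
        rw [ha] at hb ⊢
        rw [← hb]
        simp
      · simp [hb]
    · simp [ha]
  · intro h
    exact absurd (Finset.mem_univ _) h

theorem cs_ent {p q : G → ℝ} (hp : IsP p) (hq : IsP q) :
    ∑ g, conv p q g * ent (cs p q g) = ent p + ent q - ent (conv p q) := by
  have hpq : IsP (pp p q) := pp_isP hp hq
  have h1 := H_cond_sum hpq (fun x => x.1) (fun x => x.1 + x.2)
  have h2 : H (pp p q) (fun x => (x.1, x.1 + x.2)) = H (pp p q) (fun x => (x.1, x.2)) :=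
    H_congr hpq _ _ (fun y => (y.1, y.2 - y.1)) (fun y => (y.1, y.1 + y.2))
      (fun ω => by simp) (fun ω => rfl)
  have h3 : H (pp p q) (fun x => (x.1, x.2)) = H (pp p q) (fun x => x.1) + H (pp p q) (fun x => x.2) :=
    H_indep hpq _ _ (indep_pp hp hq (fun a => a) (fun a => a))
  have h4 : H (pp p q) (fun x => x.1) = ent p := by
    rw [ent_eq_H p]
    exact H_pp_fst hq (fun a => a)
  have h5 : H (pp p q) (fun x => x.2) = ent q := by
    rw [ent_eq_H q]
    exact H_pp_snd hp (fun a => a)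
  have h6 : ∑ g, conv p q g * ent (cs p q g) =
      ∑ b, pr (pp p q) (fun x => x.1 + x.2) b *
        H (cnd (pp p q) (fun x => x.1 + x.2) b) (fun x => x.1) := by
    refine Finset.sum_congr rfl fun g _ => ?_
    rw [← conv_eq_pr]
    by_cases hg : conv p q g = 0
    · rw [hg, zero_mul, zero_mul]
    · rw [cs_eq_cnd hp hq g hg, H_eq_ent]
  rw [h6, ent_conv]
  linarith

end Pool.Agent.NPM
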