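import Pool.Agent.NPM.Csd
set_option autoImplicit false

/-!
# Csq.  Two conditioned variables (size 3).

Independent `X ~ p, Z ~ q, X' ~ p', Z' ~ q'` on `Ω = (G × G) × (G × G)` with law `pp (pp p q) (pp p' q')`.
`S = X + Z`, `S' = X' + Z'`.  The left side is `H(X + X' | S, S')`: `H_cond_sum` (Ldc.E4) with the pair `(S, S')`:
`H(X+X', (S,S')) = H(S,S') + Σ_{(g,g')} P(S=g,S'=g') H(cnd .. (g,g')) (X+X')`; here `P(S=g,S'=g') = conv p q g * conv p' q' g'`,
the law `cnd .. (g,g')` is the product of the two conditional laws (`cnd (pp P₁ P₂) (S, S') (g,g') = pp (cnd P₁ S g) (cnd P₂ S' g')`),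
so that `H(cnd ..)(X+X') = ent (conv (cs p q g) (cs p' q' g'))` when both masses are nonzero (`cs_eq_cnd`; law of `φ(f₁ x.1) + ..`
under a product law: `H_fun_of_indep`, `indep_pp`, `pr_pp_fst`, `pr_pp_snd`); if a mass is zero both sides have coefficient `0`.
Upper bound: `H_cond_anti` (Ldc.E2) with `f = X + X'`, `g = (S, S')`, `φ (s, s') = s + s'`:
`H(X+X', (S,S')) - H(S,S') ≤ H(X+X', S+S') - H(S+S')`, and `H(X+X', S+S') = H(X+X', Z+Z')` (`H_congr`)
`= ent (conv p p') + ent (conv q q')` (independent: use the reordered space `pp (pp p p') (pp q q')` or `H_pair_le`, only `≤` is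
needed), `H(S + S') = ent (conv (conv p p') (conv q q'))`.
-/
namespace Pool.Agent.NPM
open Finset Pool.Agent.Ldc

variable {G : Type} [AddCommGroup G] [Fintype G]

private theorem csq_sum {p q p' q' : G → ℝ} (hp : IsP p) (hq : IsP q) (hp' : IsP p')
    (hq' : IsP q') (φ ψ : G × G → G) :
    H (pp (pp p q) (pp p' q')) (fun x => φ x.1 + ψ x.2) =
      ent (conv (pr (pp p q) φ) (pr (pp p' q') ψ)) := by
  have h1 := pp_isP hp hq
  have h2 := pp_isP hp' hq'
  have hI := indep_pp h1 h2 φ ψ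
  have h3 := H_fun_of_indep hI (fun y : G × G => y.1 + y.2)
  rw [pr_pp_fst h2 φ, pr_pp_snd h1 ψ] at h3
  rw [ent_conv]
  exact h3

private theorem csq_fst {p q : G → ℝ} (hq : IsP q) :
    pr (pp p q) (fun x : G × G => x.1) = p := by
  have h := pr_pp_fst (p := p) hq (fun y : G => y)
  rw [pr_id] at h
  exact h

private theorem csq_snd {p q : G → ℝ} (hp : IsP p) :
    pr (pp p q) (fun x : G × G => x.2) = q := by
  have h := pr_pp_snd (q := q) hp (fun y : G => y)
  rw [pr_id] at h
  exact h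

private theorem csq_four (p q p' q' : G → ℝ) :
    conv (conv p q) (conv p' q') = conv (conv p p') (conv q q') := by
  rw [conv_assoc, ← conv_assoc q p' q', conv_comm q p', conv_assoc p' q q', ← conv_assoc]

theorem cs_two {p q p' q' : G → ℝ} (hp : IsP p) (hq : IsP q) (hp' : IsP p') (hq' : IsP q') :
    ∑ g, conv p q g * ∑ g', conv p' q' g' * ent (conv (cs p q g) (cs p' q' g'))
      ≤ ent (conv p p') + ent (conv q q') - ent (conv (conv p p') (conv q q')) := by
  classical
  set P : (G × G) × (G × G) → ℝ := pp (pp p q) (pp p' q') with hPdef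
  have h1 := pp_isP hp hq
  have h2 := pp_isP hp' hq'
  have hP : IsP P := pp_isP h1 h2
  set S : G × G → G := fun x => x.1 + x.2 with hS
  set f : (G × G) × (G × G) → G := fun ω => ω.1.1 + ω.2.1 with hf
  set g : (G × G) × (G × G) → G × G := fun ω => (S ω.1, S ω.2) with hg
  have hpr : ∀ b : G × G, pr P g b = conv p q b.1 * conv p' q' b.2 := by
    intro b
    have hI := indep_pp h1 h2 S S b.1 b.2
    rw [pr_pp_fst h2 S, pr_pp_snd h1 S, ← conv_eq_pr, ← conv_eq_pr] at hI
    exact hI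
  have hcnd : ∀ b : G × G, cnd P g b = pp (cnd (pp p q) S b.1) (cnd (pp p' q') S b.2) := by
    intro b
    funext ω
    have e1 : pr (pp p q) S b.1 = conv p q b.1 := by rw [conv_eq_pr]
    have e2 : pr (pp p' q') S b.2 = conv p' q' b.2 := by rw [conv_eq_pr]
    have e3 := hpr b
    by_cases hb : g ω = b
    · have hb1 : S ω.1 = b.1 := by rw [← hb]
      have hb2 : S ω.2 = b.2 := by rw [← hb]
      have l1 : cnd P g b ω = P ω / pr P g b := if_pos hb
      have l2 : cnd (pp p q) S b.1 ω.1 = pp p q ω.1 / pr (pp p q) S b.1 := if_pos hb1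
      have l3 : cnd (pp p' q') S b.2 ω.2 = pp p' q' ω.2 / pr (pp p' q') S b.2 := if_pos hb2
      show cnd P g b ω = cnd (pp p q) S b.1 ω.1 * cnd (pp p' q') S b.2 ω.2
      rw [l1, l2, l3, e1, e2, e3]
      have l4 : P ω = pp p q ω.1 * pp p' q' ω.2 := rfl
      rw [l4, mul_div_mul_comm]
    · have l1 : cnd P g b ω = 0 := if_neg hb
      show cnd P g b ω = cnd (pp p q) S b.1 ω.1 * cnd (pp p' q') S b.2 ω.2
      rw [l1]
      by_cases hb1 : S ω.1 = b.1
      · have hb2 : S ω.2 ≠ b.2 := fun h => hb (Prod.ext hb1 h)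
        have l3 : cnd (pp p' q') S b.2 ω.2 = 0 := if_neg hb2
        rw [l3, mul_zero]
      · have l2 : cnd (pp p q) S b.1 ω.1 = 0 := if_neg hb1
        rw [l2, zero_mul]
  have hmain : ∀ b : G × G, pr P g b * H (cnd P g b) f =
      conv p q b.1 * (conv p' q' b.2 * ent (conv (cs p q b.1) (cs p' q' b.2))) := by
    intro b
    rw [hpr b, mul_assoc]
    by_cases hb1 : conv p q b.1 = 0
    · rw [hb1, zero_mul, zero_mul]
    by_cases hb2 : conv p' q' b.2 = 0
    · rw [hb2, zero_mul, mul_zero, zero_mul, mul_zero]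
    congr 2
    have q1 : 0 < pr (pp p q) S b.1 :=
      lt_of_le_of_ne (pr_nonneg h1 _ _) (by rw [← conv_eq_pr]; exact Ne.symm hb1)
    have q2 : 0 < pr (pp p' q') S b.2 :=
      lt_of_le_of_ne (pr_nonneg h2 _ _) (by rw [← conv_eq_pr]; exact Ne.symm hb2)
    have c1 := cnd_isP h1 S b.1 q1
    have c2 := cnd_isP h2 S b.2 q2
    have hI := indep_pp c1 c2 (fun x : G × G => x.1) (fun x : G × G => x.1)
    have h3 := H_fun_of_indep hI (fun y : G × G => y.1 + y.2)
    rw [pr_pp_fst c2 (fun x : G × G => x.1), pr_pp_snd c1 (fun x : G × G => x.1)] at h3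
    rw [hcnd b, cs_eq_cnd hp hq b.1 hb1, cs_eq_cnd hp' hq' b.2 hb2, ent_conv]
    exact h3
  have hsum := H_cond_sum hP f g
  have hL : ∑ b : G × G, pr P g b * H (cnd P g b) f =
      ∑ g, conv p q g * ∑ g', conv p' q' g' * ent (conv (cs p q g) (cs p' q' g')) := by
    rw [Fintype.sum_prod_type]
    refine Finset.sum_congr rfl fun x _ => ?_
    rw [Finset.mul_sum]
    refine Finset.sum_congr rfl fun y _ => ?_
    exact hmain (x, y)
  have hanti := H_cond_anti hP f g (fun b => b.1 + b.2)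
  have hle : H P (fun ω => (f ω, (g ω).1 + (g ω).2)) ≤
      ent (conv p p') + ent (conv q q') := by
    have k1 := H_comp_le hP (fun ω => (f ω, ω.1.2 + ω.2.2))
      (fun y : G × G => (y.1, y.1 + y.2))
    have k2 := H_pair_le hP f (fun ω => ω.1.2 + ω.2.2)
    have k3 := csq_sum hp hq hp' hq' (fun x => x.1) (fun x => x.1)
    have k4 := csq_sum hp hq hp' hq' (fun x => x.2) (fun x => x.2)
    rw [csq_fst hq, csq_fst hq'] at k3
    rw [csq_snd hp, csq_snd hp'] at k4
    have e : (fun ω : (G × G) × (G × G) => (f ω, (g ω).1 + (g ω).2)) =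
        fun ω => (f ω, f ω + (ω.1.2 + ω.2.2)) := by
      funext ω
      simp only [hf, hg, hS]
      congr 1
      abel
    rw [e]
    calc H P (fun ω => (f ω, f ω + (ω.1.2 + ω.2.2)))
        ≤ H P (fun ω => (f ω, ω.1.2 + ω.2.2)) := k1
      _ ≤ H P f + H P (fun ω => ω.1.2 + ω.2.2) := k2
      _ = ent (conv p p') + ent (conv q q') := by rw [← k3, ← k4]
  have hS2 : H P (fun ω => (g ω).1 + (g ω).2) = ent (conv (conv p p') (conv q q')) := by
    have k := csq_sum hp hq hp' hq' S S
    rw [← conv_eq_pr, ← conv_eq_pr, csq_four] at k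
    exact k
  rw [← hL]
  linarith

end Pool.Agent.NPM
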