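import Pool.Agent.Ldc.E5
import Pool.Agent.Ldc.E3b
import Pool.Agent.Ldc.E4
set_option autoImplicit false

/-!
# Squad NPM (MP_ce784b_co), owner helper38.  Definitions.
Paper proof: /team-store/notes_MP_ce784b_co_helper38.md
-/
namespace Pool.Agent.NPM
open Finset Pool.Agent.Ldc

variable {G : Type} [AddCommGroup G] [Fintype G] {β : Type} [Fintype β]

/-- convolution (law of the sum of independent variables with laws `p`, `q`) -/
noncomputable def conv (p q : G → ℝ) : G → ℝ := fun g => ∑ x, p x * q (g - x)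

open Classical in
/-- point mass at `0` -/
noncomputable def dl : G → ℝ := fun g => if g = 0 then 1 else 0

/-- `Av u P m F` is the expectation of `F (law of X_1 + ... + X_m given Y_1, ..., Y_m)`, where the
`(X_i, Y_i)` are independent, `Y_i` has law `u` and `X_i` given `Y_i = y` has law `P y` -/
noncomputable def Av (u : β → ℝ) (P : β → G → ℝ) : ℕ → ((G → ℝ) → ℝ) → ℝ
  | 0, F => F dl
  | m + 1, F => ∑ y, u y * Av u P m (fun μ => F (conv (P y) μ))

/-- `h_m = H(X_1 + ... + X_m | Y_1, ..., Y_m)` -/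
noncomputable def hh (u : β → ℝ) (P : β → G → ℝ) (m : ℕ) : ℝ := Av u P m ent

/-- a decomposition `Σ u_y P_y` of the uniform law on `A` -/
structure Dec (A : Finset G) (u : β → ℝ) (P : β → G → ℝ) : Prop where
  hu : IsP u
  hP : ∀ y, IsP (P y)
  mix : ∀ x, ∑ y, u y * P y x = unif A x

/-- the functional `d[X|Y] + η I(X:Y)` -/
noncomputable def Phi (η : ℝ) (A : Finset G) (u : β → ℝ) (P : β → G → ℝ) : ℝ :=
  (hh u P 2 - hh u P 1) + η * (Real.log (A.card : ℝ) - hh u P 1)

/-- near-minimisers of `Phi` -/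
def NearMin (η κ : ℝ) (A : Finset G) (u : β → ℝ) (P : β → G → ℝ) : Prop :=
  Dec A u P ∧ ∀ (β' : Type) (_ : Fintype β') (u' : β' → ℝ) (P' : β' → G → ℝ),
    Dec A u' P' → Phi η A u P - κ ≤ Phi η A u' P'

open Classical in
/-- the law of `X` given `X + Z = g`, for independent `X ~ p`, `Z ~ q` -/
noncomputable def cs (p q : G → ℝ) (g : G) : G → ℝ :=
  fun x => if conv p q g = 0 then p x else p x * q (g - x) / conv p q g

/-- `ℓ¹` distance of two translates of `μ` -/
noncomputable def l1 (x x' : G) (μ : G → ℝ) : ℝ := ∑ g, |μ (g - x) - μ (g - x')|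

/-- mean square `ℓ¹` distance of two translates of `X_1 + ... + X_M` -/
noncomputable def G2 (u : β → ℝ) (P : β → G → ℝ) (M : ℕ) (x x' : G) : ℝ :=
  Av u P M (fun μ => (l1 x x' μ) ^ 2)

/-- Fourier transform -/
noncomputable def hat (f : G → ℝ) (ξ : AddChar G ℂ) : ℂ := ∑ x, (f x : ℂ) * ξ x

/-- `a(ξ) = 1 - E |φ_Y(ξ)|²` -/
noncomputable def aa (u : β → ℝ) (P : β → G → ℝ) (ξ : AddChar G ℂ) : ℝ :=
  1 - ∑ y, u y * ‖hat (P y) ξ‖ ^ 2

/-- annihilator of a set of characters -/
def Ann (S : Set (AddChar G ℂ)) : AddSubgroup G where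
  carrier := {g | ∀ ξ ∈ S, ξ g = 1}
  zero_mem' := fun ξ _ => AddChar.map_zero_eq_one ξ
  add_mem' := by
    intro a b ha hb ξ hξ
    rw [AddChar.map_add_eq_mul, ha ξ hξ, hb ξ hξ, mul_one]
  neg_mem' := by
    intro a ha ξ hξ
    rw [AddChar.map_neg_eq_inv, ha ξ hξ, inv_one]

/-- the annihilator of the large spectrum `{ξ : a(ξ) ≤ t}` -/
def AnnS (u : β → ℝ) (P : β → G → ℝ) (t : ℝ) : AddSubgroup G := Ann {ξ | aa u P ξ ≤ t}

open Classical in
/-- sum of `f` over the coset `z + F` -/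
noncomputable def cm (F : AddSubgroup G) (f : G → ℝ) (z : G) : ℝ :=
  ∑ w ∈ univ.filter (fun w => w ∈ F), f (z + w)

open Classical in
/-- the flat part of `p`: the points with `a p(x) ≤ e^lam` -/
noncomputable def fl (a lam : ℝ) (p : G → ℝ) : G → ℝ :=
  fun x => if a * p x ≤ Real.exp lam then p x else 0

/-- `Σ μ max(-log(a μ), 0)` -/
noncomputable def WW (a : ℝ) (μ : G → ℝ) : ℝ := ∑ z, μ z * max (-Real.log (a * μ z)) 0

/-- `Σ μ max(log(a μ), 0)` -/
noncomputable def VV (a : ℝ) (μ : G → ℝ) : ℝ := ∑ z, μ z * max (Real.log (a * μ z)) 0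

/-- squared `ℓ²` distance of `f` and its average over the cosets of `F` -/
noncomputable def N2 (F : AddSubgroup G) (f : G → ℝ) : ℝ :=
  ∑ z, (f z - cm F f z / (Nat.card F : ℝ)) ^ 2

end Pool.Agent.NPM
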