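import Pool.Agent.NPM.AvL
import Pool.Agent.NPM.Csq
set_option autoImplicit false

/-!
# Ext.  The refined decomposition (size 3).

`(ι, v, Q)` from `Av_rep` for `n`.  `β' = β × ι × G`, `u' (y, i, g) = u y * v i * conv (P y) (Q i) g`,
`P' (y, i, g) = cs (P y) (Q i) g`.  `Dec`: `Σ u' P' x = Σ_y u y Σ_i v i Σ_g conv .. g * cs .. g x = Σ_y u y Σ_i v i P_y x = unif A x`
(`cs_sum`).
`hh u' P' 1 = Σ u' ent P'` (`Av_one`) `= Σ_y u_y Σ_i v_i (ent P_y + ent Q_i - ent (conv P_y Q_i))` (`cs_ent`)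
`= hh 1 + hh n - hh (n+1)` (`Av_one`, `Av_succ`).
`hh u' P' 2` (`Av_two`) `= Σ_{y,i} Σ_{y',i'} u_y v_i u_y' v_i' [Σ_{g,g'} ...] ≤ Σ .. [ent (conv P_y P_y') + ent (conv Q_i Q_i') -
ent (conv (conv P_y P_y') (conv Q_i Q_i'))]` (`cs_two`) `= hh 2 + hh (2n) - hh (2n+2)` (`Av_two`; `Av_add_index` with `n + n`;
`2n + 2 = 2 + (n + n)`: `Av_add_index` twice and `Av_two`).
-/
namespace Pool.Agent.NPM
open Finset Pool.Agent.Ldc

variable {G : Type} [AddCommGroup G] [Fintype G] {β : Type} [Fintype β]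

private theorem ext_swap {α γ : Type} [Fintype α] [Fintype γ] (u : α → ℝ) (v : γ → ℝ)
    (F : α → γ → ℝ) : ∑ y, u y * ∑ i, v i * F y i = ∑ i, v i * ∑ y, u y * F y i := by
  simp only [Finset.mul_sum]
  rw [Finset.sum_comm]
  refine Finset.sum_congr rfl fun i _ => Finset.sum_congr rfl fun y _ => ?_
  ring

private theorem ext_const {α : Type} [Fintype α] {u : α → ℝ} (hu : IsP u) (c : ℝ) :
    ∑ y, u y * c = c := by
  rw [← Finset.sum_mul, hu.2, one_mul]

omit [AddCommGroup G] in
private theorem ext_triple {ι : Type} [Fintype ι] (u : β → ℝ) (v : ι → ℝ) (w : β → ι → G → ℝ)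
    (F : β → ι → G → ℝ) :
    ∑ a : β × ι × G, u a.1 * v a.2.1 * w a.1 a.2.1 a.2.2 * F a.1 a.2.1 a.2.2
      = ∑ y, u y * ∑ i, v i * ∑ g, w y i g * F y i g := by
  rw [Fintype.sum_prod_type]
  refine Finset.sum_congr rfl fun y _ => ?_
  rw [Fintype.sum_prod_type, Finset.mul_sum]
  refine Finset.sum_congr rfl fun i _ => ?_
  rw [Finset.mul_sum, Finset.mul_sum]
  refine Finset.sum_congr rfl fun g _ => ?_
  ring

theorem ext_dec {A : Finset G} {u : β → ℝ} {P : β → G → ℝ} (hD : Dec A u P) (n : ℕ) :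
    ∃ (β' : Type) (_ : Fintype β') (u' : β' → ℝ) (P' : β' → G → ℝ), Dec A u' P' ∧
      hh u' P' 1 = hh u P 1 + hh u P n - hh u P (n + 1) ∧
      hh u' P' 2 ≤ hh u P 2 + hh u P (2 * n) - hh u P (2 * n + 2) := by
  have hu := hD.hu
  have hP := hD.hP
  obtain ⟨ι, hι, v, Q, hv, hQ, hrep⟩ := Av_rep hD.hu hD.hP n
  have hc1 : ∀ y i, ∑ g, conv (P y) (Q i) g = 1 := fun y i => (conv_isP (hP y) (hQ i)).2
  refine ⟨β × ι × G, inferInstance, fun a => u a.1 * v a.2.1 * conv (P a.1) (Q a.2.1) a.2.2,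
    fun a => cs (P a.1) (Q a.2.1) a.2.2, ⟨⟨?_, ?_⟩, ?_, ?_⟩, ?_, ?_⟩
  · intro a
    exact mul_nonneg (mul_nonneg (hu.1 _) (hv.1 _)) ((conv_isP (hP _) (hQ _)).1 _)
  · have h := ext_triple u v (fun y i g => conv (P y) (Q i) g) (fun _ _ _ => (1 : ℝ))
    simp only [mul_one] at h
    rw [h]
    simp only [hc1, mul_one, hv.2, hu.2]
  · intro a
    exact cs_isP (hP _) (hQ _) _
  · intro x
    have h := ext_triple u v (fun y i g => conv (P y) (Q i) g)
      (fun y i g => cs (P y) (Q i) g x)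
    rw [h, ← hD.mix x]
    refine Finset.sum_congr rfl fun y _ => ?_
    congr 1
    simp only [cs_sum (hP _) (hQ _)]
    exact ext_const hv _
  · unfold hh
    rw [Av_one, Av_one, hrep, Av_succ]
    have h := ext_triple u v (fun y i g => conv (P y) (Q i) g)
      (fun y i g => ent (cs (P y) (Q i) g))
    rw [h]
    simp only [cs_ent (hP _) (hQ _), hrep]
    have e1 : ∀ y, ∑ i, v i * (ent (P y) + ent (Q i) - ent (conv (P y) (Q i)))
        = ent (P y) + ∑ i, v i * ent (Q i) - ∑ i, v i * ent (conv (P y) (Q i)) := by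
      intro y
      simp only [mul_sub, mul_add, Finset.sum_sub_distrib, Finset.sum_add_distrib]
      rw [ext_const hv]
    simp only [e1]
    simp only [mul_sub, mul_add, Finset.sum_sub_distrib, Finset.sum_add_distrib]
    rw [ext_const hu]
  · have t2 : hh u P 2 = ∑ y, u y * ∑ i, v i * ∑ y', u y' * ∑ i', v i' *
        ent (conv (P y) (P y')) := by
      unfold hh
      rw [Av_two]
      refine Finset.sum_congr rfl fun y _ => ?_
      simp only [ext_const hv]
    have t3 : hh u P (2 * n) = ∑ y, u y * ∑ i, v i * ∑ y', u y' * ∑ i', v i' *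
        ent (conv (Q i) (Q i')) := by
      unfold hh
      rw [two_mul, Av_add_index, hrep]
      simp only [hrep, ext_const hu]
    have t4 : hh u P (2 * n + 2) = ∑ y, u y * ∑ i, v i * ∑ y', u y' * ∑ i', v i' *
        ent (conv (conv (P y) (P y')) (conv (Q i) (Q i'))) := by
      unfold hh
      have e : 2 * n + 2 = 2 + (n + n) := by ring
      rw [e, Av_add_index, Av_two]
      refine Finset.sum_congr rfl fun y _ => ?_
      congr 1
      rw [← ext_swap]
      refine Finset.sum_congr rfl fun y' _ => ?_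
      congr 1
      rw [Av_add_index, hrep]
      simp only [hrep]
    have hL : hh (fun a : β × ι × G => u a.1 * v a.2.1 * conv (P a.1) (Q a.2.1) a.2.2)
        (fun a => cs (P a.1) (Q a.2.1) a.2.2) 2
        = ∑ y, u y * ∑ i, v i * ∑ y', u y' * ∑ i', v i' *
          ∑ g, conv (P y) (Q i) g * ∑ g', conv (P y') (Q i') g' *
            ent (conv (cs (P y) (Q i) g) (cs (P y') (Q i') g')) := by
      unfold hh
      rw [Av_two]
      have h := ext_triple u v (fun y i g => conv (P y) (Q i) g)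
        (fun y i g => ∑ b : β × ι × G, u b.1 * v b.2.1 * conv (P b.1) (Q b.2.1) b.2.2 *
          ent (conv (cs (P y) (Q i) g) (cs (P b.1) (Q b.2.1) b.2.2)))
      rw [h]
      refine Finset.sum_congr rfl fun y _ => ?_
      congr 1
      refine Finset.sum_congr rfl fun i _ => ?_
      congr 1
      have h2 : ∀ g, ∑ b : β × ι × G, u b.1 * v b.2.1 * conv (P b.1) (Q b.2.1) b.2.2 *
          ent (conv (cs (P y) (Q i) g) (cs (P b.1) (Q b.2.1) b.2.2))
          = ∑ y', u y' * ∑ i', v i' * ∑ g', conv (P y') (Q i') g' *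
            ent (conv (cs (P y) (Q i) g) (cs (P y') (Q i') g')) := fun g =>
        ext_triple u v (fun y i g => conv (P y) (Q i) g)
          (fun y' i' g' => ent (conv (cs (P y) (Q i) g) (cs (P y') (Q i') g')))
      simp only [h2]
      rw [ext_swap]
      refine Finset.sum_congr rfl fun y' _ => ?_
      congr 1
      rw [ext_swap]
    rw [hL, t2, t3, t4]
    have key : ∀ y i y' i',
        ∑ g, conv (P y) (Q i) g * ∑ g', conv (P y') (Q i') g' *
            ent (conv (cs (P y) (Q i) g) (cs (P y') (Q i') g'))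
          ≤ ent (conv (P y) (P y')) + ent (conv (Q i) (Q i'))
            - ent (conv (conv (P y) (P y')) (conv (Q i) (Q i'))) := fun y i y' i' =>
      cs_two (hP y) (hQ i) (hP y') (hQ i')
    have hle : ∑ y, u y * ∑ i, v i * ∑ y', u y' * ∑ i', v i' *
          ∑ g, conv (P y) (Q i) g * ∑ g', conv (P y') (Q i') g' *
            ent (conv (cs (P y) (Q i) g) (cs (P y') (Q i') g'))
        ≤ ∑ y, u y * ∑ i, v i * ∑ y', u y' * ∑ i', v i' *
          (ent (conv (P y) (P y')) + ent (conv (Q i) (Q i'))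
            - ent (conv (conv (P y) (P y')) (conv (Q i) (Q i')))) := by
      refine Finset.sum_le_sum fun y _ => mul_le_mul_of_nonneg_left ?_ (hu.1 y)
      refine Finset.sum_le_sum fun i _ => mul_le_mul_of_nonneg_left ?_ (hv.1 i)
      refine Finset.sum_le_sum fun y' _ => mul_le_mul_of_nonneg_left ?_ (hu.1 y')
      refine Finset.sum_le_sum fun i' _ => mul_le_mul_of_nonneg_left ?_ (hv.1 i')
      exact key y i y' i'
    refine hle.trans (le_of_eq ?_)
    simp only [mul_sub, mul_add, Finset.sum_sub_distrib, Finset.sum_add_distrib]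

end Pool.Agent.NPM
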