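import Pool.Agent.NPM.Fou
set_option autoImplicit false

/-!
# FAv.  Fourier transform of `f - (average of f over the cosets of F)` (size 2).

`e z = f z - cm F f z/|F|`.  `hat e ξ = hat f ξ (1 - (1/|F|) Σ_{w ∈ F} ξ (-w))`:
`Σ_z f (z + w) ξ z = ξ (-w) hat f ξ`.  If `ξ w = 1` for all `w ∈ F` the bracket is `0`.  Otherwise `Σ_{w ∈ F} ξ (-w) = 0` (multiply by `ξ w₀ ≠ 1`:
the sum is invariant under `w ↦ w - w₀`) and `hat e ξ = hat f ξ`.  Then `parseval` for `e`.
`Nat.card F = (univ.filter (fun w => w ∈ F)).card` (`Nat.card_eq_fintype_card`, `Fintype.card_subtype`), positive.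
-/
namespace Pool.Agent.NPM
open Finset Pool.Agent.Ldc

variable {G : Type} [AddCommGroup G] [Fintype G]

theorem card_filter_mem (F : AddSubgroup G) [DecidablePred (fun w => w ∈ F)] :
    ((univ.filter (fun w => w ∈ F)).card : ℝ) = (Nat.card F : ℝ) := by
  have h : Nat.card F = (univ.filter (fun w => w ∈ F)).card := by
    rw [Nat.card_eq_fintype_card, Fintype.card_subtype]
  rw [h]

open Classical in
private theorem FAv_shift (F : AddSubgroup G) (ξ : AddChar G ℂ) {w₀ : G} (hw : w₀ ∈ F) :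
    ξ w₀ * ∑ w ∈ univ.filter (fun w => w ∈ F), ξ (-w) =
      ∑ w ∈ univ.filter (fun w => w ∈ F), ξ (-w) := by
  rw [Finset.mul_sum]
  refine Finset.sum_bij' (fun w _ => w - w₀) (fun w _ => w + w₀) ?_ ?_ ?_ ?_ ?_
  · intro a ha
    simp only [mem_filter, mem_univ, true_and] at ha ⊢
    exact F.sub_mem ha hw
  · intro a ha
    simp only [mem_filter, mem_univ, true_and] at ha ⊢
    exact F.add_mem ha hw
  · intro a _
    simp
  · intro a _
    simp
  · intro a _
    rw [← AddChar.map_add_eq_mul]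
    congr 1
    abel

open Classical in
private theorem FAv_hat (F : AddSubgroup G) (f : G → ℝ) (ξ : AddChar G ℂ) :
    hat (fun z => f z - cm F f z / (Nat.card F : ℝ)) ξ =
      hat f ξ * (1 - (∑ w ∈ univ.filter (fun w => w ∈ F), ξ (-w)) / (Nat.card F : ℂ)) := by
  have h1 : ∀ w : G, ∑ z, (f (z + w) : ℂ) * ξ z = ξ (-w) * hat f ξ := by
    intro w
    rw [← hat_shift f (-w) ξ]
    refine Finset.sum_congr rfl fun z _ => ?_
    rw [sub_neg_eq_add]
  have h2 : ∑ z, ((cm F f z : ℝ) : ℂ) * ξ z =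
      (∑ w ∈ univ.filter (fun w => w ∈ F), ξ (-w)) * hat f ξ := by
    unfold cm
    rw [Finset.sum_mul]
    have h3 : ∀ z, ((∑ w ∈ univ.filter (fun w => w ∈ F), f (z + w) : ℝ) : ℂ) * ξ z =
        ∑ w ∈ univ.filter (fun w => w ∈ F), (f (z + w) : ℂ) * ξ z := by
      intro z
      push_cast
      rw [Finset.sum_mul]
    rw [Finset.sum_congr rfl fun z _ => h3 z, Finset.sum_comm]
    exact Finset.sum_congr rfl fun w _ => h1 w
  have h4 : hat (fun z => f z - cm F f z / (Nat.card F : ℝ)) ξ =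
      hat f ξ - (∑ z, ((cm F f z : ℝ) : ℂ) * ξ z) / (Nat.card F : ℂ) := by
    unfold hat
    rw [Finset.sum_div, ← Finset.sum_sub_distrib]
    refine Finset.sum_congr rfl fun z _ => ?_
    push_cast
    ring
  rw [h4, h2]
  ring

open Classical in
theorem N2_eq (F : AddSubgroup G) (f : G → ℝ) :
    (Fintype.card G : ℝ) * N2 F f =
      ∑ ξ : AddChar G ℂ, if (∀ w ∈ F, ξ w = 1) then 0 else ‖hat f ξ‖ ^ 2 := by
  unfold N2
  rw [← parseval (fun z => f z - cm F f z / (Nat.card F : ℝ))]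
  refine Finset.sum_congr rfl fun ξ _ => ?_
  rw [FAv_hat]
  have hpos : (Nat.card F : ℂ) ≠ 0 := by
    have : Nat.card F ≠ 0 := Nat.card_pos.ne'
    exact_mod_cast this
  split_ifs with h
  · have h1 : ∑ w ∈ univ.filter (fun w => w ∈ F), ξ (-w) = (Nat.card F : ℂ) := by
      have h2 : ∑ w ∈ univ.filter (fun w => w ∈ F), ξ (-w) =
          ∑ w ∈ univ.filter (fun w => w ∈ F), (1 : ℂ) := by
        refine Finset.sum_congr rfl fun w hw => ?_
        simp only [mem_filter, mem_univ, true_and] at hw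
        exact h _ (F.neg_mem hw)
      rw [h2, Finset.sum_const, nsmul_eq_mul, mul_one]
      have := card_filter_mem F
      exact_mod_cast this
    rw [h1, div_self hpos, sub_self, mul_zero, norm_zero]
    norm_num
  · push Not at h
    obtain ⟨w₀, hw₀, hne⟩ := h
    have h1 : ∑ w ∈ univ.filter (fun w => w ∈ F), ξ (-w) = 0 := by
      have h2 := FAv_shift F ξ hw₀
      have h3 : (ξ w₀ - 1) * ∑ w ∈ univ.filter (fun w => w ∈ F), ξ (-w) = 0 := by
        rw [sub_mul, one_mul, h2, sub_self]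
      rcases mul_eq_zero.mp h3 with h4 | h4
      · exact absurd (sub_eq_zero.mp h4) hne
      · exact h4
    rw [h1, zero_div, sub_zero, mul_one]

end Pool.Agent.NPM
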