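import Mathlib
set_option autoImplicit false

/-!
# Par.  Parameters (size 2).

`θ = (1+η)/2 ∈ (1/2, 3/4]`, `log (1/θ) ≥ log (4/3) ≥ 1/4`.
`s1 = ⌈log (12800 k)/log (1/θ)⌉₊`: `θ^s1 k ≤ 1/12800`, and `2^s1 ≤ 2 * 2^(log (12800k)/log(1/θ)) ≤ 2 (12800 k)^3` (`log 2/log(4/3) ≤ 3`, as `2 ≤ (4/3)^3 = 64/27`).
`X = 7264 * 2^s1 * k/η > 1`, `s2 = ⌈log X/log (1/θ)⌉₊ ≥ 1`: `(1/θ)^s2 ≥ X`, i.e. `2^s2 ≥ 7264 2^s1 (k/η) (1+η)^s2`.
`k/η ≥ 2`, `(1+η)^s2 ≥ 1`: `100(2k(1+η)^s2/η + 2) + 100(k/η + 1) + 7 = 200 (k/η)(1+η)^s2 + 100 k/η + 307 ≤ 454 (k/η)(1+η)^s2 ≤ 2^s2/(16 * 2^s1)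
≤ (2^(s2+1) - 2)/(8 (2^(s1+1) - 1))`.
`(1+η)^s2 ≤ (1+η) exp (log(1+η) log X/log(1/θ)) ≤ 2 X^(4η)` (`log (1+η) ≤ η`, `log(1/θ) ≥ 1/4`, `log X ≥ 0`).  `X ≤ c₀ k^4/η`, `c₀ = 14528 * 12800^3`;
`X^(4η) ≤ c₀^2 k^(16η) η^(-4η)` and `η^(-4η) = exp (4η log (1/η)) ≤ exp 4` (`log (1/η) ≤ 1/η`).
`100 (2k(1+η)^s2/η + 2) ≤ 400 (k/η)(1+η)^s2`.  So `C₀ = 800 c₀^2 e^4` works.
-/
namespace Pool.Agent.NPM

theorem params : ∃ C₀ : ℝ, 0 < C₀ ∧ ∀ k η : ℝ, 1 ≤ k → 0 < η → η ≤ 1 / 2 → ∃ s1 s2 : ℕ,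
    ((1 + η) / 2) ^ s1 * k ≤ 1 / 12800 ∧
    100 * (2 * k * (1 + η) ^ s2 / η + 2) + 100 * (k / η + 1) + 7
      ≤ (2 ^ (s2 + 1) - 2 : ℝ) / (8 * (2 ^ (s1 + 1) - 1)) ∧
    100 * (2 * k * (1 + η) ^ s2 / η + 2) ≤ C₀ * (k ^ (1 + 16 * η) / η) := by
  set c0 : ℝ := 14528 * 12800 ^ 3 with hc0
  have hc1 : 1 ≤ c0 := by norm_num [hc0]
  have hc0p : 0 < c0 := by linarith
  refine ⟨800 * c0 ^ 2 * Real.exp 4, by positivity, ?_⟩
  intro k η hk hη hη2
  have hk0 : 0 < k := by linarith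
  have h1η : 0 < 1 + η := by linarith
  set L : ℝ := Real.log (2 / (1 + η)) with hL
  have hL43 : Real.log (4 / 3) ≤ L := by
    refine Real.log_le_log (by norm_num) ?_
    rw [div_le_div_iff₀ (by norm_num) h1η]
    linarith
  have hL14 : 1 / 4 ≤ L := by
    have h := Real.one_sub_inv_le_log_of_pos (show (0:ℝ) < 4 / 3 by norm_num)
    norm_num at h
    linarith
  have hL0 : 0 < L := by linarith
  have h2L : Real.log 2 ≤ 3 * L := by
    have h3 : Real.log ((4 / 3 : ℝ) ^ 3) = ((3 : ℕ) : ℝ) * Real.log (4 / 3) := Real.log_pow (4 / 3) 3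
    have h4 : Real.log 2 ≤ Real.log ((4 / 3 : ℝ) ^ 3) :=
      Real.log_le_log (by norm_num) (by norm_num)
    rw [h3] at h4
    push_cast at h4
    linarith
  have hθ : (1 + η) / 2 = Real.exp (-L) := by
    rw [Real.exp_neg, hL, Real.exp_log (by positivity), inv_div]
  have hlk : 0 ≤ Real.log (12800 * k) := Real.log_nonneg (by nlinarith)
  set s1 : ℕ := ⌈Real.log (12800 * k) / L⌉₊ with hs1d
  have hs1 : Real.log (12800 * k) / L ≤ s1 := Nat.le_ceil _
  have hs1' : (s1 : ℝ) ≤ Real.log (12800 * k) / L + 1 :=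
    (Nat.ceil_lt_add_one (div_nonneg hlk hL0.le)).le
  have hkk : 0 < 12800 * k := by positivity
  -- first inequality
  have A1 : ((1 + η) / 2) ^ s1 * k ≤ 1 / 12800 := by
    have h5 : ((1 + η) / 2) ^ s1 ≤ (12800 * k)⁻¹ := by
      rw [hθ, ← Real.exp_nat_mul, ← Real.exp_log (inv_pos.2 hkk), Real.log_inv]
      refine Real.exp_le_exp.2 ?_
      rw [div_le_iff₀ hL0] at hs1
      linarith
    calc ((1 + η) / 2) ^ s1 * k ≤ (12800 * k)⁻¹ * k := mul_le_mul_of_nonneg_right h5 hk0.le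
      _ = 1 / 12800 := by field_simp
  -- size of 2 ^ s1
  have A2 : (2:ℝ) ^ s1 ≤ 2 * (12800 * k) ^ 3 := by
    have e2 : (2:ℝ) ^ s1 = Real.exp (s1 * Real.log 2) := by
      rw [Real.exp_nat_mul, Real.exp_log (by norm_num)]
    have e3 : 2 * (12800 * k) ^ 3 = Real.exp (Real.log 2 + (3:ℕ) * Real.log (12800 * k)) := by
      rw [Real.exp_add, Real.exp_nat_mul, Real.exp_log (by norm_num), Real.exp_log hkk]
    rw [e2, e3]
    refine Real.exp_le_exp.2 ?_
    have hl2 : 0 ≤ Real.log 2 := Real.log_nonneg (by norm_num)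
    have h6 : (s1:ℝ) * Real.log 2 ≤ (Real.log (12800 * k) / L + 1) * Real.log 2 :=
      mul_le_mul_of_nonneg_right hs1' hl2
    have h7 : Real.log (12800 * k) / L * Real.log 2 ≤ 3 * Real.log (12800 * k) := by
      rw [div_mul_eq_mul_div, div_le_iff₀ hL0]
      nlinarith
    push_cast
    nlinarith
  have h2s1 : (1:ℝ) ≤ 2 ^ s1 := one_le_pow₀ (by norm_num)
  set r : ℝ := k / η with hr
  have hr2 : 2 ≤ r := by
    rw [hr, le_div_iff₀ hη]
    nlinarith
  set X : ℝ := 7264 * 2 ^ s1 * r with hX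
  have hX1 : 1 ≤ X := by
    rw [hX]
    nlinarith
  have hX0 : 0 < X := by linarith
  have hlX : 0 ≤ Real.log X := Real.log_nonneg hX1
  set s2 : ℕ := ⌈Real.log X / L⌉₊ with hs2d
  have hs2 : Real.log X / L ≤ s2 := Nat.le_ceil _
  have hs2' : (s2 : ℝ) ≤ Real.log X / L + 1 :=
    (Nat.ceil_lt_add_one (div_nonneg hlX hL0.le)).le
  set P : ℝ := (1 + η) ^ s2 with hP
  have hP1 : 1 ≤ P := one_le_pow₀ (by linarith)
  have A3 : X * P ≤ 2 ^ s2 := by
    have h8 : X ≤ (2 / (1 + η)) ^ s2 := by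
      have e4 : (2 / (1 + η)) ^ s2 = Real.exp (s2 * L) := by
        rw [Real.exp_nat_mul, hL, Real.exp_log (by positivity)]
      rw [e4]
      calc X = Real.exp (Real.log X) := (Real.exp_log hX0).symm
        _ ≤ _ := Real.exp_le_exp.2 (by rwa [div_le_iff₀ hL0] at hs2)
    rw [div_pow, le_div_iff₀ (by positivity)] at h8
    exact h8
  have hrP : r ≤ r * P := by nlinarith
  have A4 : P ≤ 2 * Real.exp (4 * η * Real.log X) := by
    have e5 : P = Real.exp (s2 * Real.log (1 + η)) := by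
      rw [Real.exp_nat_mul, Real.exp_log h1η]
    have hlη : Real.log (1 + η) ≤ η := by
      have := Real.log_le_sub_one_of_pos h1η
      linarith
    have hlη0 : 0 ≤ Real.log (1 + η) := Real.log_nonneg (by linarith)
    have hl2' : Real.log (1 + η) ≤ Real.log 2 := Real.log_le_log h1η (by linarith)
    have h9 : (s2:ℝ) * Real.log (1 + η) ≤ Real.log 2 + 4 * η * Real.log X := by
      have h10 : (s2:ℝ) * Real.log (1 + η) ≤ (Real.log X / L + 1) * Real.log (1 + η) :=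
        mul_le_mul_of_nonneg_right hs2' hlη0
      have h11 : Real.log X / L ≤ 4 * Real.log X := by
        rw [div_le_iff₀ hL0]
        nlinarith
      have h12 : Real.log X / L * Real.log (1 + η) ≤ 4 * Real.log X * η :=
        mul_le_mul h11 hlη hlη0 (by positivity)
      nlinarith
    rw [e5]
    calc Real.exp (s2 * Real.log (1 + η)) ≤ Real.exp (Real.log 2 + 4 * η * Real.log X) :=
          Real.exp_le_exp.2 h9
      _ = _ := by rw [Real.exp_add, Real.exp_log (by norm_num)]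
  have A5 : Real.exp (4 * η * Real.log X) ≤ c0 ^ 2 * k ^ (16 * η) * Real.exp 4 := by
    have hXle : X ≤ c0 * k ^ 4 / η := by
      have h13 : X ≤ 7264 * (2 * (12800 * k) ^ 3) * r := by
        rw [hX]
        exact mul_le_mul_of_nonneg_right (by linarith) (by linarith)
      refine h13.trans (le_of_eq ?_)
      rw [hc0, hr]
      ring
    have hlX2 : Real.log X ≤ Real.log c0 + 4 * Real.log k + Real.log (1 / η) := by
      refine (Real.log_le_log hX0 hXle).trans (le_of_eq ?_)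
      rw [Real.log_div (by positivity) hη.ne', Real.log_mul hc0p.ne' (by positivity), Real.log_pow,
        one_div, Real.log_inv]
      push_cast
      ring
    have hle1 : η * Real.log (1 / η) ≤ 1 := by
      have h14 := Real.log_le_sub_one_of_pos (show 0 < 1 / η by positivity)
      have h15 : η * Real.log (1 / η) ≤ η * (1 / η - 1) := mul_le_mul_of_nonneg_left h14 hη.le
      have h16 : η * (1 / η - 1) = 1 - η := by field_simp
      linarith
    have hlc : 0 ≤ Real.log c0 := Real.log_nonneg hc1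
    have hlk' : 0 ≤ Real.log k := Real.log_nonneg hk
    have e6 : c0 ^ 2 * k ^ (16 * η) * Real.exp 4
        = Real.exp ((2:ℕ) * Real.log c0 + Real.log k * (16 * η) + 4) := by
      rw [Real.exp_add, Real.exp_add, Real.exp_nat_mul, Real.exp_log hc0p,
        Real.rpow_def_of_pos hk0]
    rw [e6]
    refine Real.exp_le_exp.2 ?_
    have h17 : 4 * η * Real.log X ≤ 4 * η * (Real.log c0 + 4 * Real.log k + Real.log (1 / η)) :=
      mul_le_mul_of_nonneg_left hlX2 (by positivity)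
    have h17b : η * Real.log c0 ≤ 1 / 2 * Real.log c0 := mul_le_mul_of_nonneg_right hη2 hlc
    have h17c : 4 * η * (Real.log c0 + 4 * Real.log k + Real.log (1 / η))
        = 4 * (η * Real.log c0) + Real.log k * (16 * η) + 4 * (η * Real.log (1 / η)) := by ring
    rw [h17c] at h17
    have h17d : ∀ A B C D E : ℝ, A ≤ 4 * B + C + 4 * D → B ≤ 1 / 2 * E → D ≤ 1 →
        A ≤ 2 * E + C + 4 := fun _ _ _ _ _ h1 h2 h3 => by linarith
    push_cast
    exact h17d _ _ _ _ _ h17 h17b hle1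
  refine ⟨s1, s2, A1, ?_, ?_⟩
  · have h18 : 100 * (2 * k * P / η + 2) + 100 * (r + 1) + 7 ≤ 454 * (r * P) := by
      have e7 : 2 * k * P / η = 2 * (r * P) := by rw [hr]; ring
      rw [e7]
      nlinarith
    have h2s2 : (2:ℝ) ≤ 2 ^ s2 := by
      have : X * 1 ≤ X * P := mul_le_mul_of_nonneg_left hP1 hX0.le
      have h19 : 2 ≤ X := by
        rw [hX]
        nlinarith
      linarith
    have h20 : 454 * (r * P) ≤ (2 ^ (s2 + 1) - 2 : ℝ) / (8 * (2 ^ (s1 + 1) - 1)) := by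
      rw [le_div_iff₀ (by rw [pow_succ]; linarith), pow_succ, pow_succ]
      have h21 : 454 * (r * P) * (8 * (2 ^ s1 * 2 - 1)) ≤ 454 * (r * P) * (16 * 2 ^ s1) :=
        mul_le_mul_of_nonneg_left (by linarith) (by positivity)
      have e8 : 454 * (r * P) * (16 * 2 ^ s1) = X * P := by rw [hX]; ring
      rw [e8] at h21
      linarith
    exact h18.trans h20
  · have h22 : 100 * (2 * k * P / η + 2) ≤ 400 * (r * P) := by
      have e7 : 2 * k * P / η = 2 * (r * P) := by rw [hr]; ring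
      rw [e7]
      nlinarith
    have hr0 : 0 < r := by linarith
    have h23 : r * P ≤ r * (2 * (c0 ^ 2 * k ^ (16 * η) * Real.exp 4)) := by
      refine mul_le_mul_of_nonneg_left ?_ hr0.le
      linarith
    have e9 : k ^ (1 + 16 * η) = k * k ^ (16 * η) := by
      rw [Real.rpow_add hk0, Real.rpow_one]
    calc 100 * (2 * k * P / η + 2) ≤ 400 * (r * P) := h22
      _ ≤ 400 * (r * (2 * (c0 ^ 2 * k ^ (16 * η) * Real.exp 4))) := by linarith
      _ = 800 * c0 ^ 2 * Real.exp 4 * (k ^ (1 + 16 * η) / η) := by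
          rw [e9, hr]; ring

end Pool.Agent.NPM
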