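import Pool.Agent.NPM.Ana
import Pool.Agent.NPM.Cmb
import Pool.Agent.NPM.Par
set_option autoImplicit false

/-!
# Fin.  The theorem for finite groups (size 2).

`k = 1 + log K`.  `params`, `analytic`, `combi` with `Q = 400 e^(q + lam)`.  `A1` is nonempty by its size bound.
`|A2| ≥ |A1|/2 ≥ (9/20) e^(-lam) |A|`, `lam = 100(k/η + 1) ≤ 200 k/η`, `9/20 ≥ e^(-1)`: `|A2| ≥ e^(-201 k/η)|A|` (`k/η ≥ 1`).
`|H| ≤ 800 e^(q+lam) K^4 |A| ≤ 800 e^(q + lam) K^4 (20/9) e^lam |A2| ≤ exp (8 + q + 2 lam + 4k) |A2|`, `q ≤ C₀ k^(1+16η)/η`,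
`2 lam + 4k + 8 ≤ 412 k/η ≤ 412 k^(1+16η)/η`.  (`K^4 = exp (4 log K)`.)  `C = C₀ + 500`, and `k^(1+16η) ≤ k^(1+Cη)` (`C ≥ 16`).
-/
namespace Pool.Agent.NPM
open scoped Pointwise

open Classical in
theorem finite_case : ∃ C : ℝ, 0 < C ∧ ∀ η : ℝ, 0 < η → η ≤ 1 / 2 →
    ∀ (G : Type) [AddCommGroup G] [Fintype G] (A : Finset G) (K : ℝ),
      A.Nonempty → 1 ≤ K → (((A + A).card : ℝ) ≤ K * (A.card : ℝ)) →
        ∃ A' : Finset G, A' ⊆ A ∧
          Real.exp (-(C * ((1 + Real.log K) / η))) * (A.card : ℝ) ≤ (A'.card : ℝ) ∧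
          ∃ (H : Type) (_ : AddCommGroup H) (_ : Fintype H) (f : G → H),
            (Fintype.card H : ℝ) ≤
              Real.exp (C * ((1 + Real.log K) ^ (1 + C * η) / η)) * (A'.card : ℝ) ∧
            ∀ a ∈ A', ∀ b ∈ A', ∀ c ∈ A', ∀ d ∈ A', (a + b = c + d ↔ f a + f b = f c + f d) := by
  obtain ⟨C₀, hC₀, hpar⟩ := params
  refine ⟨C₀ + 500, by linarith, ?_⟩
  intro η hη hη2 G _ _ A K hA hK1 hK
  have hL : 0 ≤ Real.log K := Real.log_nonneg hK1
  have hKpos : 0 < K := by linarith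
  set k : ℝ := 1 + Real.log K with hk
  have hk1 : 1 ≤ k := by linarith
  obtain ⟨s1, s2, hs1, hs2, hq0⟩ := hpar k η hk1 hη hη2
  set q : ℝ := 100 * (2 * k * (1 + η) ^ s2 / η + 2) with hq
  set lam : ℝ := 100 * (k / η + 1) with hlam
  obtain ⟨S, x₀, A1, hA1, hc1, hcl, hF⟩ :=
    analytic A hA K hK1 hK η hη hη2 s1 s2 hs1 q lam hq hlam hs2
  have hA0 : (0 : ℝ) < (A.card : ℝ) := by exact_mod_cast hA.card_pos
  have hA1pos : (0 : ℝ) < (A1.card : ℝ) := lt_of_lt_of_le (by positivity) hc1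
  have hne : A1.Nonempty := by
    rw [← Finset.card_pos]
    exact_mod_cast hA1pos
  obtain ⟨A2, hA2, hc2, H, _, _, f, hH, hf⟩ := combi A hA K hK1 hK S x₀ (400 * Real.exp (q + lam))
    (by positivity) A1 hA1 hne hcl hF
  have hkη : 1 ≤ k / η := by
    rw [le_div_iff₀ hη]; linarith
  have hlow : 9 / 20 * Real.exp (-lam) * (A.card : ℝ) ≤ (A2.card : ℝ) := by
    nlinarith
  have he1 : Real.exp (-1) ≤ 9 / 20 := by
    have h1 := Real.exp_one_gt_d9
    rw [Real.exp_neg, inv_eq_one_div, div_le_div_iff₀ (Real.exp_pos _) (by norm_num)]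
    linarith
  refine ⟨A2, hA2.trans hA1, ?_, H, inferInstance, inferInstance, f, ?_, hf⟩
  · refine le_trans ?_ hlow
    refine mul_le_mul_of_nonneg_right ?_ hA0.le
    have h2 : Real.exp (-((C₀ + 500) * (k / η))) ≤ Real.exp (-1) * Real.exp (-lam) := by
      rw [← Real.exp_add]
      apply Real.exp_le_exp.2
      have : 0 ≤ C₀ * (k / η) := by positivity
      rw [hlam]
      nlinarith
    refine h2.trans ?_
    gcongr
  · have hAle : (A.card : ℝ) ≤ 20 / 9 * Real.exp lam * (A2.card : ℝ) := by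
      have h3 : (A.card : ℝ) = 20 / 9 * Real.exp lam * (9 / 20 * Real.exp (-lam) * (A.card : ℝ)) := by
        rw [Real.exp_neg]
        have := (Real.exp_pos lam).ne'
        field_simp
      rw [h3]
      gcongr
    have hK4 : K ^ 4 = Real.exp (4 * Real.log K) := by
      rw [← Real.exp_log (show 0 < K ^ 4 by positivity), Real.log_pow]
      norm_num
    have h8 : (16000 / 9 : ℝ) ≤ Real.exp 8 := by
      have h1 := Real.exp_one_gt_d9
      have h9 : Real.exp 8 = (Real.exp 1) ^ 8 := by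
        rw [← Real.exp_nat_mul]; norm_num
      rw [h9]
      have : (2.7 : ℝ) ^ 8 ≤ (Real.exp 1) ^ 8 := by
        apply pow_le_pow_left₀ (by norm_num); linarith
      norm_num at this ⊢
      linarith
    have hbig : (Fintype.card H : ℝ) ≤ Real.exp (8 + (q + lam) + 4 * Real.log K + lam) * (A2.card : ℝ) := by
      refine hH.trans ?_
      calc 2 * (400 * Real.exp (q + lam)) * K ^ 4 * (A.card : ℝ)
          ≤ 2 * (400 * Real.exp (q + lam)) * K ^ 4 * (20 / 9 * Real.exp lam * (A2.card : ℝ)) := by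
            gcongr
        _ = 16000 / 9 * Real.exp (q + lam) * Real.exp (4 * Real.log K) * Real.exp lam *
              (A2.card : ℝ) := by
            rw [hK4]; ring
        _ ≤ Real.exp 8 * Real.exp (q + lam) * Real.exp (4 * Real.log K) * Real.exp lam *
              (A2.card : ℝ) := by
            gcongr
        _ = _ := by
            rw [← Real.exp_add, ← Real.exp_add, ← Real.exp_add]
    refine hbig.trans ?_
    refine mul_le_mul_of_nonneg_right ?_ (Nat.cast_nonneg _)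
    apply Real.exp_le_exp.2
    have hp1 : k ^ (1 + 16 * η) ≤ k ^ (1 + (C₀ + 500) * η) := by
      apply Real.rpow_le_rpow_of_exponent_le hk1
      nlinarith
    have hp2 : k ≤ k ^ (1 + 16 * η) := by
      conv_lhs => rw [← Real.rpow_one k]
      apply Real.rpow_le_rpow_of_exponent_le hk1
      nlinarith
    have hp3 : k / η ≤ k ^ (1 + 16 * η) / η := by gcongr
    have hp4 : k ^ (1 + 16 * η) / η ≤ k ^ (1 + (C₀ + 500) * η) / η := by gcongr
    have hηk : k ≤ k / η := by
      rw [le_div_iff₀ hη]; nlinarith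
    have hfin : 8 + (q + lam) + 4 * Real.log K + lam ≤ (C₀ + 500) * (k ^ (1 + 16 * η) / η) := by
      have h5 : Real.log K ≤ k / η := by linarith
      rw [hlam] at *
      nlinarith
    refine hfin.trans ?_
    gcongr

end Pool.Agent.NPM
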