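import Pool.Agent.NPM.Bas
set_option autoImplicit false

/-!
# Fou.  Fourier transform on a finite abelian group (size 2).

`hat_conv`: `Σ_g Σ_x p x q (g - x) ξ g = Σ_x p x ξ x Σ_h q h ξ h` (`g = x + h`, `AddChar.map_add_eq_mul`).
`norm_hat_le`: `‖ξ x‖ = 1` (`AddChar.norm_apply`).  `hat_shift` (translate): `Σ_g μ (g - x) ξ g = ξ x hat μ ξ`.
`parseval`: `‖hat f ξ‖² = Σ_{x,y} f x f y ξ (x - y)` (`conj (ξ y) = ξ (-y)`, `AddChar.map_neg_eq_conj`), sum over `ξ` with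
`AddChar.sum_apply_eq_ite`: `Σ_ξ ξ a = if a = 0 then card G else 0`.
-/
namespace Pool.Agent.NPM
open Finset Pool.Agent.Ldc

variable {G : Type} [AddCommGroup G] [Fintype G]

theorem hat_conv (p q : G → ℝ) (ξ : AddChar G ℂ) : hat (conv p q) ξ = hat p ξ * hat q ξ := by
  unfold hat conv
  have h1 : ∀ g : G, ((∑ x, p x * q (g - x) : ℝ) : ℂ) * ξ g = ∑ x, (p x : ℂ) * ((q (g - x) : ℂ) * ξ g) := by
    intro g
    push_cast
    rw [Finset.sum_mul]
    exact Finset.sum_congr rfl (fun x _ => mul_assoc _ _ _)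
  rw [Finset.sum_congr rfl (fun g _ => h1 g), Finset.sum_comm, Finset.sum_mul]
  refine Finset.sum_congr rfl (fun x _ => ?_)
  rw [← Finset.mul_sum]
  have h2 : ∑ g, (q (g - x) : ℂ) * ξ g = ξ x * ∑ h, (q h : ℂ) * ξ h := by
    rw [Finset.mul_sum, ← Equiv.sum_comp (Equiv.addRight x) (fun g => (q (g - x) : ℂ) * ξ g)]
    refine Finset.sum_congr rfl (fun h _ => ?_)
    simp only [Equiv.coe_addRight, add_sub_cancel_right, AddChar.map_add_eq_mul]
    ring
  rw [h2]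
  ring

theorem hat_dl (ξ : AddChar G ℂ) : hat dl ξ = 1 := by
  classical
  unfold hat dl
  rw [Finset.sum_eq_single 0]
  · simp
  · intro b _ hb
    simp [hb]
  · intro h
    exact absurd (Finset.mem_univ _) h

theorem norm_hat_le {p : G → ℝ} (hp : IsP p) (ξ : AddChar G ℂ) : ‖hat p ξ‖ ≤ 1 := by
  unfold hat
  refine (norm_sum_le _ _).trans ?_
  rw [← hp.2]
  refine Finset.sum_le_sum (fun x _ => ?_)
  rw [norm_mul, AddChar.norm_apply, mul_one, Complex.norm_real, Real.norm_of_nonneg (hp.1 x)]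

theorem hat_shift (μ : G → ℝ) (x : G) (ξ : AddChar G ℂ) :
    ∑ g, (μ (g - x) : ℂ) * ξ g = ξ x * hat μ ξ := by
  unfold hat
  rw [Finset.mul_sum, ← Equiv.sum_comp (Equiv.addRight x) (fun g => (μ (g - x) : ℂ) * ξ g)]
  refine Finset.sum_congr rfl (fun h _ => ?_)
  simp only [Equiv.coe_addRight, add_sub_cancel_right, AddChar.map_add_eq_mul]
  ring

theorem parseval (f : G → ℝ) : ∑ ξ : AddChar G ℂ, ‖hat f ξ‖ ^ 2 = (Fintype.card G : ℝ) * ∑ x, (f x) ^ 2 := by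
  classical
  have h1 : ∀ ξ : AddChar G ℂ, ((‖hat f ξ‖ ^ 2 : ℝ) : ℂ) =
      ∑ x, ∑ y, (f x : ℂ) * (f y : ℂ) * ξ (x - y) := by
    intro ξ
    have h2 : ((‖hat f ξ‖ ^ 2 : ℝ) : ℂ) = hat f ξ * (starRingEnd ℂ) (hat f ξ) := by
      rw [Complex.mul_conj, Complex.normSq_eq_norm_sq]
    rw [h2]
    unfold hat
    rw [map_sum, Finset.sum_mul_sum]
    refine Finset.sum_congr rfl (fun x _ => Finset.sum_congr rfl (fun y _ => ?_))
    rw [map_mul, Complex.conj_ofReal, sub_eq_add_neg, AddChar.map_add_eq_mul, AddChar.map_neg_eq_conj]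
    ring
  have h3 : ((∑ ξ : AddChar G ℂ, ‖hat f ξ‖ ^ 2 : ℝ) : ℂ) =
      (((Fintype.card G : ℝ) * ∑ x, (f x) ^ 2 : ℝ) : ℂ) := by
    rw [Complex.ofReal_sum, Finset.sum_congr rfl (fun ξ _ => h1 ξ), Finset.sum_comm]
    push_cast
    rw [Finset.mul_sum]
    refine Finset.sum_congr rfl (fun x _ => ?_)
    rw [Finset.sum_comm]
    have h4 : ∀ y, ∑ ξ : AddChar G ℂ, (f x : ℂ) * (f y : ℂ) * ξ (x - y) =
        if y = x then (f x : ℂ) * (f y : ℂ) * (Fintype.card G : ℂ) else 0 := by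
      intro y
      rw [← Finset.mul_sum, AddChar.sum_apply_eq_ite]
      by_cases hxy : y = x
      · subst hxy
        simp
      · have : x - y ≠ 0 := sub_ne_zero.2 (Ne.symm hxy)
        rw [if_neg this, if_neg hxy, mul_zero]
    rw [Finset.sum_congr rfl (fun y _ => h4 y), Finset.sum_ite_eq' Finset.univ x]
    simp only [Finset.mem_univ, if_true]
    ring
  exact_mod_cast h3

end Pool.Agent.NPM
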