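import Mathlib
set_option autoImplicit false

/-!
# Red.  Reduction to finite groups (size 2).

Adapt `Pool/Agent/WPF/FinRed.lean` (`FinRed_core` and the last theorem there) without the `PDepth` hypotheses: the subgroup generated by `A` is
`≃+ (Fin n →₀ ℤ) × ⨁ i, ZMod (p i ^ e i)` (`AddCommGroup.equiv_free_prod_directSum_zmod`) `= Z × T`, `T` finite; take `r > 4 M` (`M` bounds the
absolute values of the coordinates in `Z` of the elements of `A`), `G' = (Fin n → ZMod r) × T`, `g` = reduction of the coordinates.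
-/
namespace Pool.Agent.NPM

private theorem Red_core {T : Type} [AddCommGroup T] [Finite T] (n : ℕ)
    (B : Set ((Fin n →₀ ℤ) × T)) (hB : B.Finite) :
    ∃ (G' : Type) (_ : AddCommGroup G') (_ : Fintype G') (g : ((Fin n →₀ ℤ) × T) →+ G'),
      ∀ x ∈ B, ∀ y ∈ B, ∀ z ∈ B, ∀ w ∈ B, (x + y = z + w ↔ g x + g y = g z + g w) := by
  classical
  -- bound of the coordinates of the differences
  obtain ⟨M, hM⟩ : ∃ M : ℕ, ∀ x ∈ B, ∀ i, (x.1 i).natAbs ≤ M := by
    refine ⟨hB.toFinset.sup (fun x => Finset.univ.sup (fun i => (x.1 i).natAbs)), ?_⟩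
    intro x hx i
    have h1 : (x.1 i).natAbs ≤ Finset.univ.sup (fun i => (x.1 i).natAbs) :=
      Finset.le_sup (f := fun i => (x.1 i).natAbs) (Finset.mem_univ i)
    refine h1.trans ?_
    exact Finset.le_sup (f := fun x : (Fin n →₀ ℤ) × T => Finset.univ.sup (fun i => (x.1 i).natAbs))
      (hB.mem_toFinset.mpr hx)
  obtain ⟨r, hr⟩ : ∃ r : ℕ, r = 4 * M + 1 := ⟨_, rfl⟩
  have : NeZero r := ⟨by omega⟩
  let g : ((Fin n →₀ ℤ) × T) →+ (Fin n → ZMod r) × T :=
    AddMonoidHom.mk' (fun x => ((fun i => ((x.1 i : ℤ) : ZMod r)), x.2)) (by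
      intro x y
      refine Prod.ext ?_ rfl
      funext i
      change (((x.1 + y.1) i : ℤ) : ZMod r) = ((x.1 i : ℤ) : ZMod r) + ((y.1 i : ℤ) : ZMod r)
      rw [Finsupp.add_apply]
      push_cast
      rfl)
  have : Finite ((Fin n → ZMod r) × T) := inferInstance
  refine ⟨(Fin n → ZMod r) × T, inferInstance, Fintype.ofFinite _, g, ?_⟩
  intro x hx y hy z hz w hw
  constructor
  · intro h
    rw [← map_add, h, map_add]
  · intro h
    have h1 : g (x + y - (z + w)) = 0 := by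
      rw [map_sub, map_add, map_add, h, sub_self]
    have h2 : x + y - (z + w) = 0 := by
      refine Prod.ext ?_ (congrArg (fun v : (Fin n → ZMod r) × T => v.2) h1)
      ext i
      have h3 : (((x + y - (z + w)).1 i : ℤ) : ZMod r) = 0 := congrFun (congrArg Prod.fst h1) i
      rw [ZMod.intCast_zmod_eq_zero_iff_dvd] at h3
      have h4 : (x + y - (z + w)).1 i = x.1 i + y.1 i - (z.1 i + w.1 i) := rfl
      have e1 := hM x hx i
      have e2 := hM y hy i
      have e3 := hM z hz i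
      have e4 := hM w hw i
      rw [h4] at h3
      change (x + y - (z + w)).1 i = 0
      rw [h4]
      apply Int.eq_zero_of_abs_lt_dvd h3
      rw [Int.abs_eq_natAbs]
      omega
    exact sub_eq_zero.mp h2

theorem red_finite (G : Type) [AddCommGroup G] (A : Finset G) :
    ∃ (G' : Type) (_ : AddCommGroup G') (_ : Fintype G') (g : G → G'),
      ∀ x ∈ A, ∀ y ∈ A, ∀ z ∈ A, ∀ w ∈ A, (x + y = z + w ↔ g x + g y = g z + g w) := by
  classical
  set G₀ := AddSubgroup.closure (A : Set G) with hG₀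
  have hfg : AddGroup.FG G₀ := by
    rw [AddGroup.fg_iff_addSubgroup_fg]
    exact ⟨A, hG₀.symm⟩
  obtain ⟨n, κ, _, p, hp, e, ⟨ε₀⟩⟩ := AddCommGroup.equiv_free_prod_directSum_zmod G₀
  let ε : G₀ ≃+ (Fin n →₀ ℤ) × ∀ i, ZMod (p i ^ e i) :=
    ε₀.trans ((AddEquiv.refl _).prodCongr (DirectSum.addEquivProd fun i => ZMod (p i ^ e i)))
  let j : ((Fin n →₀ ℤ) × ∀ i, ZMod (p i ^ e i)) →+ G := G₀.subtype.comp ε.symm.toAddMonoidHom
  have hj : Function.Injective j := Subtype.val_injective.comp ε.symm.injective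
  let f : G → (Fin n →₀ ℤ) × ∀ i, ZMod (p i ^ e i) := fun x =>
    if h : x ∈ G₀ then ε ⟨x, h⟩ else 0
  have hmem : ∀ x ∈ A, x ∈ G₀ := fun x hx => AddSubgroup.subset_closure hx
  have hjf : ∀ x ∈ A, j (f x) = x := by
    intro x hx
    have h1 : f x = ε ⟨x, hmem x hx⟩ := dif_pos (hmem x hx)
    rw [h1]
    change ((ε.symm (ε ⟨x, hmem x hx⟩) : G₀) : G) = x
    rw [AddEquiv.symm_apply_apply]
  have : Finite (∀ i, ZMod (p i ^ e i)) := by
    have : ∀ i, NeZero (p i ^ e i) := fun i => ⟨pow_ne_zero _ (hp i).ne_zero⟩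
    exact Pi.finite
  obtain ⟨G', i1, i2, g, hg⟩ := Red_core n (f '' (A : Set G)) (A.finite_toSet.image _)
  refine ⟨G', i1, i2, fun x => g (f x), ?_⟩
  intro x hx y hy z hz w hw
  rw [← hg (f x) ⟨x, hx, rfl⟩ (f y) ⟨y, hy, rfl⟩ (f z) ⟨z, hz, rfl⟩ (f w) ⟨w, hw, rfl⟩]
  constructor
  · intro h
    apply hj
    rw [map_add, map_add, hjf x hx, hjf y hy, hjf z hz, hjf w hw, h]
  · intro h
    rw [← hjf x hx, ← hjf y hy, ← hjf z hz, ← hjf w hw, ← map_add, ← map_add, h]

end Pool.Agent.NPM
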