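import Pool.Agent.NPM.Fin
import Pool.Agent.NPM.Red
set_option autoImplicit false

/-!
# Gen.  The theorem for all abelian groups, and the two corollaries (size 2).

`general`: `K ≥ 1` since `|A| ≤ |A + A|`.  `red_finite`: `g : G → G'`, injective on `A` (`x + x = y + x` iff `g x + g x = g y + g x`), `B = A.image g`,
`|B| = |A|`, `|B + B| = |A + A|` (the map `g x + g y ↤ x + y` is a well defined bijection by the Freiman property).  `finite_case` for `B`: `B' ⊆ B`;
`A' = {x ∈ A : g x ∈ B'}`, `|A'| = |B'|`, and the map `f ∘ g`.  For `1/2 < η ≤ 1` use `η/2` with `C` replaced by `2C`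
(`(1+log K)^(1 + Cη/2) ≤ (1+log K)^(1 + 2Cη)`).
`corA` (`ε > 0`): `η = min 1 (ε/C)`: `exp(-C(1+log K)/η) = e^(-C/η) K^(-C/η)`.
`corB`: `η = 1/(1 + log (1 + log K)) ∈ (0, 1]`: `(1+log K)^(C η) = exp (C log(1+log K)/(1+log(1+log K))) ≤ e^C`.
-/
namespace Pool.Agent.NPM
open scoped Pointwise

private lemma gen_one_le (G : Type) [AddCommGroup G] [DecidableEq G] (A : Finset G) (K : ℝ)
    (hA : A.Nonempty) (hK : ((A + A).card : ℝ) ≤ K * (A.card : ℝ)) : 1 ≤ K := by
  have h1 : A.card ≤ (A + A).card := Finset.card_le_card_add_right hA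
  have h2 : (0 : ℝ) < (A.card : ℝ) := by exact_mod_cast hA.card_pos
  have h3 : (A.card : ℝ) ≤ ((A + A).card : ℝ) := by exact_mod_cast h1
  by_contra hc
  push Not at hc
  nlinarith

private lemma gen_card_add {G G' : Type} [AddCommGroup G] [AddCommGroup G'] [DecidableEq G]
    [DecidableEq G'] (A : Finset G) (g : G → G')
    (hg : ∀ x ∈ A, ∀ y ∈ A, ∀ z ∈ A, ∀ w ∈ A, (x + y = z + w ↔ g x + g y = g z + g w)) :
    (A.image g + A.image g).card ≤ (A + A).card := by
  classical
  let F : G → G' := fun s =>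
    if h : ∃ p : G × G, p.1 ∈ A ∧ p.2 ∈ A ∧ p.1 + p.2 = s then g h.choose.1 + g h.choose.2 else 0
  have hsub : A.image g + A.image g ⊆ (A + A).image F := by
    intro b hb
    rw [Finset.mem_add] at hb
    obtain ⟨u, hu, v, hv, rfl⟩ := hb
    rw [Finset.mem_image] at hu hv
    obtain ⟨x, hx, rfl⟩ := hu
    obtain ⟨y, hy, rfl⟩ := hv
    rw [Finset.mem_image]
    refine ⟨x + y, Finset.add_mem_add hx hy, ?_⟩
    have hex : ∃ p : G × G, p.1 ∈ A ∧ p.2 ∈ A ∧ p.1 + p.2 = x + y := ⟨(x, y), hx, hy, rfl⟩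
    have hF : F (x + y) = g hex.choose.1 + g hex.choose.2 := by
      simp only [F, dif_pos hex]
    rw [hF]
    obtain ⟨h1, h2, h3⟩ := hex.choose_spec
    exact (hg _ h1 _ h2 _ hx _ hy).1 h3
  exact (Finset.card_le_card hsub).trans Finset.card_image_le

theorem general : ∃ C : ℝ, 0 < C ∧ ∀ η : ℝ, 0 < η → η ≤ 1 →
    ∀ (G : Type) [AddCommGroup G] [DecidableEq G] (A : Finset G) (K : ℝ),
      A.Nonempty → (((A + A).card : ℝ) ≤ K * (A.card : ℝ)) →
        ∃ A' : Finset G, A' ⊆ A ∧
          Real.exp (-(C * ((1 + Real.log K) / η))) * (A.card : ℝ) ≤ (A'.card : ℝ) ∧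
          ∃ (H : Type) (_ : AddCommGroup H) (_ : Fintype H) (f : G → H),
            (Fintype.card H : ℝ) ≤
              Real.exp (C * ((1 + Real.log K) ^ (1 + C * η) / η)) * (A'.card : ℝ) ∧
            ∀ a ∈ A', ∀ b ∈ A', ∀ c ∈ A', ∀ d ∈ A', (a + b = c + d ↔ f a + f b = f c + f d) := by
  obtain ⟨C, hC, hfin⟩ := finite_case
  refine ⟨2 * C, by linarith, ?_⟩
  intro η hη hη1 G _ _ A K hA hK
  have hK1 : 1 ≤ K := gen_one_le G A K hA hK
  obtain ⟨G', _, _, g, hg⟩ := red_finite G A
  have ginj : Set.InjOn g (A : Set G) := by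
    intro x hx y hy h
    have h1 : x + x = y + x := (hg x hx x hx y hy x hx).2 (by rw [h])
    exact add_right_cancel h1
  classical
  have hBcard : (A.image g).card = A.card := Finset.card_image_of_injOn ginj
  have hBB : ((A.image g + A.image g).card : ℝ) ≤ K * ((A.image g).card : ℝ) := by
    rw [hBcard]
    refine le_trans ?_ hK
    have h' : (A.image g + A.image g).card ≤ (A + A).card := gen_card_add A g hg
    exact_mod_cast h'
  have hBB' := hfin (η / 2) (by linarith) (by linarith) G' (A.image g) K (hA.image g) hK1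
    hBB
  obtain ⟨B', hB'B, hB'card, H, iH, iHF, f, hH, hf⟩ := hBB'
  have hB'eq : (A.filter (fun x => g x ∈ B')).image g = B' := by
    ext b
    rw [Finset.mem_image]
    constructor
    · rintro ⟨x, hx, rfl⟩
      exact (Finset.mem_filter.1 hx).2
    · intro hb
      have hb2 := hB'B hb
      rw [Finset.mem_image] at hb2
      obtain ⟨x, hx, rfl⟩ := hb2
      exact ⟨x, Finset.mem_filter.2 ⟨hx, hb⟩, rfl⟩
  have hcard : (A.filter (fun x => g x ∈ B')).card = B'.card := by
    conv_rhs => rw [← hB'eq]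
    refine (Finset.card_image_of_injOn ?_).symm
    intro x hx y hy h
    have hx' := (Finset.mem_filter.1 (Finset.mem_coe.1 hx)).1
    have hy' := (Finset.mem_filter.1 (Finset.mem_coe.1 hy)).1
    exact ginj hx' hy' h
  have hk : (1 : ℝ) ≤ 1 + Real.log K := by
    have := Real.log_nonneg hK1
    linarith
  refine ⟨A.filter (fun x => g x ∈ B'), Finset.filter_subset _ _, ?_, H, iH, iHF, fun x => f (g x),
    ?_, ?_⟩
  · rw [hcard]
    rw [hBcard] at hB'card
    have h1 : 2 * C * ((1 + Real.log K) / η) = C * ((1 + Real.log K) / (η / 2)) := by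
      field_simp
    rw [h1]
    exact hB'card
  · rw [hcard]
    refine hH.trans ?_
    have h2 : C * ((1 + Real.log K) ^ (1 + C * (η / 2)) / (η / 2)) ≤
        2 * C * ((1 + Real.log K) ^ (1 + 2 * C * η) / η) := by
      have h3 : (1 + Real.log K) ^ (1 + C * (η / 2)) ≤ (1 + Real.log K) ^ (1 + 2 * C * η) := by
        apply Real.rpow_le_rpow_of_exponent_le hk
        nlinarith [mul_pos hC hη]
      have h4 : C * ((1 + Real.log K) ^ (1 + C * (η / 2)) / (η / 2)) =
          2 * C * ((1 + Real.log K) ^ (1 + C * (η / 2)) / η) := by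
        field_simp
      rw [h4]
      gcongr
    have h5 := Real.exp_le_exp.2 h2
    exact mul_le_mul_of_nonneg_right h5 (by positivity)
  · intro a ha b hb c hc d hd
    have ha' := Finset.mem_filter.1 ha
    have hb' := Finset.mem_filter.1 hb
    have hc' := Finset.mem_filter.1 hc
    have hd' := Finset.mem_filter.1 hd
    exact (hg a ha'.1 b hb'.1 c hc'.1 d hd'.1).trans
      (hf _ ha'.2 _ hb'.2 _ hc'.2 _ hd'.2)

/-- polynomial density, model of size `exp (C (1 + log K)^(1+ε)) |A'|` -/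
theorem corA (ε : ℝ) (hε : 0 < ε) : ∃ C : ℝ, 0 < C ∧
    ∀ (G : Type) [AddCommGroup G] [DecidableEq G] (A : Finset G) (K : ℝ),
      A.Nonempty → (((A + A).card : ℝ) ≤ K * (A.card : ℝ)) →
        ∃ A' : Finset G, A' ⊆ A ∧ C⁻¹ * K ^ (-C) * (A.card : ℝ) ≤ (A'.card : ℝ) ∧
          ∃ (H : Type) (_ : AddCommGroup H) (_ : Fintype H) (f : G → H),
            (Fintype.card H : ℝ) ≤ Real.exp (C * (1 + Real.log K) ^ (1 + ε)) * (A'.card : ℝ) ∧
            ∀ a ∈ A', ∀ b ∈ A', ∀ c ∈ A', ∀ d ∈ A', (a + b = c + d ↔ f a + f b = f c + f d) := by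
  obtain ⟨C, hC, hgen⟩ := general
  set η : ℝ := min 1 (ε / C) with hη
  have hη0 : 0 < η := lt_min one_pos (div_pos hε hC)
  have hη1 : η ≤ 1 := min_le_left _ _
  have hCη : C * η ≤ ε := by
    have h1 : η ≤ ε / C := min_le_right _ _
    calc C * η ≤ C * (ε / C) := mul_le_mul_of_nonneg_left h1 hC.le
      _ = ε := by field_simp
  have hq : 0 < C / η := div_pos hC hη0
  refine ⟨Real.exp (C / η) + C / η, by positivity, ?_⟩
  intro G _ _ A K hA hK
  have hK1 : 1 ≤ K := gen_one_le G A K hA hK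
  have hK0 : 0 < K := by linarith
  have hlog : 0 ≤ Real.log K := Real.log_nonneg hK1
  have hk : (1 : ℝ) ≤ 1 + Real.log K := by linarith
  obtain ⟨A', hA', hcard, H, iH, iHF, f, hH, hf⟩ := hgen η hη0 hη1 G A K hA hK
  refine ⟨A', hA', ?_, H, iH, iHF, f, ?_, hf⟩
  · refine le_trans ?_ hcard
    refine mul_le_mul_of_nonneg_right ?_ (by positivity)
    have h1 : Real.exp (-(C * ((1 + Real.log K) / η))) =
        (Real.exp (C / η))⁻¹ * K ^ (-(C / η)) := by
      rw [Real.rpow_def_of_pos hK0, ← Real.exp_neg, ← Real.exp_add]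
      congr 1
      field_simp
      ring
    rw [h1]
    have h2 : (Real.exp (C / η) + C / η)⁻¹ ≤ (Real.exp (C / η))⁻¹ := by
      apply inv_anti₀ (Real.exp_pos _)
      linarith
    have h3 : K ^ (-(Real.exp (C / η) + C / η)) ≤ K ^ (-(C / η)) := by
      apply Real.rpow_le_rpow_of_exponent_le hK1
      have := Real.exp_pos (C / η)
      linarith
    exact mul_le_mul h2 h3 (Real.rpow_nonneg hK0.le _) (inv_nonneg.2 (Real.exp_pos _).le)
  · refine hH.trans ?_
    refine mul_le_mul_of_nonneg_right (Real.exp_le_exp.2 ?_) (by positivity)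
    have h1 : (1 + Real.log K) ^ (1 + C * η) ≤ (1 + Real.log K) ^ (1 + ε) := by
      apply Real.rpow_le_rpow_of_exponent_le hk
      linarith
    have h0 : 0 ≤ (1 + Real.log K) ^ (1 + ε) := Real.rpow_nonneg (by linarith) _
    calc C * ((1 + Real.log K) ^ (1 + C * η) / η) = C / η * (1 + Real.log K) ^ (1 + C * η) := by
          ring
      _ ≤ C / η * (1 + Real.log K) ^ (1 + ε) := mul_le_mul_of_nonneg_left h1 hq.le
      _ ≤ (Real.exp (C / η) + C / η) * (1 + Real.log K) ^ (1 + ε) := by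
          apply mul_le_mul_of_nonneg_right _ h0
          have := Real.exp_pos (C / η)
          linarith

/-- both bounds of the form `K^(C log log K)` -/
theorem corB : ∃ C : ℝ, 0 < C ∧
    ∀ (G : Type) [AddCommGroup G] [DecidableEq G] (A : Finset G) (K : ℝ),
      A.Nonempty → (((A + A).card : ℝ) ≤ K * (A.card : ℝ)) →
        ∃ A' : Finset G, A' ⊆ A ∧
          Real.exp (-(C * ((1 + Real.log K) * (1 + Real.log (1 + Real.log K))))) * (A.card : ℝ)
            ≤ (A'.card : ℝ) ∧
          ∃ (H : Type) (_ : AddCommGroup H) (_ : Fintype H) (f : G → H),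
            (Fintype.card H : ℝ) ≤
              Real.exp (C * ((1 + Real.log K) * (1 + Real.log (1 + Real.log K)))) * (A'.card : ℝ) ∧
            ∀ a ∈ A', ∀ b ∈ A', ∀ c ∈ A', ∀ d ∈ A', (a + b = c + d ↔ f a + f b = f c + f d) := by
  obtain ⟨C, hC, hgen⟩ := general
  refine ⟨C * Real.exp C, by positivity, ?_⟩
  intro G _ _ A K hA hK
  have hK1 : 1 ≤ K := gen_one_le G A K hA hK
  have hlog : 0 ≤ Real.log K := Real.log_nonneg hK1
  set k : ℝ := 1 + Real.log K with hkdef
  have hk : (1 : ℝ) ≤ k := by linarith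
  have hk0 : 0 < k := by linarith
  have hlogk : 0 ≤ Real.log k := Real.log_nonneg hk
  set L : ℝ := 1 + Real.log k with hL
  have hL1 : 1 ≤ L := by linarith
  have hL0 : 0 < L := by linarith
  have hexp : (1 : ℝ) ≤ Real.exp C := Real.one_le_exp hC.le
  obtain ⟨A', hA', hcard, H, iH, iHF, f, hH, hf⟩ :=
    hgen (1 / L) (by positivity) (by rw [div_le_one hL0]; exact hL1) G A K hA hK
  refine ⟨A', hA', ?_, H, iH, iHF, f, ?_, hf⟩
  · refine le_trans ?_ hcard
    refine mul_le_mul_of_nonneg_right (Real.exp_le_exp.2 ?_) (by positivity)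
    have h1 : C * (k / (1 / L)) = C * (k * L) := by
      field_simp
    rw [← hkdef, h1]
    have h2 : C * (k * L) ≤ C * Real.exp C * (k * L) := by
      apply mul_le_mul_of_nonneg_right _ (by positivity)
      nlinarith
    linarith
  · refine hH.trans ?_
    refine mul_le_mul_of_nonneg_right (Real.exp_le_exp.2 ?_) (by positivity)
    rw [← hkdef]
    have h1 : k ^ (1 + C * (1 / L)) ≤ k * Real.exp C := by
      rw [Real.rpow_add hk0, Real.rpow_one]
      apply mul_le_mul_of_nonneg_left _ hk0.le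
      rw [Real.rpow_def_of_pos hk0]
      apply Real.exp_le_exp.2
      have h3 : Real.log k / L ≤ 1 := by
        rw [div_le_one hL0]
        linarith
      calc Real.log k * (C * (1 / L)) = C * (Real.log k / L) := by ring
        _ ≤ C * 1 := mul_le_mul_of_nonneg_left h3 hC.le
        _ = C := mul_one C
    calc C * (k ^ (1 + C * (1 / L)) / (1 / L)) = C * L * k ^ (1 + C * (1 / L)) := by
          field_simp
      _ ≤ C * L * (k * Real.exp C) := mul_le_mul_of_nonneg_left h1 (by positivity)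
      _ = C * Real.exp C * (k * L) := by ring

end Pool.Agent.NPM
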