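import Pool.Agent.NPM.Defs
set_option autoImplicit false

/-!
# Kul.  A Pinsker inequality with constant 4 (size 1).

Let `c = Σ_g √(μ g) √(ν g)`.  `log x ≤ x - 1` at `x = √(ν g / μ g)` gives, for `μ g > 0` (then `ν g > 0`),
`μ g log (μ g/ν g) = -2 μ g log √(ν g/μ g) ≥ 2 μ g - 2 √(μ g) √(ν g)`; also true for `μ g = 0`.  So `Σ μ log (μ/ν) ≥ 2 - 2c =
Σ (√μ - √ν)²`.  `|μ g - ν g| = |√μ - √ν| (√μ + √ν)`; Cauchy-Schwarz (`Finset.sum_mul_sq_le_sq_mul_sq`):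
`(Σ |μ g - ν g|)² ≤ Σ (√μ - √ν)² Σ (√μ + √ν)² = (2 - 2c)(2 + 2c) ≤ 4 (2 - 2c)` (`c ≤ 1` since `2 - 2c = Σ(√μ - √ν)² ≥ 0`).
-/
namespace Pool.Agent.NPM
open Finset Pool.Agent.Ldc

theorem pinsker {α : Type} [Fintype α] {μ ν : α → ℝ} (hμ : IsP μ) (hν : IsP ν)
    (h : ∀ g, ν g = 0 → μ g = 0) :
    (∑ g, |μ g - ν g|) ^ 2 ≤ 4 * ∑ g, μ g * Real.log (μ g / ν g) := by
  have hs : ∀ g, √(μ g) * √(μ g) = μ g := fun g => Real.mul_self_sqrt (hμ.1 g)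
  have ht : ∀ g, √(ν g) * √(ν g) = ν g := fun g => Real.mul_self_sqrt (hν.1 g)
  have hpt : ∀ g, 2 * μ g - 2 * (√(μ g) * √(ν g)) ≤ μ g * Real.log (μ g / ν g) := by
    intro g
    rcases eq_or_lt_of_le (hμ.1 g) with h0 | h0
    · rw [← h0]
      simp
    · have hν0 : 0 < ν g := lt_of_le_of_ne (hν.1 g) (fun h1 => h0.ne' (h g h1.symm))
      have ha : 0 < √(μ g) := Real.sqrt_pos.2 h0
      have hb : 0 < √(ν g) := Real.sqrt_pos.2 hν0
      have h1 : Real.log (√(ν g) / √(μ g)) ≤ √(ν g) / √(μ g) - 1 :=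
        Real.log_le_sub_one_of_pos (by positivity)
      have h2 : Real.log (μ g / ν g) = -2 * Real.log (√(ν g) / √(μ g)) := by
        rw [Real.log_div h0.ne' hν0.ne', Real.log_div hb.ne' ha.ne', Real.log_sqrt h0.le,
          Real.log_sqrt hν0.le]
        ring
      rw [h2]
      have h3 : μ g * (√(ν g) / √(μ g)) = √(μ g) * √(ν g) := by
        rw [← mul_div_assoc, div_eq_iff ha.ne']
        nlinarith [hs g]
      nlinarith
  have hsum : ∑ g, (√(μ g) - √(ν g)) ^ 2 ≤ ∑ g, μ g * Real.log (μ g / ν g) := by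
    have e1 : ∑ g, (√(μ g) - √(ν g)) ^ 2 =
        ∑ g, (2 * μ g - 2 * (√(μ g) * √(ν g))) + (∑ g, ν g - ∑ g, μ g) := by
      rw [← Finset.sum_sub_distrib, ← Finset.sum_add_distrib]
      refine Finset.sum_congr rfl fun g _ => ?_
      nlinarith [hs g, ht g]
    rw [e1, hν.2, hμ.2, sub_self, add_zero]
    exact Finset.sum_le_sum fun g _ => hpt g
  have hcs : (∑ g, |μ g - ν g|) ^ 2 ≤
      (∑ g, |√(μ g) - √(ν g)| ^ 2) * ∑ g, (√(μ g) + √(ν g)) ^ 2 := by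
    have e2 : ∀ g, |μ g - ν g| = |√(μ g) - √(ν g)| * (√(μ g) + √(ν g)) := by
      intro g
      rw [← abs_of_nonneg (add_nonneg (Real.sqrt_nonneg (μ g)) (Real.sqrt_nonneg (ν g))),
        ← abs_mul]
      congr 1
      nlinarith [hs g, ht g]
    simp only [e2]
    exact Finset.sum_mul_sq_le_sq_mul_sq _ _ _
  have h4 : ∑ g, (√(μ g) + √(ν g)) ^ 2 ≤ 4 := by
    have e3 : ∑ g, (√(μ g) + √(ν g)) ^ 2 ≤ ∑ g, (2 * μ g + 2 * ν g) := by
      refine Finset.sum_le_sum fun g _ => ?_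
      nlinarith [hs g, ht g, sq_nonneg (√(μ g) - √(ν g))]
    rw [Finset.sum_add_distrib, ← Finset.mul_sum, ← Finset.mul_sum, hμ.2, hν.2] at e3
    linarith
  simp only [sq_abs] at hcs
  have h5 : 0 ≤ ∑ g, (√(μ g) - √(ν g)) ^ 2 := Finset.sum_nonneg fun g _ => sq_nonneg _
  nlinarith

end Pool.Agent.NPM
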