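import Pool.Agent.NPM.Defs
set_option autoImplicit false

/-!
# Lft.  Real lifts of characters near 1 (size 2).

`arg_small`: `w = ξ (x - x₀)` has `‖w‖ = 1`, `‖w - 1‖² ≤ 2/35`.  Then `|arg w| < π/4`: `Complex.abs_arg_lt...` or: `‖w - 1‖² = 2 - 2 cos (arg w)`
(for `‖w‖ = 1`: `re w = cos (arg w)`, `Complex.cos_arg`), so `cos (arg w) ≥ 1 - 1/35 > cos (π/4) = √2/2`, and `cos` is decreasing on `[0, π]`
(`|arg w| ≤ π`, `Real.cos_abs`, `Real.strictAntiOn_cos`).
`sum_arg`: `e j ∈ {1, -1}` etc.: if `∏ w_j^{±1} = 1` then `exp (i Σ ± arg w_j) = 1`, so `Σ ± arg w_j = 2π n` (`Complex.exp_eq_one_iff`), and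
`|Σ| < 8 π/4 = 2π` gives `Σ = 0`.  (`w_j = exp (i arg w_j)` since `‖w_j‖ = 1`: `Complex.norm_mul_exp_arg_mul_I`.)
-/
namespace Pool.Agent.NPM

theorem arg_small (w : ℂ) (hw : ‖w‖ = 1) (h : ‖w - 1‖ ^ 2 ≤ 2 / 35) : |w.arg| < Real.pi / 4 := by
  have hw0 : w ≠ 0 := by
    intro h0
    rw [h0, norm_zero] at hw
    exact zero_ne_one hw
  have hcos : Real.cos w.arg = w.re := by
    rw [Complex.cos_arg hw0, hw, div_one]
  have h1 : w.re * w.re + w.im * w.im = 1 := by
    have := Complex.sq_norm w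
    rw [hw, Complex.normSq_apply] at this
    linarith
  have h2 : ‖w - 1‖ ^ 2 = (w.re - 1) * (w.re - 1) + w.im * w.im := by
    rw [Complex.sq_norm, Complex.normSq_apply]
    simp
  have hre : 34 / 35 ≤ w.re := by
    rw [h2] at h
    nlinarith
  by_contra hcon
  push Not at hcon
  have h3 : Real.cos |w.arg| ≤ Real.cos (Real.pi / 4) := by
    apply Real.cos_le_cos_of_nonneg_of_le_pi (by positivity) (Complex.abs_arg_le_pi w) hcon
  rw [Real.cos_abs, hcos, Real.cos_pi_div_four] at h3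
  have h4 : √2 ≤ 15 / 10 := by
    rw [Real.sqrt_le_left (by norm_num)]
    norm_num
  linarith

/-- eight unit complex numbers near 1: the product `w1 w2 / (w3 w4) / (w5 w6 / (w7 w8))` is `1` iff the corresponding sum of
arguments vanishes -/
theorem prod_eight (w : Fin 8 → ℂ) (hw : ∀ i, ‖w i‖ = 1) (h : ∀ i, |(w i).arg| < Real.pi / 4) :
    w 0 * w 1 / (w 2 * w 3) / (w 4 * w 5 / (w 6 * w 7)) = 1 ↔
      (w 0).arg + (w 1).arg - (w 2).arg - (w 3).arg
        - ((w 4).arg + (w 5).arg - (w 6).arg - (w 7).arg) = 0 := by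
  have he : ∀ i, w i = Complex.exp ((w i).arg * Complex.I) := by
    intro i
    have := Complex.norm_mul_exp_arg_mul_I (w i)
    rw [hw i] at this
    simpa using this.symm
  have hprod : w 0 * w 1 / (w 2 * w 3) / (w 4 * w 5 / (w 6 * w 7)) =
      Complex.exp (((((w 0).arg + (w 1).arg - (w 2).arg - (w 3).arg
        - ((w 4).arg + (w 5).arg - (w 6).arg - (w 7).arg) : ℝ)) : ℂ) * Complex.I) := by
    conv_lhs => rw [he 0, he 1, he 2, he 3, he 4, he 5, he 6, he 7]
    rw [← Complex.exp_add, ← Complex.exp_add, ← Complex.exp_add, ← Complex.exp_add,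
      ← Complex.exp_sub, ← Complex.exp_sub, ← Complex.exp_sub]
    congr 1
    push_cast
    ring
  rw [hprod]
  constructor
  · intro h1
    rw [Complex.exp_eq_one_iff] at h1
    obtain ⟨n, hn⟩ := h1
    set S : ℝ := (w 0).arg + (w 1).arg - (w 2).arg - (w 3).arg
        - ((w 4).arg + (w 5).arg - (w 6).arg - (w 7).arg) with hS
    have hn' : S = n * (2 * Real.pi) := by
      have h2 : ((S : ℝ) : ℂ) * Complex.I = ((n * (2 * Real.pi) : ℝ) : ℂ) * Complex.I := by
        rw [hn]
        push_cast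
        ring
      have h3 := mul_right_cancel₀ Complex.I_ne_zero h2
      exact_mod_cast h3
    have hlt : |S| < 2 * Real.pi := by
      have h0 := abs_lt.mp (h 0)
      have h1 := abs_lt.mp (h 1)
      have h2 := abs_lt.mp (h 2)
      have h3 := abs_lt.mp (h 3)
      have h4 := abs_lt.mp (h 4)
      have h5 := abs_lt.mp (h 5)
      have h6 := abs_lt.mp (h 6)
      have h7 := abs_lt.mp (h 7)
      rw [abs_lt]
      constructor <;> rw [hS] <;> linarith [h0.1, h0.2, h1.1, h1.2, h2.1, h2.2, h3.1, h3.2,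
        h4.1, h4.2, h5.1, h5.2, h6.1, h6.2, h7.1, h7.2]
    have hn0 : n = 0 := by
      have hpi := Real.pi_pos
      rw [hn', abs_mul, abs_of_pos (by positivity : (0 : ℝ) < 2 * Real.pi)] at hlt
      have h2 : |(n : ℝ)| < 1 := by
        by_contra hc
        push Not at hc
        have : 1 * (2 * Real.pi) ≤ |(n : ℝ)| * (2 * Real.pi) := by gcongr
        linarith
      have h3 : |n| < 1 := by exact_mod_cast h2
      exact Int.abs_lt_one_iff.mp h3
    rw [hn', hn0]
    simp
  · intro h1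
    rw [h1]
    simp

end Pool.Agent.NPM
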