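import Pool.Agent.NPM.FAv
import Pool.Agent.NPM.AvF
set_option autoImplicit false

/-!
# N2b.  Mean square distance to the coset averages (size 2).

`f = fl a lam (P y)`.  `|G| N2 F (conv f ν) = Σ_ξ [¬ ξ trivial on F] ‖hat f ξ‖² ‖hat ν ξ‖²` (`N2_eq`, `hat_conv`).  Apply `Av n` (in `ν`): `Av_sum`,
`Av_mul`, `Av_hat`: `‖hat ν ξ‖²` becomes `(1 - aa ξ)^n`.  If `ξ` is not trivial on `F = AnnS u P t` then `ξ` is not in `{aa ≤ t}`
(else `ξ w = 1` for all `w ∈ F` by definition), so `0 ≤ 1 - aa ξ ≤ 1 - t` and `(1 - aa ξ)^n ≤ (1 - t)^n`.  `parseval`: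
`Av n (N2 F (conv f ν)) ≤ (1 - t)^n Σ_x f x ^ 2`.  `f x ^ 2 ≤ (e^lam / a) f x` and `Σ f ≤ Σ P y = 1`.  Average over `y`.
-/
namespace Pool.Agent.NPM
open Finset Pool.Agent.Ldc

variable {G : Type} [AddCommGroup G] [Fintype G] {β : Type} [Fintype β]

private theorem N2b_fl_nonneg {p : G → ℝ} (hp : IsP p) (a lam : ℝ) (x : G) : 0 ≤ fl a lam p x := by
  unfold fl
  split_ifs
  · exact hp.1 x
  · exact le_refl _

private theorem N2b_fl_le {p : G → ℝ} (hp : IsP p) (a lam : ℝ) (x : G) : fl a lam p x ≤ p x := by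
  unfold fl
  split_ifs
  · exact le_refl _
  · exact hp.1 x

private theorem N2b_fl_sq {p : G → ℝ} (hp : IsP p) (a lam : ℝ) (ha : 0 < a) (x : G) :
    (fl a lam p x) ^ 2 ≤ Real.exp lam / a * fl a lam p x := by
  have h0 := N2b_fl_nonneg hp a lam x
  have h1 : fl a lam p x ≤ Real.exp lam / a := by
    unfold fl
    split_ifs with h
    · rw [le_div_iff₀ ha]
      linarith
    · positivity
  nlinarith

private theorem N2b_one {u : β → ℝ} {P : β → G → ℝ} (hu : IsP u) (hP : ∀ y, IsP (P y)) (t a lam : ℝ)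
    (ht : t ≤ 1) (ha : 0 < a) (n : ℕ) {p : G → ℝ} (hp : IsP p) :
    Av u P n (fun ν => N2 (AnnS u P t) (conv (fl a lam p) ν)) ≤ (1 - t) ^ n * (Real.exp lam / a) := by
  classical
  set f := fl a lam p with hf
  set F := AnnS u P t with hF
  have hG : (0 : ℝ) < (Fintype.card G : ℝ) := by exact_mod_cast Fintype.card_pos
  have e1 : (Fintype.card G : ℝ) * Av u P n (fun ν => N2 F (conv f ν)) =
      ∑ ξ : AddChar G ℂ, (if (∀ w ∈ F, ξ w = 1) then 0 else ‖hat f ξ‖ ^ 2) * (1 - aa u P ξ) ^ n := by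
    rw [← Av_mul hu hP]
    have e2 : Av u P n (fun ν => (Fintype.card G : ℝ) * N2 F (conv f ν)) =
        Av u P n (fun ν => ∑ ξ : AddChar G ℂ,
          (if (∀ w ∈ F, ξ w = 1) then 0 else ‖hat f ξ‖ ^ 2) * ‖hat ν ξ‖ ^ 2) := by
      refine Av_congr hu hP n _ _ (fun ν _ => ?_)
      rw [N2_eq]
      refine Finset.sum_congr rfl (fun ξ _ => ?_)
      rw [hat_conv, norm_mul, mul_pow]
      by_cases h : ∀ w ∈ F, ξ w = 1
      · rw [if_pos h, if_pos h, zero_mul]
      · rw [if_neg h, if_neg h]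
    rw [e2, Av_sum hu hP]
    refine Finset.sum_congr rfl (fun ξ _ => ?_)
    rw [Av_mul hu hP, Av_hat hu hP]
  have e3 : ∑ ξ : AddChar G ℂ, (if (∀ w ∈ F, ξ w = 1) then 0 else ‖hat f ξ‖ ^ 2) * (1 - aa u P ξ) ^ n
      ≤ ∑ ξ : AddChar G ℂ, ‖hat f ξ‖ ^ 2 * (1 - t) ^ n := by
    refine Finset.sum_le_sum (fun ξ _ => ?_)
    have h1t : 0 ≤ (1 - t) ^ n := pow_nonneg (by linarith) _
    by_cases h : ∀ w ∈ F, ξ w = 1
    · rw [if_pos h, zero_mul]
      positivity
    · rw [if_neg h]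
      have hnot : ¬ aa u P ξ ≤ t := by
        intro h2
        apply h
        intro w hw
        exact hw ξ h2
      have h3 := aa_le_one (P := P) hu ξ
      refine mul_le_mul_of_nonneg_left ?_ (by positivity)
      exact pow_le_pow_left₀ (by linarith) (by linarith) n
  rw [← Finset.sum_mul, parseval] at e3
  have e4 : ∑ x, (f x) ^ 2 ≤ Real.exp lam / a := by
    calc ∑ x, (f x) ^ 2 ≤ ∑ x, Real.exp lam / a * f x :=
          Finset.sum_le_sum (fun x _ => N2b_fl_sq hp a lam ha x)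
      _ = Real.exp lam / a * ∑ x, f x := by rw [Finset.mul_sum]
      _ ≤ Real.exp lam / a * 1 := by
          refine mul_le_mul_of_nonneg_left ?_ (by positivity)
          rw [← hp.2]
          exact Finset.sum_le_sum (fun x _ => N2b_fl_le hp a lam x)
      _ = _ := mul_one _
  have h1t : 0 ≤ (1 - t) ^ n := pow_nonneg (by linarith) _
  have e5 : (Fintype.card G : ℝ) * Av u P n (fun ν => N2 F (conv f ν)) ≤
      (Fintype.card G : ℝ) * ((1 - t) ^ n * (Real.exp lam / a)) := by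
    rw [e1]
    refine e3.trans ?_
    calc ((Fintype.card G : ℝ) * ∑ x, (f x) ^ 2) * (1 - t) ^ n
        = (Fintype.card G : ℝ) * ((1 - t) ^ n * ∑ x, (f x) ^ 2) := by ring
      _ ≤ (Fintype.card G : ℝ) * ((1 - t) ^ n * (Real.exp lam / a)) := by gcongr
  exact le_of_mul_le_mul_left e5 hG

theorem N2_avg {u : β → ℝ} {P : β → G → ℝ} (hu : IsP u) (hP : ∀ y, IsP (P y)) (t a lam : ℝ)
    (ht : t ≤ 1) (ha : 0 < a) (n : ℕ) :
    ∑ y, u y * Av u P n (fun ν => N2 (AnnS u P t) (conv (fl a lam (P y)) ν))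
      ≤ (1 - t) ^ n * (Real.exp lam / a) := by
  calc ∑ y, u y * Av u P n (fun ν => N2 (AnnS u P t) (conv (fl a lam (P y)) ν))
      ≤ ∑ y, u y * ((1 - t) ^ n * (Real.exp lam / a)) :=
        Finset.sum_le_sum (fun y _ => mul_le_mul_of_nonneg_left
          (N2b_one hu hP t a lam ht ha n (hP y)) (hu.1 y))
    _ = (1 - t) ^ n * (Real.exp lam / a) := by
        rw [← Finset.sum_mul, hu.2, one_mul]

end Pool.Agent.NPM
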