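import Pool.Agent.NPM.Bas
set_option autoImplicit false

/-!
# Rep.  The random law `Z_m | Y^m` as a finite family (size 1).

Induction on `m`: `m = 0`: `ι = Unit`, `v = 1`, `Q = dl`.  `m + 1`: `ι' = β × ι`, `v' (y, i) = u y * v i`,
`Q' (y, i) = conv (P y) (Q i)`.
-/
namespace Pool.Agent.NPM
open Finset Pool.Agent.Ldc

variable {G : Type} [AddCommGroup G] [Fintype G] {β : Type} [Fintype β]

theorem Av_rep {u : β → ℝ} {P : β → G → ℝ} (hu : IsP u) (hP : ∀ y, IsP (P y)) (m : ℕ) :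
    ∃ (ι : Type) (_ : Fintype ι) (v : ι → ℝ) (Q : ι → G → ℝ), IsP v ∧ (∀ i, IsP (Q i)) ∧
      ∀ F : (G → ℝ) → ℝ, Av u P m F = ∑ i, v i * F (Q i) := by
  induction m with
  | zero =>
    refine ⟨Unit, inferInstance, fun _ => 1, fun _ => dl, ⟨fun _ => zero_le_one, by simp⟩,
      fun _ => dl_isP, fun F => ?_⟩
    simp [Av]
  | succ m ih =>
    obtain ⟨ι, hι, v, Q, hv, hQ, h⟩ := ih
    refine ⟨β × ι, inferInstance, fun x => u x.1 * v x.2, fun x => conv (P x.1) (Q x.2),
      ⟨fun x => mul_nonneg (hu.1 _) (hv.1 _), ?_⟩, fun x => conv_isP (hP _) (hQ _), fun F => ?_⟩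
    · rw [Fintype.sum_prod_type]
      have e : ∀ y : β, ∑ i : ι, u y * v i = u y := by
        intro y
        rw [← Finset.mul_sum, hv.2, mul_one]
      simp only [e]
      exact hu.2
    · rw [Fintype.sum_prod_type]
      simp only [Av]
      refine Finset.sum_congr rfl (fun y _ => ?_)
      rw [h, Finset.mul_sum]
      refine Finset.sum_congr rfl (fun i _ => ?_)
      ring

end Pool.Agent.NPM
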