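import Pool.Agent.NPM.Ext
import Pool.Agent.NPM.Kvm
set_option autoImplicit false

/-!
# Sdp.  The two-copy inequality and concavity (size 2).

`sdp`: `ext_dec` and `NearMin` for it: `Phi η A u P - κ ≤ Phi η A u' P'`; unfold `Phi`, `nlinarith`/`linarith` after
`h1' = h1 + hn - h(n+1)`: coefficient of `hh u' P' 1` is `-(1 + η)` (equality), of `hh u' P' 2` is `1`.
`ccv`: `hh (m+2) = Σ_y u y Σ_y' u y' Av m (fun μ => ent (conv P_y (conv P_y' μ)))`; `kvm` for each, `Av_mono`, `Av_add`;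
`Σ_y u y Σ_y' u y' Av m (ent (conv P_y μ)) = hh (m+1)` (`Σ u = 1`).
`hh_le_two`: `hh 1 = Σ_y u y ent (P y) ≤ Σ_y Σ_y' u u' ent (conv P_y' P_y)` by `ent_conv_ge`.
`hh_one_le`: if `u y > 0` then `P y x > 0` implies `x ∈ A` (from `mix`, `unif A x = 0` off `A`), so `ent (P y) ≤ log |A|`
(`ent_eq_H`, `H_le_log_card` of Ldc.E4).
-/
namespace Pool.Agent.NPM
open Finset Pool.Agent.Ldc

variable {G : Type} [AddCommGroup G] [Fintype G] {β : Type} [Fintype β]

theorem sdp {η κ : ℝ} {A : Finset G} {u : β → ℝ} {P : β → G → ℝ} (hN : NearMin η κ A u P) (n : ℕ) :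
    hh u P (2 * n + 2) - hh u P (2 * n) ≤ (1 + η) * (hh u P (n + 1) - hh u P n) + κ := by
  obtain ⟨β', i, u', P', hD', h1, h2⟩ := ext_dec hN.1 n
  have h3 := hN.2 β' i u' P' hD'
  unfold Phi at h3
  rw [h1] at h3
  linarith

theorem ccv {A : Finset G} {u : β → ℝ} {P : β → G → ℝ} (hD : Dec A u P) (m : ℕ) :
    hh u P (m + 2) + hh u P m ≤ 2 * hh u P (m + 1) := by
  have hu := hD.hu
  have hP := hD.hP
  set B : ℝ := Av u P m ent with hB
  set C : β → ℝ := fun y => Av u P m (fun μ => ent (conv (P y) μ)) with hC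
  set T : β → β → ℝ := fun y y' => Av u P m (fun μ => ent (conv (P y) (conv (P y') μ))) with hT
  have e2 : hh u P (m + 2) = ∑ y, u y * ∑ y', u y' * T y y' := rfl
  have e1 : hh u P (m + 1) = ∑ y, u y * C y := rfl
  have e0 : hh u P m = B := rfl
  have key : ∀ y y', T y y' + B ≤ C y + C y' := by
    intro y y'
    have h1 := Av_add hu hP m (fun μ => ent (conv (P y) (conv (P y') μ))) ent
    have h2 := Av_add hu hP m (fun μ => ent (conv (P y) μ)) (fun μ => ent (conv (P y') μ))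
    have h3 := Av_mono hu hP m (fun μ => ent (conv (P y) (conv (P y') μ)) + ent μ)
      (fun μ => ent (conv (P y) μ) + ent (conv (P y') μ))
      (fun μ hμ => kvm (hP y) (hP y') hμ)
    simp only [hT, hC, hB]
    linarith
  have h4 : ∑ y, u y * ∑ y', u y' * (T y y' + B) ≤ ∑ y, u y * ∑ y', u y' * (C y + C y') := by
    refine Finset.sum_le_sum (fun y _ => mul_le_mul_of_nonneg_left ?_ (hu.1 y))
    exact Finset.sum_le_sum (fun y' _ => mul_le_mul_of_nonneg_left (key y y') (hu.1 y'))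
  have h5 : ∑ y, u y * ∑ y', u y' * (T y y' + B) = hh u P (m + 2) + hh u P m := by
    rw [e2, e0]
    have a1 : ∀ y, ∑ y', u y' * (T y y' + B) = (∑ y', u y' * T y y') + B := by
      intro y
      simp only [mul_add]
      rw [Finset.sum_add_distrib, ← Finset.sum_mul, hu.2, one_mul]
    simp only [a1]
    simp only [mul_add]
    rw [Finset.sum_add_distrib, ← Finset.sum_mul, hu.2, one_mul]
  have h6 : ∑ y, u y * ∑ y', u y' * (C y + C y') = 2 * hh u P (m + 1) := by
    rw [e1]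
    have a1 : ∀ y, ∑ y', u y' * (C y + C y') = C y + ∑ y', u y' * C y' := by
      intro y
      simp only [mul_add]
      rw [Finset.sum_add_distrib, ← Finset.sum_mul, hu.2, one_mul]
    simp only [a1]
    simp only [mul_add]
    rw [Finset.sum_add_distrib, ← Finset.sum_mul, hu.2]
    ring
  rw [h5, h6] at h4
  exact h4

theorem hh_le_two {A : Finset G} {u : β → ℝ} {P : β → G → ℝ} (hD : Dec A u P) :
    hh u P 1 ≤ hh u P 2 := by
  have hu := hD.hu
  have hP := hD.hP
  unfold hh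
  rw [Av_one, Av_two]
  have h1 : ∑ y, u y * ent (P y) = ∑ y, u y * ∑ y', u y' * ent (P y') := by
    rw [← Finset.sum_mul, hu.2, one_mul]
  rw [h1]
  refine Finset.sum_le_sum (fun y _ => mul_le_mul_of_nonneg_left ?_ (hu.1 y))
  exact Finset.sum_le_sum (fun y' _ => mul_le_mul_of_nonneg_left
    (ent_conv_ge (hP y) (hP y')) (hu.1 y'))

theorem Dec.supp {A : Finset G} {u : β → ℝ} {P : β → G → ℝ} (hD : Dec A u P) {y : β} (hy : 0 < u y)
    {x : G} (hx : x ∉ A) : P y x = 0 := by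
  have h1 := hD.mix x
  have h2 : unif A x = 0 := by
    unfold unif
    rw [if_neg hx]
  rw [h2] at h1
  have h3 := (Finset.sum_eq_zero_iff_of_nonneg
    (fun y _ => mul_nonneg (hD.hu.1 y) ((hD.hP y).1 x))).1 h1 y (Finset.mem_univ y)
  rcases mul_eq_zero.1 h3 with h | h
  · exact absurd h hy.ne'
  · exact h

theorem hh_one_le {A : Finset G} {u : β → ℝ} {P : β → G → ℝ} (hD : Dec A u P) (hA : A.Nonempty) :
    hh u P 1 ≤ Real.log (A.card : ℝ) := by
  have hu := hD.hu
  have hP := hD.hP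
  unfold hh
  rw [Av_one]
  have h1 : Real.log (A.card : ℝ) = ∑ y, u y * Real.log (A.card : ℝ) := by
    rw [← Finset.sum_mul, hu.2, one_mul]
  rw [h1]
  refine Finset.sum_le_sum (fun y _ => ?_)
  rcases (hu.1 y).eq_or_lt with h0 | h0
  · rw [← h0, zero_mul, zero_mul]
  · refine mul_le_mul_of_nonneg_left ?_ h0.le
    rw [ent_eq_H]
    refine H_le_log_card (hP y) _ A (fun x hx => ?_)
    by_contra hxA
    exact hx.ne' (hD.supp h0 hxA)

end Pool.Agent.NPM
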