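import Pool.Agent.NPM.Kul
import Pool.Agent.NPM.Bas
set_option autoImplicit false

/-!
# Smo.  Smoothing for one pair of laws (size 2).

Write `τ x g = μ (g - x)`, `r = conv p μ`.
`smo_id`: `Σ_x p x Σ_g τ x g log (τ x g / r g) = ent r - ent μ`: for `p x > 0` and `τ x g > 0` one has `r g > 0`, `log (a/b) = log a - log b`;
`Σ_x p x Σ_g τ x g log (τ x g) = -ent μ` (translation, `Σ p = 1`), `Σ_x Σ_g p x τ x g log (r g) = Σ_g r g log (r g) = -ent r`.
`smo_one`: `pinsker` for `μ := τ x`, `ν := r`, for each `x` with `p x > 0` (then `r g = 0` implies `τ x g = 0`, as `p x τ x g ≤ r g`).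
`smo_two`: `l1 x x' μ ≤ Σ|τ x - r| + Σ|τ x' - r|`, `(a + b)² ≤ 2a² + 2b²`, `Σ p = 1`: total `2·4 + 2·4 = 16`.
-/
namespace Pool.Agent.NPM
open Finset Pool.Agent.Ldc

variable {G : Type} [AddCommGroup G] [Fintype G]

private theorem smo_le {p μ : G → ℝ} (hp : IsP p) (hμ : IsP μ) (x g : G) :
    p x * μ (g - x) ≤ conv p μ g := by
  unfold conv
  exact Finset.single_le_sum (f := fun x => p x * μ (g - x))
    (fun y _ => mul_nonneg (hp.1 y) (hμ.1 _)) (Finset.mem_univ x)

private theorem smo_shift (f : G → ℝ) (x : G) : ∑ g, f (g - x) = ∑ g, f g :=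
  (Equiv.subRight x).sum_comp f

theorem smo_id {p μ : G → ℝ} (hp : IsP p) (hμ : IsP μ) :
    ∑ x, p x * ∑ g, μ (g - x) * Real.log (μ (g - x) / conv p μ g) = ent (conv p μ) - ent μ := by
  have key : ∀ x, p x * ∑ g, μ (g - x) * Real.log (μ (g - x) / conv p μ g)
      = p x * (∑ g, μ g * Real.log (μ g)) - ∑ g, p x * μ (g - x) * Real.log (conv p μ g) := by
    intro x
    have h1 : ∑ g, μ g * Real.log (μ g) = ∑ g, μ (g - x) * Real.log (μ (g - x)) :=
      (smo_shift (fun g => μ g * Real.log (μ g)) x).symm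
    rw [h1, Finset.mul_sum, Finset.mul_sum, ← Finset.sum_sub_distrib]
    refine Finset.sum_congr rfl fun g _ => ?_
    by_cases hpx : p x = 0
    · simp [hpx]
    by_cases hm : μ (g - x) = 0
    · simp [hm]
    have hppos : 0 < p x := lt_of_le_of_ne (hp.1 x) (Ne.symm hpx)
    have hmpos : 0 < μ (g - x) := lt_of_le_of_ne (hμ.1 _) (Ne.symm hm)
    have hr : 0 < conv p μ g := lt_of_lt_of_le (mul_pos hppos hmpos) (smo_le hp hμ x g)
    rw [Real.log_div hm hr.ne']
    ring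
  rw [Finset.sum_congr rfl fun x _ => key x, Finset.sum_sub_distrib, ← Finset.sum_mul, hp.2,
    one_mul, Finset.sum_comm]
  have h2 : ∀ g, ∑ x, p x * μ (g - x) * Real.log (conv p μ g)
      = conv p μ g * Real.log (conv p μ g) := by
    intro g
    rw [← Finset.sum_mul]
    rfl
  rw [Finset.sum_congr rfl fun g _ => h2 g]
  unfold ent Real.negMulLog
  have e1 : ∑ a, -conv p μ a * Real.log (conv p μ a)
      = - ∑ a, conv p μ a * Real.log (conv p μ a) := by
    rw [← Finset.sum_neg_distrib]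
    exact Finset.sum_congr rfl fun a _ => by ring
  have e2 : ∑ a, -μ a * Real.log (μ a) = - ∑ a, μ a * Real.log (μ a) := by
    rw [← Finset.sum_neg_distrib]
    exact Finset.sum_congr rfl fun a _ => by ring
  rw [e1, e2]
  ring

theorem smo_one {p μ : G → ℝ} (hp : IsP p) (hμ : IsP μ) :
    ∑ x, p x * (∑ g, |μ (g - x) - conv p μ g|) ^ 2 ≤ 4 * (ent (conv p μ) - ent μ) := by
  rw [← smo_id hp hμ, Finset.mul_sum]
  refine Finset.sum_le_sum fun x _ => ?_
  by_cases hpx : p x = 0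
  · simp [hpx]
  have hppos : 0 < p x := lt_of_le_of_ne (hp.1 x) (Ne.symm hpx)
  have hτ : IsP (fun g => μ (g - x)) :=
    ⟨fun g => hμ.1 _, by rw [smo_shift μ x]; exact hμ.2⟩
  have hr : IsP (conv p μ) := conv_isP hp hμ
  have hz : ∀ g, conv p μ g = 0 → (fun g => μ (g - x)) g = 0 := by
    intro g hg
    have h1 := smo_le hp hμ x g
    rw [hg] at h1
    have h2 : 0 ≤ μ (g - x) := hμ.1 _
    by_contra hne
    have h3 : 0 < μ (g - x) := lt_of_le_of_ne h2 (Ne.symm hne)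
    have h4 : 0 < p x * μ (g - x) := mul_pos hppos h3
    linarith
  have h := pinsker hτ hr hz
  have h' := mul_le_mul_of_nonneg_left h hppos.le
  calc p x * (∑ g, |μ (g - x) - conv p μ g|) ^ 2
      ≤ p x * (4 * ∑ g, μ (g - x) * Real.log (μ (g - x) / conv p μ g)) := h'
    _ = 4 * (p x * ∑ g, μ (g - x) * Real.log (μ (g - x) / conv p μ g)) := by ring

theorem smo_two {p μ : G → ℝ} (hp : IsP p) (hμ : IsP μ) :
    ∑ x, p x * ∑ x', p x' * (l1 x x' μ) ^ 2 ≤ 16 * (ent (conv p μ) - ent μ) := by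
  have hone := smo_one hp hμ
  set D : G → ℝ := fun x => ∑ g, |μ (g - x) - conv p μ g| with hD
  have hl : ∀ x x', (l1 x x' μ) ^ 2 ≤ 2 * D x ^ 2 + 2 * D x' ^ 2 := by
    intro x x'
    have h0 : 0 ≤ l1 x x' μ := Finset.sum_nonneg fun g _ => abs_nonneg _
    have h1 : l1 x x' μ ≤ D x + D x' := by
      unfold l1
      rw [hD]
      simp only
      rw [← Finset.sum_add_distrib]
      refine Finset.sum_le_sum fun g _ => ?_
      have := abs_sub_le (μ (g - x)) (conv p μ g) (μ (g - x'))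
      rw [abs_sub_comm (conv p μ g) (μ (g - x'))] at this
      exact this
    have h2 : (l1 x x' μ) ^ 2 ≤ (D x + D x') ^ 2 := pow_le_pow_left₀ h0 h1 2
    nlinarith [sq_nonneg (D x - D x')]
  have hstep : ∑ x, p x * ∑ x', p x' * (l1 x x' μ) ^ 2
      ≤ ∑ x, p x * ∑ x', p x' * (2 * D x ^ 2 + 2 * D x' ^ 2) := by
    refine Finset.sum_le_sum fun x _ => mul_le_mul_of_nonneg_left ?_ (hp.1 x)
    exact Finset.sum_le_sum fun x' _ => mul_le_mul_of_nonneg_left (hl x x') (hp.1 x')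
  have hin : ∀ x, ∑ x', p x' * (2 * D x ^ 2 + 2 * D x' ^ 2)
      = 2 * D x ^ 2 + 2 * ∑ x', p x' * D x' ^ 2 := by
    intro x
    have : ∀ x', p x' * (2 * D x ^ 2 + 2 * D x' ^ 2)
        = p x' * (2 * D x ^ 2) + 2 * (p x' * D x' ^ 2) := fun x' => by ring
    rw [Finset.sum_congr rfl fun x' _ => this x', Finset.sum_add_distrib, ← Finset.sum_mul, hp.2,
      ← Finset.mul_sum, one_mul]
  have hout : ∑ x, p x * ∑ x', p x' * (2 * D x ^ 2 + 2 * D x' ^ 2)
      = 4 * ∑ x, p x * D x ^ 2 := by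
    rw [Finset.sum_congr rfl fun x _ => by rw [hin x]]
    have : ∀ x, p x * (2 * D x ^ 2 + 2 * ∑ x', p x' * D x' ^ 2)
        = 2 * (p x * D x ^ 2) + p x * (2 * ∑ x', p x' * D x' ^ 2) := fun x => by ring
    rw [Finset.sum_congr rfl fun x _ => this x, Finset.sum_add_distrib, ← Finset.sum_mul, hp.2,
      ← Finset.mul_sum, one_mul]
    ring
  rw [hout] at hstep
  have : ∑ x, p x * D x ^ 2 ≤ 4 * (ent (conv p μ) - ent μ) := hone
  linarith

end Pool.Agent.NPM
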